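import Pool.Agent.Work.MP_8f87b2_mid.InAE

/-!
MP_8f87b2_co: valleys (factors `0 1`). The inner words `T (w i)`, `i = 1, 3, 6, 8, 9`, of a window of ANY height have a
valley of height at least 2; the words of a plain triple `P(Q)R` whose parts `P, Q, R` have only valleys of height 0 (for
example concatenations of towers and beads) have only valleys of height at most 1. So such triples never meet inner words.
-/

set_option autoImplicit false

namespace Pool.OddHC

open BinaryTree Equiv

namespace H1

variable {k : ℕ}

/-- all valleys of `t` have height at most `n` -/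
def vl (n : ℕ) (t : BinaryTree Unit) : Prop :=
  ∀ u v, wd t = u ++ false :: true :: v → u.count true ≤ u.count false + 1 + n

/-- no valley at all -/
def nv (t : BinaryTree Unit) : Prop := ∀ u v, wd t ≠ u ++ false :: true :: v

/-- every component is a tower -/
def fl : BinaryTree Unit → Prop
  | .nil => True
  | .node _ A X => (∃ n, A = ch n) ∧ fl X

theorem vl_mono {n m : ℕ} {t : BinaryTree Unit} (h : vl n t) (hn : n ≤ m) : vl m t := by
  intro u v e
  have := h u v e
  omega

theorem vl_nil (n : ℕ) : vl n .nil := by
  intro u v e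
  have := congrArg List.length e
  simp [wd] at this

theorem nv_ch (n : ℕ) : nv (ch n) := by
  intro u v e
  rw [wd_ch] at e
  rcases List.append_eq_append_iff.1 e with ⟨c, h1, h2⟩ | ⟨c, h1, h2⟩
  · have : true ∈ List.replicate n false := by rw [h2]; simp
    rw [List.mem_replicate] at this
    exact absurd this.2 (by simp)
  · cases c with
    | nil =>
      rw [List.nil_append] at h2
      have : true ∈ List.replicate n false := by rw [← h2]; simp
      rw [List.mem_replicate] at this
      exact absurd this.2 (by simp)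
    | cons x c =>
      rw [List.cons_append, List.cons.injEq] at h2
      have : false ∈ List.replicate n true := by rw [h1, h2.1]; simp
      rw [List.mem_replicate] at this
      exact absurd this.2 (by simp)

/-- a valley of `(A) C` -/
theorem valley_node {A C : BinaryTree Unit} {u v : List Bool} (e : wd (A △ C) = u ++ false :: true :: v) :
    (u = true :: wd A) ∨ (∃ c, u = true :: (wd A ++ false :: c) ∧ wd C = c ++ false :: true :: v) ∨
    ∃ u' v', u = true :: u' ∧ wd A = u' ++ false :: true :: v' := by
  rw [wd_node] at e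
  cases u with
  | nil => rw [List.nil_append, List.cons.injEq] at e; exact absurd e.1 (by simp)
  | cons x u =>
    rw [List.cons_append, List.cons.injEq] at e
    obtain ⟨rfl, e⟩ := e
    rcases List.append_eq_append_iff.1 e with ⟨c, h1, h2⟩ | ⟨c, h1, h2⟩
    · cases c with
      | nil => left; rw [h1]; simp
      | cons y c =>
        rw [List.cons_append, List.cons.injEq] at h2
        right; left
        exact ⟨c, by rw [h1, ← h2.1], h2.2⟩
    · cases c with
      | nil => left; rw [h1]; simp
      | cons y c =>
        rw [List.cons_append, List.cons.injEq] at h2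
        obtain ⟨rfl, h2⟩ := h2
        cases c with
        | nil => rw [List.nil_append, List.cons.injEq] at h2; exact absurd h2.1 (by simp)
        | cons z c =>
          rw [List.cons_append, List.cons.injEq] at h2
          obtain ⟨rfl, _⟩ := h2
          right; right
          exact ⟨u, c, rfl, h1⟩

theorem vl_node {n : ℕ} {A C : BinaryTree Unit} (hA : vl n A) (hC : vl (n + 1) C) : vl (n + 1) (A △ C) := by
  intro u v e
  have cA := wd_counts A
  rcases valley_node e with rfl | ⟨c, rfl, h⟩ | ⟨u', v', rfl, h⟩
  · rw [List.count_cons_self, List.count_cons_of_ne (by simp), cA.1, cA.2]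
    omega
  · have := hC _ _ h
    rw [List.count_cons_self, List.count_cons_of_ne (by simp), List.count_append, List.count_append,
      List.count_cons_self, List.count_cons_of_ne (by simp), cA.1, cA.2]
    omega
  · have := hA _ _ h
    rw [List.count_cons_self, List.count_cons_of_ne (by simp)]
    omega

theorem vl_tower {n m : ℕ} {C : BinaryTree Unit} (hC : vl n C) : vl n (ch m △ C) := by
  intro u v e
  have cA := wd_counts (ch m)
  rcases valley_node e with rfl | ⟨c, rfl, h⟩ | ⟨u', v', rfl, h⟩
  · rw [List.count_cons_self, List.count_cons_of_ne (by simp), cA.1, cA.2]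
    omega
  · have := hC _ _ h
    rw [List.count_cons_self, List.count_cons_of_ne (by simp), List.count_append, List.count_append,
      List.count_cons_self, List.count_cons_of_ne (by simp), cA.1, cA.2]
    omega
  · exact absurd h (nv_ch m _ _)

theorem vl_fl {t : BinaryTree Unit} (h : fl t) : vl 0 t := by
  induction t with
  | nil => exact vl_nil 0
  | node _ A X _ ih =>
    obtain ⟨⟨n, rfl⟩, h2⟩ := h
    exact vl_tower (ih h2)

theorem vl_app {n : ℕ} {P Q : BinaryTree Unit} (hP : vl n P) (hQ : vl n Q) : vl n (app P Q) := by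
  induction P with
  | nil => exact hQ
  | node _ A X _ ih =>
    have hX : vl n X := by
      intro u v e
      have h1 := hP (true :: (wd A ++ false :: u)) v (by
        change wd (A △ X) = _
        rw [wd_node, e]; simp)
      have cA := wd_counts A
      rw [List.count_cons_self, List.count_cons_of_ne (by simp), List.count_append, List.count_append,
        List.count_cons_self, List.count_cons_of_ne (by simp), cA.1, cA.2] at h1
      omega
    intro u v e
    have cA := wd_counts A
    have e' : wd (A △ app X Q) = u ++ false :: true :: v := e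
    rcases valley_node e' with rfl | ⟨c, rfl, h⟩ | ⟨u', v', rfl, h⟩
    · rw [List.count_cons_self, List.count_cons_of_ne (by simp), cA.1, cA.2]
      omega
    · have := ih hX _ _ h
      rw [List.count_cons_self, List.count_cons_of_ne (by simp), List.count_append, List.count_append,
        List.count_cons_self, List.count_cons_of_ne (by simp), cA.1, cA.2]
      omega
    · refine hP (true :: u') (v' ++ false :: wd X) ?_
      change wd (A △ X) = _
      rw [wd_node, h]; simp

theorem vl_ch (m : ℕ) : vl 0 (ch m) := by
  intro u v e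
  exact absurd e (nv_ch m _ _)

theorem vl_w1 {P Q R : BinaryTree Unit} (hP : vl 0 P) (hQ : vl 0 Q) (hR : vl 0 R) : vl 1 (w1 P Q R) :=
  vl_app (vl_mono hP (by omega)) (vl_node hQ (vl_mono hR (by omega)))

theorem fl_app {P Q : BinaryTree Unit} (hP : fl P) (hQ : fl Q) : fl (app P Q) := by
  induction P with
  | nil => exact hQ
  | node _ A X _ ih => exact ⟨hP.1, ih hP.2⟩

theorem fl_lp (m : ℕ) : fl (lp m) := by
  induction m with
  | zero => trivial
  | succ m ih => exact ⟨⟨0, rfl⟩, ih⟩

theorem fl_ch (m : ℕ) : fl (ch m) := by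
  cases m with
  | zero => trivial
  | succ m => exact ⟨⟨m, rfl⟩, trivial⟩

/-- `T x` has a valley after the first maximum -/
theorem FM.vl_b {x : X k} {a b : List Bool} (h : FM x.1 a b) {n : ℕ} (hv : vl n (TT x).1)
    {b1 b2 : List Bool} (e : b = b1 ++ true :: false :: b2) : b1.count false ≤ b1.count true + 1 + n := by
  have h1 := h.wdT
  rw [e] at h1
  have h2 := hv (b1.map not) (b2.map not ++ false :: a.map not) (by rw [h1]; simp)
  have h3 : (b1.map not).count true = b1.count false := Tsq.count_not_true b1
  have h4 : (b1.map not).count false = b1.count true := Tsq.count_not_false b1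
  omega

/-- `T x` has a valley before the first maximum -/
theorem FM.vl_a {x : X k} {a b : List Bool} (h : FM x.1 a b) {n : ℕ} (hv : vl n (TT x).1)
    {a1 a2 : List Bool} (e : a = a1 ++ true :: false :: a2) :
    b.count false + a1.count false ≤ b.count true + a1.count true + 2 + n := by
  have h1 := h.wdT
  rw [e] at h1
  have h2 := hv (b.map not ++ false :: a1.map not) (a2.map not) (by rw [h1]; simp)
  have h3 : (b.map not).count true = b.count false := Tsq.count_not_true b
  have h4 : (b.map not).count false = b.count true := Tsq.count_not_false b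
  have h5 : (a1.map not).count true = a1.count false := Tsq.count_not_true a1
  have h6 : (a1.map not).count false = a1.count true := Tsq.count_not_false a1
  rw [List.count_append, List.count_append, List.count_cons_self, List.count_cons_of_ne (by simp),
    h3, h4, h5, h6] at h2
  omega

/-- the height after the first maximum -/
theorem FM.bal {t : BinaryTree Unit} {a b : List Bool} (h : FM t a b) :
    b.count false = b.count true + Tsq.ht t := by
  have h1 := wd_counts t
  rw [h.eq] at h1
  have h2 := h.top
  rw [List.count_append, List.count_append, List.count_cons_self, List.count_cons_of_ne (by simp)] at h1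
  omega

theorem wd_ch_succ (m : ℕ) : wd (ch (m + 1)) =
    List.replicate m true ++ true :: false :: List.replicate m false := by
  rw [wd_ch, List.replicate_succ', List.replicate_succ]
  simp

theorem ct_rep (n : ℕ) : (List.replicate n true).count true = n ∧ (List.replicate n true).count false = 0 := by
  simp [List.count_replicate]

/-- **the inner words 1, 3, 6, 8, 9 have a valley of height at least 2** -/
theorem inner_vl {q : ℕ} {R B S : BinaryTree Unit} {a b : List Bool} (h : FM R a b) (hq : q + 3 ≤ Tsq.ht R)
    {x : X k} : ∀ i ∈ [1, 3, 6, 8, 9], x.1 = W R (ch (q + 1)) B S i → ¬ vl 1 (TT x).1 := by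
  have hn : Tsq.ht (.nil : BinaryTree Unit) = 0 := rfl
  have hc : ∀ n, Tsq.ht (ch n) = n := fun n => by rw [ht_eq, ch_ht]
  have hb := h.bal
  have r1 := ct_rep (q + 1)
  have r0 := ct_rep q
  intro i hi e hv
  simp only [List.mem_cons, List.not_mem_nil, or_false] at hi
  rcases hi with rfl | rfl | rfl | rfl | rfl
  · -- `R()Q()`
    have k1 := h.app_right (Z := .nil △ app (ch (q + 1)) (.nil △ .nil)) (by
      rw [Tsq.ht_node, Tsq.ht_app, Tsq.ht_node, hc, hn]; omega)
    have e' : x.1 = app R (.nil △ app (ch (q + 1)) (.nil △ .nil)) := e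
    rw [← e'] at k1
    have h1 := k1.vl_b hv (b1 := b) (b2 := wd (app (ch (q + 1)) (.nil △ .nil))) (by
      rw [wd_node]; simp [wd])
    omega
  · -- `(R()Q)`
    have k1 := (h.app_right (Z := .nil △ ch (q + 1)) (by
      rw [Tsq.ht_node, hc, hn]; omega)).node (Z := .nil) (by rw [hn]; omega)
    have e' : x.1 = (app R (.nil △ ch (q + 1)) △ .nil) := e
    rw [← e'] at k1
    have h1 := k1.vl_b hv (b1 := b) (b2 := wd (ch (q + 1)) ++ [false]) (by
      rw [wd_node]; simp [wd])
    omega
  · -- `(R)(Q)`
    have k1 := h.node (Z := ch (q + 2)) (by rw [hc]; omega)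
    have e' : x.1 = (R △ ch (q + 2)) := e
    rw [← e'] at k1
    have h1 := k1.vl_b hv (b1 := b ++ false :: List.replicate (q + 1) true)
      (b2 := List.replicate (q + 1) false) (by rw [wd_ch_succ]; simp)
    rw [List.count_append, List.count_append, List.count_cons_self, List.count_cons_of_ne (by simp),
      r1.1, r1.2] at h1
    omega
  · -- `Q()(R)`
    have k1 := (h.node (Z := .nil) (by rw [hn]; omega)).app_left
      (P := app (ch (q + 1)) (.nil △ .nil)) (by
        rw [Tsq.ht_node, Tsq.ht_app, Tsq.ht_node, hc, hn]; omega)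
    have e' : x.1 = app (app (ch (q + 1)) (.nil △ .nil)) (R △ .nil) := by
      rw [app_assoc]; exact e
    rw [← e'] at k1
    have h1 := k1.vl_a hv (a1 := List.replicate q true)
      (a2 := List.replicate q false ++ (wd (.nil △ .nil) ++ true :: a)) (by
        rw [wd_app, wd_ch_succ]; simp)
    rw [r0.1, r0.2, List.count_append, List.count_append] at h1
    simp [wd] at h1
    omega
  · -- `((R))Q`
    have k1 := (h.node (Z := .nil) (by rw [hn]; omega)).node (Z := ch (q + 1)) (by
      rw [Tsq.ht_node, hc, hn]; omega)
    have e' : x.1 = ((R △ .nil) △ ch (q + 1)) := e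
    rw [← e'] at k1
    have h1 := k1.vl_b hv (b1 := b ++ false :: false :: List.replicate q true)
      (b2 := List.replicate q false) (by rw [wd_ch_succ]; simp [wd])
    have c1 : (false :: false :: List.replicate q true).count false = 2 := by
      rw [List.count_cons_self, List.count_cons_self, r0.2]
    have c2 : (false :: false :: List.replicate q true).count true = q := by
      rw [List.count_cons_of_ne (by simp), List.count_cons_of_ne (by simp), r0.1]
    rw [List.count_append, List.count_append, c1, c2] at h1
    omega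

/-- **the inner words of a window**, any height -/
theorem NodeG.inner_vl {q : ℕ} {B1 H s B : BinaryTree Unit} (h : NodeG k q B1 H s B) (w0 : X k) {i : ℕ}
    (hi : i ∈ [1, 3, 6, 8, 9]) : ¬ vl 1 (TT (gX q B1 H s B w0 i)).1 := by
  have hi' : i < 20 := by
    simp only [List.mem_cons, List.not_mem_nil, or_false] at hi
    omega
  have hw := h.word w0 hi'
  obtain ⟨a, b, h1⟩ := h.fmr
  exact H1.inner_vl h1.fm (by rw [ht_eq, h.ht]; exact h.big) i hi hw

end H1

variable {k : ℕ} {P Q R : BinaryTree Unit} {F F' : Set (Cyc k)} {g g' : DG k}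

open H1

/-- the words of a plain triple with flat parts -/
theorem IsTri.vl1 (h : IsTri P Q R F g) (hP : vl 0 P) (hQ : vl 0 Q) (hR : vl 0 R) : ∀ w ∈ g.B, vl 1 w.1 := by
  intro w hw
  rcases h.words w hw with e | ⟨_, e | e⟩
  · rw [e]; exact vl_w1 hP hQ hR
  · rw [e]; exact vl_w1 hQ hR hP
  · rw [e]; exact vl_w1 hR hP hQ

/-- **the inner words of a window against a plain triple with flat parts which is not lower** -/
theorem TyA.inner_flat (h : TyA F g) (h' : IsTri P Q R F' g') (hP : vl 0 P) (hQ : vl 0 Q) (hR : vl 0 R)
    (hd : ∀ c ∈ F, c ∉ F') (hh : ∀ c ∈ F, ∀ d ∈ F', htc c ≤ htc d) {a : X k × X k} (ha : a ∈ g.arcs) :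
    ∀ w ∈ innA a, w ∉ g'.B := by
  obtain ⟨q, B1, H, s, B, w0, hG, rfl, rfl⟩ := h
  have key : ∀ i ∈ [1, 3, 6, 8, 9], ∀ w ∈ ({TT (gX q B1 H s B w0 i)} : Set (X k)), w ∉ g'.B := by
    rintro i hi w rfl hw
    exact hG.inner_vl w0 hi (h'.vl1 hP hQ hR _ hw)
  have key0 : ∀ w ∈ ({TT (gX q B1 H s B w0 0)} : Set (X k)), w ∉ g'.B := by
    rintro w rfl hw
    have e1 : cyc (TT (gX q B1 H s B w0 0)) = cyc (gX q B1 H s B w0 0) := cyc_eq.2 ⟨-1, by simp⟩
    rcases h'.rank _ hw with h2 | h2
    · rw [e1] at h2
      exact hd _ rfl h2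
    · obtain ⟨x, _, c, _, _, _, _, _, _, rfl, _⟩ := h'
      have h3 := h2 (cyc c) (Or.inr rfl)
      have h4 := hh _ rfl (cyc c) (Or.inr rfl)
      rw [e1] at h3
      omega
  have hp : a = (gX q B1 H s B w0 0, gX q B1 H s B w0 10) ∨
      a = (gX q B1 H s B w0 1, gX q B1 H s B w0 11) ∨
      a = (gX q B1 H s B w0 3, gX q B1 H s B w0 12) ∨
      a = (gX q B1 H s B w0 6, gX q B1 H s B w0 15) ∨
      a = (gX q B1 H s B w0 8, gX q B1 H s B w0 14) ∨
      a = (gX q B1 H s B w0 9, gX q B1 H s B w0 17) := ha
  rcases hp with rfl | rfl | rfl | rfl | rfl | rfl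
  · exact key0
  · exact key 1 (by simp)
  · exact key 3 (by simp)
  · exact key 6 (by simp)
  · exact key 8 (by simp)
  · exact key 9 (by simp)

/-- **K**, `S` flat -/
theorem TyA.inner_K {S : BinaryTree Unit} (h : TyA F g) (h' : TyK S F' g') (hS : fl S)
    (hd : ∀ c ∈ F, c ∉ F') (hh : ∀ c ∈ F, ∀ d ∈ F', htc c ≤ htc d) {a : X k × X k} (ha : a ∈ g.arcs) :
    ∀ w ∈ innA a, w ∉ g'.B :=
  h.inner_flat h' (vl_nil 0) (vl_fl hS) (vl_ch 1) hd hh ha

/-- **Cr**, `R` flat -/
theorem TyA.inner_C {c : ℕ} {S : BinaryTree Unit} (h : TyA F g) (h' : TyC c S F' g') (hS : fl S)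
    (hd : ∀ c ∈ F, c ∉ F') (hh : ∀ c ∈ F, ∀ d ∈ F', htc c ≤ htc d) {a : X k × X k} (ha : a ∈ g.arcs) :
    ∀ w ∈ innA a, w ∉ g'.B :=
  h.inner_flat h' (vl_nil 0) (vl_fl hS) (vl_ch c) hd hh ha

/-- **Cl**, `R` flat -/
theorem TyA.inner_C' {c : ℕ} {S : BinaryTree Unit} (h : TyA F g) (h' : TyC' c S F' g') (hS : fl S)
    (hd : ∀ c ∈ F, c ∉ F') (hh : ∀ c ∈ F, ∀ d ∈ F', htc c ≤ htc d) {a : X k × X k} (ha : a ∈ g.arcs) :
    ∀ w ∈ innA a, w ∉ g'.B :=
  h.inner_flat h' (vl_ch c) (vl_fl hS) (vl_nil 0) hd hh ha

end Pool.OddHC
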