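import Pool.Agent.Work.MP_8f87b2_h27.InnTri
import Pool.Agent.Work.MP_8f87b2_h27.Flat
import Pool.Agent.Work.MP_8f87b2_h71.H1Low

/-!
MP_8f87b2_co: inner words of the windows against the links `K'` (mirrored `K`: host `()(S)`, new words `S()()`, `(())S`: no
condition at all), `Cr` (`c ≥ 3`), `Cl` (`c ≥ 2`) and `K` (at least one bead) with `S = S0 ()^m`, windows of ANY height.
-/

set_option autoImplicit false

namespace Pool.OddHC

open BinaryTree Equiv

namespace H1

variable {k q : ℕ}

/-- last component of a light word -/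
theorem bl_snoc {H : BinaryTree Unit} : bl H = true → H ≠ .nil →
    ∃ H', H = app H' (.nil △ .nil) ∨ H = app H' (two) := by
  induction H with
  | nil => intro _ h; exact absurd rfl h
  | node _ A X _ ih =>
    intro h _
    rw [bl, Bool.and_eq_true] at h
    by_cases hX : X = .nil
    · subst hX
      rcases light_cases h.1 with rfl | rfl
      · exact ⟨.nil, Or.inl rfl⟩
      · exact ⟨.nil, Or.inr rfl⟩
    · obtain ⟨H', e | e⟩ := ih h.2 hX
      · exact ⟨A △ H', Or.inl (by rw [e]; rfl)⟩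
      · exact ⟨A △ H', Or.inr (by rw [e]; rfl)⟩

/-- the end of the inner words of a window of height 4 -/
def E4 (l : List Bool) : Prop := (∃ v, l = v ++ [false, true, false, false]) ∨
  ∃ v, l = v ++ [false, false, true, true, false, false]

theorem E4.tff {l : List Bool} (h : E4 l) : ∃ v, l = v ++ [true, false, false] := by
  rcases h with ⟨v, rfl⟩ | ⟨v, rfl⟩
  · exact ⟨v ++ [false], by simp⟩
  · exact ⟨v ++ [false, false, true], by simp⟩

theorem E4.app {l : List Bool} (h : E4 l) (u : List Bool) : E4 (u ++ l) := by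
  rcases h with ⟨v, rfl⟩ | ⟨v, rfl⟩
  · exact Or.inl ⟨u ++ v, by simp⟩
  · exact Or.inr ⟨u ++ v, by simp⟩

theorem E4_El {b : ℕ} {H : BinaryTree Unit} (h : bl H = true) (h0 : H ≠ .nil) : E4 (El b H) := by
  obtain ⟨H', rfl | rfl⟩ := bl_snoc h h0
  · left
    exact ⟨co (wd (lv3' b .nil)) ++ false :: co (wd H'), by
      unfold El; rw [wd_app, co_app]; simp [co, wd]⟩
  · right
    exact ⟨co (wd (lv3' b .nil)) ++ false :: co (wd H'), by
      unfold El; rw [wd_app, co_app]; simp [co, wd]⟩

/-- **the end of the inner words of a window of height 4** -/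
theorem NodeG.end4 {B1 H s B : BinaryTree Unit} (h : NodeG k q B1 H s B) (h3 : OddHC.ht s ≤ 3) (w0 : X k) {i : ℕ}
    (hi : i ∈ [0, 1, 3, 6, 8, 9]) : E4 (wd (TT (gX q B1 H s B w0 i)).1) := by
  obtain ⟨b, p, rfl, rfl, -⟩ := h.four h3
  rw [h.TW w0 hi]
  have key := E4_El (b := b) h.light h.H0
  obtain ⟨e0, e1, e3, e6, e8, e9⟩ := Yl_eq q b H
  have hY : E4 (Yl q b H i) := by
    simp only [List.mem_cons, List.not_mem_nil, or_false] at hi
    rcases hi with rfl | rfl | rfl | rfl | rfl | rfl
    · rw [e0]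
      have := key.app (false :: false :: (co (wd (ch (q + 1))) ++ [true, true, false]))
      simpa using this
    · rw [e1]
      have := key.app (false :: true :: (co (wd (ch (q + 1))) ++ [false, true, false]))
      simpa using this
    · rw [e3]
      have := key.app (false :: true :: (co (wd (ch (q + 1))) ++ [true, false, false]))
      simpa using this
    · rw [e6]
      have := key.app (true :: false :: (co (wd (ch (q + 1))) ++ [true, false, false]))
      simpa using this
    · rw [e8]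
      have := key.app (true :: false :: (co (wd (ch (q + 1))) ++ [false, true, false]))
      simpa using this
    · rw [e9]
      have := key.app (true :: true :: (co (wd (ch (q + 1))) ++ [false, false, false]))
      simpa using this
  have := hY.app (true :: true :: true :: (co (wd (lv3' p .nil)) ++ true :: co (wd B)))
  simpa using this

/-- the inner words 1, 8, 9 of a window of height 4 are bad -/
theorem NodeG.bad4 {B1 H s B : BinaryTree Unit} (h : NodeG k q B1 H s B) (h3 : OddHC.ht s ≤ 3) (w0 : X k) {i : ℕ}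
    (hi : i ∈ [1, 8, 9]) : bad (wd (TT (gX q B1 H s B w0 i)).1) := by
  have hq : q ≤ 1 := by
    have := h.big
    omega
  obtain ⟨b, p, rfl, rfl, -⟩ := h.four h3
  have hi' : i ∈ [0, 1, 3, 6, 8, 9] := by
    simp only [List.mem_cons, List.not_mem_nil, or_false] at hi ⊢
    omega
  rw [h.TW w0 hi']
  obtain ⟨e0, e1, e3, e6, e8, e9⟩ := Yl_eq q b H
  obtain ⟨v, hv⟩ := El_ff (b := b) h.light h.H0
  simp only [List.mem_cons, List.not_mem_nil, or_false] at hi
  rcases hi with rfl | rfl | rfl
  · left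
    rw [e1, hv]
    exact ⟨true :: true :: true :: (co (wd (lv3' p .nil)) ++ true :: (co (wd B) ++ false :: true ::
      co (wd (ch (q + 1))))), v, by simp⟩
  · left
    rw [e8, hv]
    exact ⟨true :: true :: true :: (co (wd (lv3' p .nil)) ++ true :: (co (wd B) ++ true :: false ::
      co (wd (ch (q + 1))))), v, by simp⟩
  · rw [e9]
    rcases coQ q hq with ⟨rfl, hc⟩ | ⟨rfl, hc⟩
    · left
      rw [hc]
      exact ⟨true :: true :: true :: (co (wd (lv3' p .nil)) ++ true :: (co (wd B) ++ [true, true])), El b H, by simp⟩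
    · right
      rw [hc]
      exact ⟨true :: true :: true :: (co (wd (lv3' p .nil)) ++ true :: (co (wd B) ++ [true, true])), El b H, by simp⟩

/-- the words `()..`, `(())..` and `..()` are never inner words -/
theorem NodeG.inner_lp {B1 H s B : BinaryTree Unit} (h : NodeG k q B1 H s B) (w0 : X k) {i : ℕ}
    (hi : i ∈ [0, 1, 3, 6, 8, 9]) {w : X k}
    (hw : (∃ v, wd w.1 = true :: false :: v) ∨ (∃ v, wd w.1 = true :: true :: false :: v) ∨
      ∃ v, wd w.1 = v ++ [true, false]) : TT (gX q B1 H s B w0 i) ≠ w := by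
  rintro rfl
  obtain ⟨u, v, h1⟩ := h.fmrW h.fmr w0 i hi
  obtain ⟨h3, l, h4⟩ := h1.inner
  rcases hw with ⟨v, hw⟩ | ⟨v, hw⟩ | ⟨v, hw⟩
  · rw [hw] at h3
    rcases h3 with ⟨r, h5⟩ | ⟨r, h5⟩ <;> simp [List.replicate_succ] at h5
  · rw [hw] at h3
    rcases h3 with ⟨r, h5⟩ | ⟨r, h5⟩ <;> simp [List.replicate_succ] at h5
  · rw [hw] at h4
    have h5 := congrArg List.reverse h4
    simp [List.replicate_succ] at h5

end H1

variable {k : ℕ} {P Q R : BinaryTree Unit} {F F' : Set (Cyc k)} {g g' : DG k}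

open H1

/-- TYPE K' (mirrored `K`): host `()(S)`, new words `S()()`, `(())S` -/
def TyK' (S : BinaryTree Unit) (F : Set (Cyc k)) (g : DG k) : Prop :=
  IsTri (.nil △ .nil) S .nil F g

theorem arcs_cases {q : ℕ} {B1 H s B : BinaryTree Unit} {w0 : X k} {a : X k × X k}
    (ha : a ∈ (gad20 (gX q B1 H s B w0)).arcs) :
    ∃ i ∈ [0, 1, 3, 6, 8, 9], innA a = {TT (gX q B1 H s B w0 i)} := by
  have hp : a = (gX q B1 H s B w0 0, gX q B1 H s B w0 10) ∨
      a = (gX q B1 H s B w0 1, gX q B1 H s B w0 11) ∨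
      a = (gX q B1 H s B w0 3, gX q B1 H s B w0 12) ∨
      a = (gX q B1 H s B w0 6, gX q B1 H s B w0 15) ∨
      a = (gX q B1 H s B w0 8, gX q B1 H s B w0 14) ∨
      a = (gX q B1 H s B w0 9, gX q B1 H s B w0 17) := ha
  rcases hp with rfl | rfl | rfl | rfl | rfl | rfl
  · exact ⟨0, by simp, rfl⟩
  · exact ⟨1, by simp, rfl⟩
  · exact ⟨3, by simp, rfl⟩
  · exact ⟨6, by simp, rfl⟩
  · exact ⟨8, by simp, rfl⟩
  · exact ⟨9, by simp, rfl⟩

/-- a common form: what is to be checked for every word -/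
theorem TyA.inner_of (h : TyA F g) {a : X k × X k} (ha : a ∈ g.arcs) {w : X k}
    (hw : (∃ v, wd w.1 = true :: false :: v) ∨ (∃ v, wd w.1 = true :: true :: false :: v) ∨
      (∃ v, wd w.1 = v ++ [true, false]) ∨
      (nd w.1 ∧ ((∃ v, wd w.1 = v ++ [false, false, false]) ∨
        (∃ v, wd w.1 = v ++ [true, false, true, true, false, false]) ∨ 6 ≤ OddHC.ht w.1))) : w ∉ innA a := by
  obtain ⟨q, B1, H, s, B, w0, hG, rfl, rfl⟩ := h
  obtain ⟨i, hi, e⟩ := arcs_cases ha
  rw [e]
  intro h1
  have e1 : w = TT (gX q B1 H s B w0 i) := h1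
  rcases hw with hw | hw | hw | ⟨hn, hw⟩
  · exact hG.inner_lp w0 hi (Or.inl hw) e1.symm
  · exact hG.inner_lp w0 hi (Or.inr (Or.inl hw)) e1.symm
  · exact hG.inner_lp w0 hi (Or.inr (Or.inr hw)) e1.symm
  · have hi10 : i < 10 := by
      simp only [List.mem_cons, List.not_mem_nil, or_false] at hi
      omega
    by_cases h4 : 4 ≤ OddHC.ht s
    · exact hG.inner_ne h4 w0 hi10 (hn St.e (by intro h2; cases h2)) e1.symm
    · have h3 : OddHC.ht s ≤ 3 := by omega
      have hE := hG.end4 h3 w0 hi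
      rw [← e1] at hE
      rcases hw with ⟨v, hw⟩ | ⟨v, hw⟩ | hw
      · obtain ⟨u, hu⟩ := hE.tff
        rw [hw] at hu
        have h5 := congrArg List.reverse hu
        simp at h5
      · rcases hE with ⟨u, hu⟩ | ⟨u, hu⟩
        · rw [hw] at hu
          have h5 := congrArg List.reverse hu
          simp at h5
        · rw [hw] at hu
          have h5 := congrArg List.reverse hu
          simp at h5
      · -- heights
        have hb : i ∉ [1, 8, 9] := by
          intro hi2
          have := hG.bad4 h3 w0 hi2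
          rw [← e1] at this
          exact hn St.e (by intro h2; cases h2) (bad_dead this St.e)
        have hht : OddHC.ht w.1 = OddHC.ht (gX q B1 H s B w0 i).1 := by
          have e6 : cyc (TT (gX q B1 H s B w0 i)) = cyc (gX q B1 H s B w0 i) := cyc_eq.2 ⟨-1, by simp⟩
          have e7 := congrArg htc e6
          rw [← e1] at e7
          change (cont w.1).sup = (cont (gX q B1 H s B w0 i).1).sup at e7
          rwa [← OddHC.ht_eq, ← OddHC.ht_eq] at e7
        rw [hht, hG.word w0 (by omega)] at hw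
        have a1 := hG.ht
        have a2 := hG.big
        have hQ := ch_ht (q + 1)
        have hQ3 := ch_ht (q + 3)
        have hQ2 := ch_ht (q + 2)
        have h00 : OddHC.ht (BinaryTree.nil : BinaryTree Unit) = 0 := rfl
        simp only [List.mem_cons, List.not_mem_nil, or_false, not_or] at hi hb
        rcases hi with rfl | rfl | rfl | rfl | rfl | rfl
        · have e7 : W (gR B1 H s B) (ch (q + 1)) B (Tsq.sq (gR B1 H s B)).1 0 =
            app (gR B1 H s B) (ch (q + 3)) := rfl
          rw [e7, ht_app, hQ3] at hw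
          omega
        · exact hb.1 rfl
        · simp only [W, ht_app, ht_node, hQ, h00] at hw
          omega
        · have e7 : W (gR B1 H s B) (ch (q + 1)) B (Tsq.sq (gR B1 H s B)).1 6 =
            (gR B1 H s B △ ch (q + 2)) := rfl
          rw [e7, ht_node, hQ2] at hw
          omega
        · exact hb.2.1 rfl
        · exact hb.2.2 rfl

theorem end_tf (S0 : BinaryTree Unit) (m : ℕ) : ∃ v, wd (app S0 (lp (m + 1))) = v ++ [true, false] := by
  have key : ∀ m : ℕ, ∃ v, wd (lp (m + 1)) = v ++ [true, false] := by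
    intro m
    induction m with
    | zero => exact ⟨[], by
        change wd (.nil △ .nil) = _
        rw [wd_node]; simp [wd]⟩
    | succ m ih =>
      obtain ⟨v, hv⟩ := ih
      exact ⟨true :: false :: v, by
        change wd (.nil △ lp (m + 1)) = _
        rw [wd_node, hv]; simp [wd]⟩
  obtain ⟨v, hv⟩ := key m
  exact ⟨wd S0 ++ v, by rw [wd_app, hv]; simp⟩

theorem end_hv {A : BinaryTree Unit} : hv A → A ≠ .nil → ∃ v, wd A = v ++ [false, false, false] := by
  induction A with
  | nil => intro _ h; exact absurd rfl h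
  | node _ A X ihA ihX =>
    intro h _
    change ∃ v, wd (A △ X) = _
    by_cases hX : X = .nil
    · subst hX
      rcases h.1 with rfl | ⟨h1, h2⟩
      · exact ⟨[true, true, true], by simp [wd]⟩
      · obtain ⟨v, hv⟩ := ihA h2 h1
        exact ⟨true :: (v ++ [false]), by rw [wd_node, hv]; simp [wd]⟩
    · obtain ⟨v, hv⟩ := ihX h.2 hX
      exact ⟨true :: (wd A ++ false :: v), by rw [wd_node, hv]; simp⟩

/-- the end of `S = S0 ()^m` -/
theorem end_S {S0 : BinaryTree Unit} (h0 : hv S0) (h1 : S0 ≠ .nil) (m : ℕ) :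
    (∃ v, wd (app S0 (lp m)) = v ++ [true, false]) ∨ ∃ v, wd (app S0 (lp m)) = v ++ [false, false, false] := by
  rcases m with _ | m
  · right
    have e : app S0 (lp 0) = S0 := app_nil S0
    rw [e]
    exact end_hv h0 h1
  · exact Or.inl (end_tf S0 m)

theorem end_ch {c : ℕ} (hc : 3 ≤ c) : ∃ v, wd (ch c) = v ++ [false, false, false] := by
  obtain ⟨c, rfl⟩ : ∃ c', c = c' + 3 := ⟨c - 3, by omega⟩
  refine ⟨List.replicate (c + 3) true ++ List.replicate c false, ?_⟩
  rw [wd_ch, List.append_assoc]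
  congr 1
  rw [show c + 3 = c + 1 + 1 + 1 from rfl, List.replicate_succ', List.replicate_succ', List.replicate_succ']
  simp

/-- **K'**: no condition -/
theorem TyA.inner_K' {S : BinaryTree Unit} (h : TyA F g) (h' : TyK' S F' g') {a : X k × X k} (ha : a ∈ g.arcs) :
    ∀ w ∈ innA a, w ∉ g'.B := by
  intro w hw hw'
  refine h.inner_of ha ?_ hw
  rcases IsTri.words h' w hw' with e | ⟨_, e | e⟩
  · left
    exact ⟨wd (S △ .nil), by rw [e]; simp [w1, app, wd]⟩
  · right; right; left
    exact ⟨wd S ++ [true, false], by rw [e, w1, wd_app]; simp [app, wd_node, wd]⟩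
  · right; left
    exact ⟨false :: wd S, by rw [e]; simp [w1, app, wd_node, wd]⟩

/-- **A - K'**, words -/
theorem TyA.disj_K' {S : BinaryTree Unit} (h : TyA F g) (h' : TyK' S F' g') (hS : UM S) : ∀ w ∈ g.B, w ∉ g'.B :=
  h.disj_tri h' (um_ch 1) hS um_nil

/-- **Cr**, `c ≥ 3` -/
theorem TyA.inner_Cr {S0 : BinaryTree Unit} {c m : ℕ} (h : TyA F g) (h' : TyC c (app S0 (lp m)) F' g')
    (h0 : hv S0) (h1 : S0 ≠ .nil) (hc : 3 ≤ c) {a : X k × X k} (ha : a ∈ g.arcs) :
    ∀ w ∈ innA a, w ∉ g'.B := by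
  intro w hw hw'
  have hn : nd w.1 := TyC.nd h' h0 h1 w hw'
  refine h.inner_of ha ?_ hw
  rcases IsTri.words h' w hw' with e | ⟨_, e | e⟩
  · right; right; right
    refine ⟨hn, Or.inl ?_⟩
    obtain ⟨v, hv⟩ := end_ch hc
    exact ⟨true :: (wd (app S0 (lp m)) ++ false :: v), by
      rw [e]; change wd (app S0 (lp m) △ ch c) = _; rw [wd_node, hv]; simp⟩
  · right; right; right
    refine ⟨hn, Or.inl ?_⟩
    obtain ⟨v, hv⟩ := end_ch (c := c + 1) (by omega)
    exact ⟨wd (app S0 (lp m)) ++ v, by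
      rw [e]; change wd (app (app S0 (lp m)) (ch (c + 1))) = _; rw [wd_app, hv]; simp⟩
  · rcases end_S h0 h1 m with ⟨v, hv⟩ | ⟨v, hv⟩
    · right; right; left
      exact ⟨wd (ch c) ++ true :: false :: v, by
        rw [e]; change wd (app (ch c) (.nil △ app S0 (lp m))) = _; rw [wd_app, wd_node, hv]; simp [wd]⟩
    · right; right; right
      refine ⟨hn, Or.inl ?_⟩
      exact ⟨wd (ch c) ++ true :: false :: v, by
        rw [e]; change wd (app (ch c) (.nil △ app S0 (lp m))) = _; rw [wd_app, wd_node, hv]; simp [wd]⟩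

/-- **Cl**, `c ≥ 2` -/
theorem TyA.inner_Cl {S0 : BinaryTree Unit} {c m : ℕ} (h : TyA F g) (h' : TyC' c (app S0 (lp m)) F' g')
    (h0 : hv S0) (h1 : S0 ≠ .nil) (hc : 2 ≤ c) (hc3 : c ≠ 3) (hR : c + 1 ≤ OddHC.ht (app S0 (lp m)))
    {a : X k × X k} (ha : a ∈ g.arcs) : ∀ w ∈ innA a, w ∉ g'.B := by
  intro w hw hw'
  have hn : nd w.1 := TyC'.nd h' h0 h1 w hw'
  refine h.inner_of ha ?_ hw
  rcases IsTri.words h' w hw' with e | ⟨_, e | e⟩
  · -- host `[c](S)`
    rcases Nat.eq_or_lt_of_le hc with rfl | hc'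
    · right; left
      exact ⟨wd (ch 1) ++ wd ((app S0 (lp m)) △ .nil) |>.drop 1, by
        rw [e]; simp [w1, app, ch, wd_node, wd]⟩
    · right; right; right
      refine ⟨hn, Or.inr (Or.inr ?_)⟩
      rw [e]
      change 6 ≤ OddHC.ht (app (ch c) (app S0 (lp m) △ .nil))
      rw [ht_app, ht_node]
      omega
  · right; right; right
    refine ⟨hn, ?_⟩
    rcases Nat.eq_or_lt_of_le hc with rfl | hc'
    · right; left
      exact ⟨wd (app S0 (lp m)), by
        rw [e]; change wd (app (app S0 (lp m)) (.nil △ ch 2)) = _; rw [wd_app]; simp [ch, wd_node, wd]⟩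
    · left
      obtain ⟨v, hv⟩ := end_ch (c := c) (by omega)
      exact ⟨wd (app S0 (lp m)) ++ true :: false :: v, by
        rw [e]; change wd (app (app S0 (lp m)) (.nil △ ch c)) = _; rw [wd_app, wd_node, hv]; simp [wd]⟩
  · rcases end_S h0 h1 m with ⟨v, hv⟩ | ⟨v, hv⟩
    · right; right; left
      exact ⟨wd (ch (c + 1)) ++ v, by
        rw [e]; change wd (app (ch (c + 1)) (app S0 (lp m))) = _; rw [wd_app, hv]; simp⟩
    · right; right; right
      refine ⟨hn, Or.inl ?_⟩
      exact ⟨wd (ch (c + 1)) ++ v, by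
        rw [e]; change wd (app (ch (c + 1)) (app S0 (lp m))) = _; rw [wd_app, hv]; simp⟩

/-- **K**, at least one bead -/
theorem TyA.inner_K1 {S0 : BinaryTree Unit} {m : ℕ} (h : TyA F g) (h' : TyK (app S0 (lp (m + 1))) F' g')
    (h0 : hv S0) (h1 : S0 ≠ .nil) {a : X k × X k} (ha : a ∈ g.arcs) : ∀ w ∈ innA a, w ∉ g'.B := by
  intro w hw hw'
  have hn : nd w.1 := TyK.nd h' h0 h1 w hw'
  refine h.inner_of ha ?_ hw
  obtain ⟨v, hv⟩ := end_tf S0 m
  rcases IsTri.words h' w hw' with e | ⟨_, e | e⟩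
  · right; right; left
    exact ⟨true :: (wd (app S0 (lp (m + 1))) ++ [false]), by
      rw [e]; change wd (app S0 (lp (m + 1)) △ (.nil △ .nil)) = _; rw [wd_node]; simp [wd]⟩
  · right; right; right
    refine ⟨hn, Or.inr (Or.inl ?_)⟩
    exact ⟨v, by
      rw [e]; change wd (app (app S0 (lp (m + 1))) ((.nil △ .nil) △ .nil)) = _; rw [wd_app, hv]; simp [wd]⟩
  · right; right; left
    exact ⟨true :: false :: true :: false :: v, by
      rw [e]; change wd (app (.nil △ .nil) (.nil △ app S0 (lp (m + 1)))) = _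
      rw [wd_app, wd_node, wd_node, hv]; simp [wd]⟩

end Pool.OddHC
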