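import Pool.Agent.Work.MP_8f87b2_mid.DisC
import Pool.Agent.Work.MP_8f87b2_h27.Inn4

/-!
MP_8f87b2_co: the mirrored `K`-link (host `()(S)`, new words `S()()`, `(())S`) against the plain types `En`, `L`, `Cr`, `Cl`,
itself, and against the windows.
-/

set_option autoImplicit false

namespace Pool.OddHC

open Finset Equiv BinaryTree Pool.Agent.Work.MP_8f87b2_co

variable {k : ℕ} {F F' : Set (Cyc k)} {g g' : DG k}

/-- TYPE K' with `S` not light and not prime -/
def TyKm (F : Set (Cyc k)) (g : DG k) : Prop :=
  ∃ S : BinaryTree Unit, 2 ≤ ht S ∧ (∀ A, S ≠ A △ .nil) ∧ TyK' S F g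

theorem dj_KmKm : Dj (k := k) TyKm TyKm := by
  intro F g F' g' h h' hd
  obtain ⟨S, hS, hS1, ht⟩ := h
  obtain ⟨S', hS', hS1', ht'⟩ := h'
  have key : ∀ S S' : BinaryTree Unit, 2 ≤ OddHC.ht S → 2 ≤ OddHC.ht S' →
      w1 (.nil △ .nil) S .nil ≠ w1 S' .nil (.nil △ .nil) ∧
      w1 (.nil △ .nil) S .nil ≠ w1 .nil (.nil △ .nil) S' := by
    intro S S' hS hS'
    constructor
    · intro e
      have e1 := congrArg (fun t => (comps t).reverse) e
      simp only [comps_w1, comps, List.reverse_append, List.reverse_cons,
        List.reverse_nil, List.nil_append, List.cons_append, List.cons.injEq] at e1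
      exact ht2_ne hS e1.1
    · intro e
      have e1 := congrArg comps e
      simp only [comps_w1, comps, List.nil_append, List.cons_append, List.cons.injEq] at e1
      exact lf_ne e1.1.symm
  refine tri_dis ht ht' hd ?_ (key S S' hS hS').1 (key S S' hS hS').2 (key S' S hS' hS).1
    (key S' S hS' hS).2
  intro e
  have e1 := congrArg comps e
  simp only [comps_w1, comps, List.nil_append, List.cons_append, List.cons.injEq] at e1
  exact ⟨rfl, e1.2.1, rfl⟩

/-- CONFLICT E-K': `X = (S)` -/
theorem conflict_EKm {X S : BinaryTree Unit} (ht : IsTri .nil X .nil F g)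
    (ht' : IsTri (.nil △ .nil) S .nil F' g') (hS : 2 ≤ OddHC.ht S) (hd : ∀ c ∈ F, c ∉ F')
    (hr : X ≠ S △ .nil) : ∀ w ∈ g.B, w ∉ g'.B := by
  refine tri_dis ht ht' hd ?_ ?_ ?_ ?_ ?_
  · intro e
    exact absurd e (one_ne_two (Or.inl lf_ne))
  · exact one_ne_two (Or.inl (ht2_ne hS))
  · exact one_ne_two (Or.inr (ht2_ne hS))
  · intro e
    have e1 := congrArg (fun t => (comps t).reverse) e
    simp only [comps_w1, comps, List.reverse_append, List.reverse_cons,
      List.reverse_nil, List.nil_append, List.singleton_append, List.cons_append, List.cons.injEq] at e1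
    exact ht2_ne hS e1.1
  · intro e
    apply hr
    apply comps_inj
    have e1 := congrArg comps e
    simp only [comps_w1, comps, List.nil_append, List.cons_append, List.cons.injEq, true_and] at e1
    rw [← e1]
    rfl

theorem dj_EnKm : Dj (k := k) TyEn TyKm := by
  intro F g F' g' h h' hd
  obtain ⟨j, r, f, hj, hl, hn, ht⟩ := h
  obtain ⟨S, hS, hS1, ht'⟩ := h'
  refine conflict_EKm ht ht' hS hd ?_
  intro e0
  have hSn := ht2_ne hS
  have h1 : S = ins (red S).1 (red S).2 := (ins_red S).symm
  by_cases h2 : (red S).1 = .nil
  · rw [h2] at h1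
    have h3 : OddHC.ht S ≤ 1 := by
      rw [h1, ins]
      exact ht_lp _
    omega
  · have h4 : w1 (lp 0) (ins (red S).1 (red S).2) (lp 0) = ins r.1 (lf f) := by
      rw [ins_red, e0]
      rfl
    exact hn _ (red_prime h2 (red_len S) 0 0 (by rw [lf_length, X_num]) h4)

theorem dj_LKm : Dj (k := k) TyL TyKm := by
  intro F g F' g' h h' hd
  obtain ⟨R', e, h1, h2, h3, h4, ht⟩ := h
  obtain ⟨S, hS, hS1, ht'⟩ := h'
  have hR : 2 ≤ OddHC.ht (ins R' e) := ht_ins_ge R' e h1
  have hRn := ht2_ne hR
  have hSn := ht2_ne hS
  have hlp : comps (lp 1) = [.nil] := rfl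
  refine tri_dis ht ht' hd ?_ ?_ ?_ ?_ ?_
  · -- `()(R)() = ()(S)`
    intro e0
    have e1 := congrArg (fun t => (comps t).length) e0
    simp only [comps_w1, hlp, comps, List.nil_append, List.length_append, List.length_cons,
      List.length_nil] at e1
    omega
  · -- `()(R)() = S()()`
    intro e0
    have e1 := congrArg (fun t => (comps t).reverse) e0
    simp only [comps_w1, hlp, comps, List.nil_append, List.reverse_append, List.reverse_cons,
      List.reverse_nil, List.singleton_append, List.cons_append, List.cons.injEq, true_and] at e1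
    exact hRn e1.1
  · -- `()(R)() = (())S`
    intro e0
    have e1 := congrArg comps e0
    simp only [comps_w1, hlp, comps, List.nil_append, List.cons_append, List.cons.injEq] at e1
    exact lf_ne e1.1.symm
  · -- `()(S) = R(())()`
    intro e0
    have e1 := congrArg (fun t => (comps t).reverse) e0
    simp only [comps_w1, hlp, comps, List.nil_append, List.reverse_append, List.reverse_cons,
      List.reverse_nil, List.singleton_append, List.cons_append, List.cons.injEq] at e1
    exact hSn e1.1
  · -- `()(S) = ()(())R`
    intro e0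
    have e1 := congrArg (fun t => (comps t).length) e0
    have h5 := List.length_pos_iff.2 (comps_ne hRn)
    simp only [comps_w1, hlp, comps, List.nil_append, List.length_append, List.length_cons,
      List.length_nil] at e1
    omega

theorem dj_KmCr : Dj (k := k) TyKm TyCr := by
  intro F g F' g' h h' hd
  obtain ⟨S, hS, hS1, ht⟩ := h
  obtain ⟨c, R, hc, hR, ho, ht'⟩ := h'
  have hRn := ht_ge_ne hR
  have hSn := ht2_ne hS
  have hc1 := comps_ch' (show 1 ≤ c by omega)
  refine tri_dis ht ht' hd ?_ ?_ ?_ ?_ ?_
  · -- `()(S) = (R)[c]`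
    intro e
    have e1 := congrArg comps e
    simp only [comps_w1, comps, List.nil_append, List.cons_append, List.cons.injEq] at e1
    exact absurd e1.1.symm hRn
  · -- `()(S) = R[c+1]`
    intro e
    have e1 := congrArg comps e
    have e3 : BinaryTree.nil :: [S] = comps R ++ [H1.ch c] := by
      simpa only [comps_w1, comps, List.nil_append, List.cons_append] using e1
    have e4 : comps R = [.nil] := by
      have := congrArg List.length e3
      have h6 : (comps R).length = 1 := by
        simp only [List.length_cons, List.length_nil, List.length_append] at this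
        omega
      obtain ⟨x, hx⟩ := List.length_eq_one_iff.1 h6
      rw [hx, List.cons_append, List.cons.injEq] at e3
      rw [hx, ← e3.1]
    have e5 : R = .nil △ .nil := comps_inj (e4.trans rfl)
    rw [e5] at hR
    change c + 1 ≤ 1 at hR
    omega
  · -- `()(S) = [c]()R`
    intro e
    have e1 := congrArg comps e
    simp only [comps_w1, hc1, comps, List.nil_append, List.cons_append, List.cons.injEq] at e1
    exact ch_ne2 hc e1.1.symm
  · -- `(R)[c] = S()()`
    intro e
    have e1 := rev_inj (congrArg comps e)
    simp only [comps_w1, hc1, comps, List.nil_append, List.reverse_append, List.reverse_cons,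
      List.reverse_nil, List.singleton_append, List.cons_append, List.cons.injEq] at e1
    exact ch_ne2 hc e1.1
  · -- `(R)[c] = (())S`
    intro e
    have e1 := congrArg comps e
    simp only [comps_w1, comps, List.nil_append, List.cons.injEq] at e1
    rw [e1.1] at hR
    change c + 1 ≤ 1 at hR
    omega

theorem dj_KmCl : Dj (k := k) TyKm TyCl := by
  intro F g F' g' h h' hd
  obtain ⟨S, hS, hS1, ht⟩ := h
  obtain ⟨c, R, hc, hR, ho, ht'⟩ := h'
  have hRn := ht_ge_ne hR
  have hSn := ht2_ne hS
  have hc1 := comps_ch' (show 1 ≤ c by omega)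
  refine tri_dis ht ht' hd ?_ ?_ ?_ ?_ ?_
  · -- `()(S) = [c](R)`
    intro e
    have e1 := congrArg comps e
    simp only [comps_w1, hc1, comps, List.nil_append, List.cons_append, List.cons.injEq] at e1
    exact absurd e1.1.symm (ch_ne2 hc)
  · -- `()(S) = R()[c]`
    intro e
    have e1 := congrArg (fun t => (comps t).length) e
    have h5 := List.length_pos_iff.2 (comps_ne hRn)
    simp only [comps_w1, hc1, comps, List.nil_append, List.cons_append, List.length_cons,
      List.length_nil, List.length_append] at e1
    omega
  · -- `()(S) = [c+1]R`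
    intro e
    have e1 := congrArg comps e
    simp only [comps_w1, comps, List.nil_append, List.cons_append, List.cons.injEq] at e1
    exact ch_ne (show 1 ≤ c by omega) e1.1.symm
  · -- `[c](R) = S()()`
    intro e
    have e1 := rev_inj (congrArg comps e)
    simp only [comps_w1, hc1, comps, List.nil_append, List.reverse_append, List.reverse_cons,
      List.reverse_nil, List.singleton_append, List.cons_append, List.cons.injEq] at e1
    exact hRn e1.1
  · -- `[c](R) = (())S` : `c = 2`, `S = (R)`
    intro e
    have e1 := congrArg comps e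
    simp only [comps_w1, hc1, comps, List.nil_append, List.cons_append, List.cons.injEq] at e1
    exact hS1 R (comps_inj (e1.2.symm.trans rfl))

end Pool.OddHC
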