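import Pool.Agent.Work.MP_8f87b2_h27.Inn4

/-!
MP_8f87b2_co: the links of section 5 (helper20's list, lights at the end of `S`) against the windows `A`: words (`UM`) and inner
words (`Safe`).
`tri(P,Q,R)` = host `P(Q)R`, new words `Q(R)P`, `R(P)Q`.
-/

set_option autoImplicit false

namespace Pool.OddHC

open BinaryTree Equiv

namespace H1

/-! ### Light words, the two forms of `S` -/

theorem am_bl {L : BinaryTree Unit} : bl L = true → am L = false := by
  induction L with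
  | nil => intro _; rfl
  | node _ A X _ ih =>
    intro h
    rw [bl, Bool.and_eq_true] at h
    change am (A △ X) = false
    rw [am_node, ih h.2, Bool.or_false]
    rcases light_cases h.1 with rfl | rfl <;> rfl

theorem fl_bl {L : BinaryTree Unit} : bl L = true → fl L := by
  induction L with
  | nil => intro _; trivial
  | node _ A X _ ih =>
    intro h
    rw [bl, Bool.and_eq_true] at h
    rcases light_cases h.1 with rfl | rfl
    · exact ⟨⟨0, rfl⟩, ih h.2⟩
    · exact ⟨⟨1, rfl⟩, ih h.2⟩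

/-- `[n] L`, `L` light, `3 ≤ n` -/
theorem um_S1 {n : ℕ} {L : BinaryTree Unit} (hn : 3 ≤ n) (h : bl L = true) : UM (app (ch n) L) := by
  obtain ⟨n, rfl⟩ : ∃ n', n = n' + 3 := ⟨n - 3, by omega⟩
  change (H1.PB (app (ch (n + 3)) L) || H1.am (app (ch (n + 3)) L)) = false
  rw [am_app, am_bl h, Bool.or_false]
  have h1 : am (ch (n + 3)) = false := (um_ch (n + 3)).am
  rw [h1, Bool.or_false]
  rfl

theorem vl_S1 {n : ℕ} {L : BinaryTree Unit} (h : bl L = true) : vl 0 (app (ch n) L) :=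
  vl_fl (fl_app (fl_ch n) (fl_bl h))

/-- `([n] L') L`, `L`, `L'` light, `3 ≤ n` -/
theorem um_S2 {n : ℕ} {L L' : BinaryTree Unit} (hn : 3 ≤ n) (h : bl L = true) (h' : bl L' = true) :
    UM (app (ch n) L' △ L) := by
  have h1 : H1.mk (app (ch n) L') = false := um_S1 hn h'
  obtain ⟨n, rfl⟩ : ∃ n', n = n' + 3 := ⟨n - 3, by omega⟩
  change (H1.PB (app (ch (n + 3)) L' △ L) || H1.am (app (ch (n + 3)) L' △ L)) = false
  rw [am_node, h1, am_bl h, Bool.or_false, Bool.or_false]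
  rfl

theorem vl_S2 {n : ℕ} {L L' : BinaryTree Unit} (h : bl L = true) (h' : bl L' = true) :
    vl 1 (app (ch n) L' △ L) :=
  vl_node (vl_S1 h') (vl_mono (vl_fl (fl_bl h)) (by omega))

/-- concatenations of tall unmarked words -/
theorem um_tall {A B : BinaryTree Unit} (hA : UM A) (hB : am B = false) (hl : ∀ X Y, A ≠ X △ Y ∨ light X = false)
    (h0 : A ≠ .nil) : UM (app A B) := by
  cases A with
  | nil => exact absurd rfl h0
  | node u X Y =>
    have h1 : light X = false := by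
      rcases hl X Y with h | h
      · exact absurd rfl h
      · exact h
    change (H1.PB (app (X △ Y) B) || H1.am (app (X △ Y) B)) = false
    rw [am_app, hB, Bool.or_false, hA.am, Bool.or_false]
    change (light X && _) = false
    rw [h1]; rfl

/-- `[n] B`, `3 ≤ n`, `B` without marked component -/
theorem um_chB {n : ℕ} {B : BinaryTree Unit} (hn : 3 ≤ n) (hB : am B = false) : UM (app (ch n) B) := by
  obtain ⟨n, rfl⟩ : ∃ n', n = n' + 3 := ⟨n - 3, by omega⟩
  change (H1.PB (app (ch (n + 3)) B) || H1.am (app (ch (n + 3)) B)) = false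
  have h1 : am (ch (n + 3)) = false := (um_ch (n + 3)).am
  rw [am_app, hB, h1]
  rfl

/-- `([b] o) L` has no marked component (`b` arbitrary), `L` light -/
theorem am_bo {b : ℕ} {L : BinaryTree Unit} (h : bl L = true) : am (app (ch b) (.nil △ .nil) △ L) = false := by
  rw [am_node, am_bl h, Bool.or_false]
  have key : ∀ b : ℕ, H1.mk (app (ch b) (.nil △ .nil)) = false := by
    intro b
    match b with
    | 0 => rfl
    | 1 => rfl
    | 2 => rfl
    | b + 3 => exact um_S1 (n := b + 3) (L := .nil △ .nil) (by omega) rfl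
  exact key b

/-! ### Safe words -/

/-- a word which is not an inner word of a window -/
def Safe (t : BinaryTree Unit) : Prop :=
  (∃ v, wd t = true :: false :: v) ∨ (∃ v, wd t = true :: true :: false :: v) ∨
    (∃ v, wd t = v ++ [true, false]) ∨ vl 1 t ∨ (nd t ∧ ∃ v, wd t = v ++ [false, false, false])

theorem safe_o (t : BinaryTree Unit) : Safe (.nil △ t) :=
  Or.inl ⟨wd t, by rw [wd_node]; simp [wd]⟩

theorem safe_oo (t X : BinaryTree Unit) : Safe ((.nil △ X) △ t) :=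
  Or.inr (Or.inl ⟨wd X ++ false :: wd t, by rw [wd_node, wd_node]; simp [wd]⟩)

theorem safe_end (t : BinaryTree Unit) : Safe (app t (.nil △ .nil)) :=
  Or.inr (Or.inr (Or.inl ⟨wd t, by rw [wd_app, wd_node]; simp [wd]⟩))

theorem safe_vl {t : BinaryTree Unit} (h : vl 1 t) : Safe t := Or.inr (Or.inr (Or.inr (Or.inl h)))

theorem safe_end' {t X : BinaryTree Unit} (h : t = app X (.nil △ .nil)) : Safe t := h ▸ safe_end X

end H1

variable {k : ℕ} {P Q R : BinaryTree Unit} {F F' : Set (Cyc k)} {g g' : DG k}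

open H1

/-- **inner words of a window against a plain triple with safe words** -/
theorem TyA.inner_safe (h : TyA F g) (h' : IsTri P Q R F' g') (hd : ∀ c ∈ F, c ∉ F')
    (hh : ∀ c ∈ F, ∀ d ∈ F', htc c ≤ htc d) (s1 : Safe (w1 P Q R)) (s2 : Safe (w1 Q R P)) (s3 : Safe (w1 R P Q))
    {a : X k × X k} (ha : a ∈ g.arcs) : ∀ w ∈ innA a, w ∉ g'.B := by
  intro w hw hw'
  have hs : Safe w.1 := by
    rcases h'.words w hw' with e | ⟨_, e | e⟩
    · rw [e]; exact s1
    · rw [e]; exact s2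
    · rw [e]; exact s3
  have hcase : vl 1 w.1 ∨ ((∃ v, wd w.1 = true :: false :: v) ∨ (∃ v, wd w.1 = true :: true :: false :: v) ∨
      (∃ v, wd w.1 = v ++ [true, false]) ∨
      (nd w.1 ∧ ((∃ v, wd w.1 = v ++ [false, false, false]) ∨
        (∃ v, wd w.1 = v ++ [true, false, true, true, false, false]) ∨ 6 ≤ OddHC.ht w.1))) := by
    rcases hs with h1 | h1 | h1 | h1 | ⟨h1, h2⟩
    · exact Or.inr (Or.inl h1)
    · exact Or.inr (Or.inr (Or.inl h1))
    · exact Or.inr (Or.inr (Or.inr (Or.inl h1)))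
    · exact Or.inl h1
    · exact Or.inr (Or.inr (Or.inr (Or.inr ⟨h1, Or.inl h2⟩)))
  rcases hcase with hv | hc
  · obtain ⟨q, B1, H, s, B, w0, hG, rfl, rfl⟩ := h
    obtain ⟨i, hi, e⟩ := arcs_cases ha
    rw [e] at hw
    have e1 : w = TT (gX q B1 H s B w0 i) := hw
    by_cases h0 : i = 0
    · subst h0
      have e2 : cyc w = cyc (gX q B1 H s B w0 0) := by rw [e1]; exact cyc_eq.2 ⟨-1, by simp⟩
      rcases h'.rank _ hw' with h2 | h2
      · rw [e2] at h2
        exact hd _ rfl h2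
      · obtain ⟨x, _, c, _, _, _, _, _, _, rfl, _⟩ := h'
        have h3 := h2 (cyc c) (Or.inr rfl)
        have h4 := hh _ rfl (cyc c) (Or.inr rfl)
        rw [e2] at h3
        omega
    · have hi' : i ∈ [1, 3, 6, 8, 9] := by
        simp only [List.mem_cons, List.not_mem_nil, or_false] at hi ⊢
        omega
      rw [e1] at hv
      exact hG.inner_vl w0 hi' hv
  · exact h.inner_of ha hc hw

/-! ### The triples of section 5 -/

theorem w1_nil (Q R : BinaryTree Unit) : w1 .nil Q R = Q △ R := rfl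

/-- safe triples -/
def Safe3 (P Q R : BinaryTree Unit) : Prop := Safe (w1 P Q R) ∧ Safe (w1 Q R P) ∧ Safe (w1 R P Q)

theorem TyA.inner_safe3 (h : TyA F g) (h' : IsTri P Q R F' g') (hs : Safe3 P Q R) (hd : ∀ c ∈ F, c ∉ F')
    (hh : ∀ c ∈ F, ∀ d ∈ F', htc c ≤ htc d) {a : X k × X k} (ha : a ∈ g.arcs) : ∀ w ∈ innA a, w ∉ g'.B :=
  h.inner_safe h' hd hh hs.1 hs.2.1 hs.2.2 ha

/-- flat parts -/
theorem safe3_flat (hP : vl 0 P) (hQ : vl 0 Q) (hR : vl 0 R) : Safe3 P Q R :=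
  ⟨safe_vl (vl_w1 hP hQ hR), safe_vl (vl_w1 hQ hR hP), safe_vl (vl_w1 hR hP hQ)⟩

/-- `K'(S)` = tri(o,S,e) -/
theorem safe3_K' (S : BinaryTree Unit) : Safe3 (.nil △ .nil) S .nil := by
  refine ⟨safe_o _, ?_, ?_⟩
  · refine safe_end' (X := app S (.nil △ .nil)) ?_
    rw [app_assoc]; rfl
  · exact safe_oo S .nil

/-- `K(S)` = tri(e,S,o), `S(())` with valleys of height at most 1 -/
theorem safe3_K {S : BinaryTree Unit} (h : vl 1 S) : Safe3 .nil S (.nil △ .nil) := by
  refine ⟨?_, safe_vl ?_, safe_o _⟩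
  · exact safe_end' (X := S △ .nil) rfl
  · exact vl_app h (vl_mono (vl_ch 2) (by omega))

/-- `K22(S)` = tri(o,S,(())) -/
theorem safe3_K22 (S : BinaryTree Unit) : Safe3 (.nil △ .nil) S ((.nil △ .nil) △ .nil) := by
  refine ⟨safe_o _, ?_, ?_⟩
  · refine safe_end' (X := app S (((.nil △ .nil) △ .nil) △ .nil)) ?_
    rw [app_assoc]; rfl
  · exact safe_oo _ .nil

/-- `K1c(S,c+1)` = tri(o,S,[c]) -/
theorem safe3_K1c {S : BinaryTree Unit} {c : ℕ} (h : vl 1 S) : Safe3 (.nil △ .nil) S (ch c) := by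
  refine ⟨safe_o _, ?_, safe_vl ?_⟩
  · refine safe_end' (X := app S (ch c △ .nil)) ?_
    rw [app_assoc]; rfl
  · exact vl_app (vl_mono (vl_ch c) (by omega)) (vl_node (vl_ch 1) h)

/-- `Cl(S,3)` = tri([2],S,e) -/
theorem safe3_Cl {S : BinaryTree Unit} (h : vl 1 S) : Safe3 (ch 2) S .nil := by
  refine ⟨safe_oo _ .nil, safe_vl ?_, safe_vl ?_⟩
  · exact vl_app h (vl_node (vl_nil 0) (vl_mono (vl_ch 2) (by omega)))
  · exact vl_app (P := .nil) (vl_nil 1) (vl_node (vl_ch 2) h)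

/-- `(([n]o)o)[3]` -/
theorem nd_b4 {n : ℕ} (hn : 3 ≤ n) : nd ((app (ch n) (.nil △ .nil) △ (.nil △ .nil)) △ ch 3) := by
  obtain ⟨n, rfl⟩ : ∃ n', n = n' + 3 := ⟨n - 3, by omega⟩
  intro σ hσ
  have h1 : run (stp (stp σ true) true) (wd (ch (n + 3))) = .zz :=
    run_hv (hv_ch n) (by change ch (n + 2) △ .nil ≠ .nil; simp) _ (stp_true (stp_true hσ))
  rw [run_node, run_node, wd_app, run_append, h1]
  decide

/-- `Cr(([n]o)o,4)` = tri(e,([n]o)o,[3]), `3 ≤ n` -/
theorem safe3_b4 {n : ℕ} (hn : 3 ≤ n) :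
    Safe3 .nil (app (ch n) (.nil △ .nil) △ (.nil △ .nil)) (ch 3) := by
  have hS : vl 1 (app (ch n) (.nil △ .nil) △ (.nil △ .nil)) :=
    vl_S2 (L := .nil △ .nil) (L' := .nil △ .nil) rfl rfl
  refine ⟨Or.inr (Or.inr (Or.inr (Or.inr ⟨nd_b4 hn, ?_⟩))), safe_vl ?_, safe_vl ?_⟩
  · obtain ⟨v, hv⟩ := end_ch (c := 3) le_rfl
    exact ⟨true :: (wd (app (ch n) (.nil △ .nil) △ (.nil △ .nil)) ++ false :: v), by
      change wd ((app (ch n) (.nil △ .nil) △ (.nil △ .nil)) △ ch 3) = _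
      rw [wd_node, hv]; simp⟩
  · exact vl_app hS (vl_mono (vl_ch 4) (by omega))
  · exact vl_app (vl_mono (vl_ch 3) (by omega)) (vl_node (vl_ch 0) hS)

/-- `LONG` = tri(o^t,[s],e), `1 ≤ t` -/
theorem safe3_long (t s : ℕ) : Safe3 (lp t) (ch s) .nil :=
  safe3_flat (vl_fl (fl_lp t)) (vl_ch s) (vl_nil 0)

/-- tri(oo,Q,e), any `Q` -/
theorem safe3_ooQ (Q : BinaryTree Unit) : Safe3 (lp 2) Q .nil := by
  refine ⟨safe_o _, ?_, ?_⟩
  · refine safe_end' (X := app Q (.nil △ (.nil △ .nil))) ?_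
    rw [app_assoc]; rfl
  · exact safe_oo (app .nil Q) (.nil △ .nil)

/-- tri(e,Q,oo), valleys of `Q` of height at most 1 -/
theorem safe3_Qoo {Q : BinaryTree Unit} (h : vl 1 Q) : Safe3 .nil Q (lp 2) := by
  refine ⟨?_, safe_vl ?_, safe_o _⟩
  · exact safe_end' (X := Q △ (.nil △ .nil)) rfl
  · exact vl_app h (vl_node (vl_fl (fl_lp 2)) (vl_nil 1))

/-- the mirror image of `LONG` = tri(e,[s],o^t) -/
theorem safe3_long' (t s : ℕ) : Safe3 .nil (ch s) (lp t) :=
  safe3_flat (vl_nil 0) (vl_ch s) (vl_fl (fl_lp t))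

end Pool.OddHC
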