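import Pool.Agent.Work.MP_8f87b2_h27.DisKm
import Pool.Agent.Work.MP_8f87b2_h27.S5A
import Pool.Agent.Work.MP_8f87b2_h20.S5Ty

/-!
MP_8f87b2_co: the special links of section 5 (helper20's list, version 5): `LONG` = tri(o^n,[s],e), its mirror image
tri(e,[s],o^n), `K1c` = tri(o,[s],[s-1]), `K22` = tri(o,[s]o^n,(())), against the plain types (`Es` = E over a reduced word with a
part 1 or 2, `L`, `K`, `K'`, `Cr`, `Cl`) and against each other.
-/

set_option autoImplicit false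

namespace Pool.OddHC

open Finset Equiv BinaryTree Pool.Agent.Work.MP_8f87b2_co

variable {k : ℕ} {F F' : Set (Cyc k)} {g g' : DG k}

/-- TYPE Es: an E-triple over a low word which has a part 1 or 2 -/
def TyEs (F : Set (Cyc k)) (g : DG k) : Prop :=
  ∃ (j : ℕ) (r : X j) (f : ZMod (2 * j + 1) → ℕ), 1 ≤ j ∧ Low r.1 ∧
    (1 ≤ (cont r.1).count 1 ∨ 1 ≤ (cont r.1).count 2) ∧ IsTri .nil (ins r.1 (lf f)) .nil F g

theorem TyEs.toE (h : TyEs F g) : TyE F g := by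
  obtain ⟨j, r, f, h1, h2, _, h3⟩ := h
  exact ⟨j, r, f, h1, h2, h3⟩

/-- the first component of `X` which is not `()` is `(())` or `((..))` -/
theorem TyEs.fh (h : TyEs F g) : ∃ X : BinaryTree Unit, X ≠ .nil ∧ IsTri .nil X .nil F g ∧ H1.fh X ≤ 2 ∧ H1.fh X ≠ 0 := by
  obtain ⟨j, r, f, hj, hr, hc, ht⟩ := h
  have hl : (lf f).length = 2 * r.1.numNodes + 1 := by rw [lf_length, X_num]
  refine ⟨ins r.1 (lf f), ?_, ht, ?_, ?_⟩
  · intro e
    apply ht.new_ne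
    rw [e]
  all_goals
    obtain ⟨l1, l2⟩ := H1.low_fh hl hr
    have e2 : (cont (ins r.1 (lf f))).count 2 = (cont r.1).count 1 := H1.count_ins hl 0
    have e3 : (cont (ins r.1 (lf f))).count 3 = (cont r.1).count 2 := H1.count_ins hl 1
    rw [e2] at l1
    rw [e2, e3] at l2
    by_cases h1 : 1 ≤ (cont r.1).count 1
    · have := l1 h1; omega
    · have := l2 (by omega) (by omega); omega

/-- LONG -/
def TyLo (n s : ℕ) (F : Set (Cyc k)) (g : DG k) : Prop := IsTri (lp n) (H1.ch s) .nil F g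

/-- the mirror image of LONG -/
def TyLm (n s : ℕ) (F : Set (Cyc k)) (g : DG k) : Prop := IsTri .nil (H1.ch s) (lp n) F g

/-- K1c -/
def TyKc (s : ℕ) (F : Set (Cyc k)) (g : DG k) : Prop := IsTri (.nil △ .nil) (H1.ch s) (H1.ch (s - 1)) F g

/-- K22 -/
def TyK2 (n s : ℕ) (F : Set (Cyc k)) (g : DG k) : Prop :=
  IsTri (.nil △ .nil) (app (H1.ch s) (lp n)) ((.nil △ .nil) △ .nil) F g

/-! ### Different words -/

variable {t t' A A' : BinaryTree Unit} {x x' : List (BinaryTree Unit)}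

theorem ne_first (h : comps t = A :: x) (h' : comps t' = A' :: x') (hA : A ≠ A') : t ≠ t' := by
  rintro rfl
  rw [h, List.cons.injEq] at h'
  exact hA h'.1

theorem ne_last (h : comps t = x ++ [A]) (h' : comps t' = x' ++ [A']) (hA : A ≠ A') : t ≠ t' := by
  rintro rfl
  rw [h] at h'
  have := congrArg List.reverse h'
  simp only [List.reverse_append, List.reverse_cons, List.reverse_nil, List.nil_append, List.cons_append,
    List.cons.injEq] at this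
  exact hA this.1

theorem ne_last2 {B B' : BinaryTree Unit} (h : comps t = x ++ [A, B]) (h' : comps t' = x' ++ [A', B'])
    (hA : A ≠ A') : t ≠ t' := by
  rintro rfl
  rw [h] at h'
  have := congrArg List.reverse h'
  simp only [List.reverse_append, List.reverse_cons, List.reverse_nil, List.nil_append, List.cons_append,
    List.cons.injEq] at this
  exact hA this.2.1

theorem ne_len (h : (comps t).length ≠ (comps t').length) : t ≠ t' := by
  rintro rfl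
  exact h rfl

theorem ch_nn {n : ℕ} (h : 1 ≤ n) : H1.ch n ≠ .nil := ch_ne h

theorem ch_nn' {n : ℕ} (h : 1 ≤ n) : (BinaryTree.nil : BinaryTree Unit) ≠ H1.ch n := (ch_ne h).symm

theorem ch_inj_ne {n m : ℕ} (h : n ≠ m) : H1.ch n ≠ H1.ch m := fun e => h (H1.ch_inj e)

theorem lp_ne_nil {n : ℕ} (h : 1 ≤ n) : lp n ≠ .nil := by
  obtain ⟨n, rfl⟩ : ∃ n', n = n' + 1 := ⟨n - 1, by omega⟩
  change .nil △ lp n ≠ .nil
  simp

theorem lp_ne_ch {n m : ℕ} (h : 2 ≤ n) : lp n ≠ H1.ch m := by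
  intro e
  have e1 := congrArg (fun t => (comps t).length) e
  simp only [comps_lp, List.length_replicate] at e1
  rcases m with _ | m
  · change n = 0 at e1
    omega
  · rw [comps_ch] at e1
    simp at e1
    omega

/-! ### The components of the words of the special links -/

section

variable {n s : ℕ}

theorem c_lo0 : comps (w1 (lp n) (H1.ch s) .nil) = List.replicate n .nil ++ [H1.ch s] := by
  rw [comps_w1, comps_lp]; rfl

theorem c_lo0' (hn : 1 ≤ n) : comps (w1 (lp n) (H1.ch s) .nil) =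
    .nil :: (List.replicate (n - 1) .nil ++ [H1.ch s]) := by
  obtain ⟨n, rfl⟩ : ∃ n', n = n' + 1 := ⟨n - 1, by omega⟩
  rw [c_lo0, List.replicate_succ]; rfl

theorem c_lo1 : comps (w1 (H1.ch (s + 1)) .nil (lp n)) = H1.ch s :: List.replicate (n + 1) .nil := by
  rw [comps_w1, comps_lp, comps_ch, List.replicate_succ]; rfl

theorem c_lo2 : comps (w1 .nil (lp n) (H1.ch (s + 1))) = [lp n, H1.ch s] := by
  rw [comps_w1, comps_ch]; rfl

theorem c_lm0 : comps (w1 .nil (H1.ch s) (lp n)) = H1.ch s :: List.replicate n .nil := by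
  rw [comps_w1, comps_lp]; rfl

theorem c_lm1 : comps (w1 (H1.ch (s + 1)) (lp n) .nil) = [H1.ch s, lp n] := by
  rw [comps_w1, comps_ch]; rfl

theorem c_lm2 : comps (w1 (lp n) .nil (H1.ch (s + 1))) = List.replicate (n + 1) .nil ++ [H1.ch s] := by
  rw [comps_w1, comps_lp, comps_ch, List.replicate_succ']; simp

end

/-! ### Es against the links -/

theorem fh_w1_o {Q R : BinaryTree Unit} (h : Q ≠ .nil) {X : BinaryTree Unit}
    (e : w1 (.nil △ .nil) Q R = .nil △ X) : H1.fh X = OddHC.ht Q := by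
  have e1 : Q △ R = X := by
    have : w1 (.nil △ .nil) Q R = .nil △ (Q △ R) := rfl
    rw [this] at e
    exact (BinaryTree.node.injEq _ _ _ _ _ _ ▸ e).2.2
  rw [← e1, H1.fh_node h]

/-- E against a plain triple: only the host `P(Q)R` against `X()`, `()X` -/
theorem dj_E_core {X P Q R : BinaryTree Unit} (ht : IsTri .nil X .nil F g) (ht' : IsTri P Q R F' g')
    (hd : ∀ c ∈ F, c ∉ F') (h1 : P ≠ .nil ∨ R ≠ .nil) (h2 : Q ≠ .nil ∨ P ≠ .nil) (h3 : R ≠ .nil ∨ Q ≠ .nil)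
    (h4 : ∀ X, w1 P Q R ≠ w1 X .nil .nil ∨ 3 ≤ H1.fh X ∨ H1.fh X = 0)
    (h5 : ∀ X, w1 P Q R ≠ w1 .nil .nil X ∨ 3 ≤ H1.fh X ∨ H1.fh X = 0) (hX : H1.fh X ≤ 2) (hX0 : H1.fh X ≠ 0) :
    ∀ w ∈ g.B, w ∉ g'.B := by
  refine tri_dis ht ht' hd ?_ ?_ ?_ ?_ ?_
  · intro e; exact absurd e (one_ne_two h1)
  · exact one_ne_two h2
  · exact one_ne_two h3
  · rcases h4 X with h | h | h
    · exact h
    · omega
    · exact absurd h hX0
  · rcases h5 X with h | h | h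
    · exact h
    · omega
    · exact absurd h hX0

theorem comps_snoc (X : BinaryTree Unit) : comps (w1 X .nil .nil) = comps X ++ [.nil] := by
  rw [comps_w1]; rfl

theorem fh_lp (n : ℕ) (T : BinaryTree Unit) : H1.fh (app (lp n) T) = H1.fh T := by
  induction n with
  | zero => rfl
  | succ n ih => exact ih

theorem fh_comps {X A : BinaryTree Unit} {x : List (BinaryTree Unit)} (h : comps X = A :: x) (hA : A ≠ .nil) :
    H1.fh X = OddHC.ht A := by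
  cases X with
  | nil => cases h
  | node _ B Y =>
    have h' : B :: comps Y = A :: x := h
    rw [List.cons.injEq] at h'
    change H1.fh (B △ Y) = _
    rw [h'.1, H1.fh_node hA]

theorem dj_EsLo {n s : ℕ} (hn : 1 ≤ n) (hs : 3 ≤ s) (h : TyEs F g) (h' : TyLo n s F' g') (hd : ∀ c ∈ F, c ∉ F') :
    ∀ w ∈ g.B, w ∉ g'.B := by
  obtain ⟨X, hX, ht, hf, hf0⟩ := h.fh
  refine dj_E_core ht h' hd (Or.inl (lp_ne_nil hn)) (Or.inl (ch_nn (by omega))) (Or.inr (ch_nn (by omega)))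
    ?_ ?_ hf hf0
  · intro X
    left
    exact ne_last c_lo0 (comps_snoc X) (ch_nn (by omega))
  · intro X
    by_cases e : w1 (lp n) (H1.ch s) .nil = w1 .nil .nil X
    · right; left
      obtain ⟨n, rfl⟩ : ∃ n', n = n' + 1 := ⟨n - 1, by omega⟩
      have e1 : app (lp n) (H1.ch s △ .nil) = X := by
        have e2 : (BinaryTree.nil : BinaryTree Unit) △ app (lp n) (H1.ch s △ .nil) = .nil △ X := e
        injection e2
      rw [← e1, fh_lp, H1.fh_node (ch_nn (by omega)), H1.ch_ht]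
      exact hs
    · exact Or.inl e

theorem dj_EsLm {n s : ℕ} (hn : 1 ≤ n) (hs : 3 ≤ s) (h : TyEs F g) (h' : TyLm n s F' g') (hd : ∀ c ∈ F, c ∉ F') :
    ∀ w ∈ g.B, w ∉ g'.B := by
  obtain ⟨X, hX, ht, hf, hf0⟩ := h.fh
  refine dj_E_core ht h' hd (Or.inr (lp_ne_nil hn)) (Or.inl (ch_nn (by omega))) (Or.inr (ch_nn (by omega)))
    ?_ ?_ hf hf0
  · intro X
    by_cases e : w1 .nil (H1.ch s) (lp n) = w1 X .nil .nil
    · right; left
      have e1 := congrArg comps e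
      rw [c_lm0, comps_snoc] at e1
      obtain ⟨n, rfl⟩ : ∃ n', n = n' + 1 := ⟨n - 1, by omega⟩
      rw [List.replicate_succ', ← List.cons_append] at e1
      have e2 := List.append_cancel_right e1
      rw [fh_comps e2.symm (ch_nn (by omega)), H1.ch_ht]
      exact hs
    · exact Or.inl e
  · intro X
    left
    exact ne_first c_lm0 (comps_w1 _ _ _) (ch_nn (by omega))

/-- E against a triple tri(o,Q,R), `R` not ending with `()` -/
theorem dj_EsO {Q R A : BinaryTree Unit} {x : List (BinaryTree Unit)} (h : TyEs F g)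
    (h' : IsTri (.nil △ .nil) Q R F' g') (hQ : 3 ≤ OddHC.ht Q) (hR : comps (Q △ R) = x ++ [A]) (hA : A ≠ .nil)
    (hd : ∀ c ∈ F, c ∉ F') : ∀ w ∈ g.B, w ∉ g'.B := by
  obtain ⟨X, hX, ht, hf, hf0⟩ := h.fh
  have hQn : Q ≠ .nil := ht2_ne (by omega)
  refine dj_E_core ht h' hd (Or.inl lf_ne) (Or.inl hQn) (Or.inr hQn) ?_ ?_ hf hf0
  · intro X
    left
    have e1 : comps (w1 (.nil △ .nil) Q R) = (.nil :: x) ++ [A] := by
      change .nil :: comps (Q △ R) = _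
      rw [hR]; rfl
    exact ne_last e1 (comps_snoc X) hA
  · intro X
    by_cases e : w1 (.nil △ .nil) Q R = w1 .nil .nil X
    · right; left
      rw [fh_w1_o hQn e]
      exact hQ
    · exact Or.inl e

theorem dj_EsKc {s : ℕ} (hs : 4 ≤ s) (h : TyEs F g) (h' : TyKc s F' g') (hd : ∀ c ∈ F, c ∉ F') :
    ∀ w ∈ g.B, w ∉ g'.B := by
  obtain ⟨s, rfl⟩ : ∃ s', s = s' + 2 := ⟨s - 2, by omega⟩
  refine dj_EsO (A := H1.ch s) (x := [H1.ch (s + 2)]) h h' (by rw [H1.ch_ht]; omega) ?_ (ch_nn (by omega)) hd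
  rw [comps_node]
  rfl

theorem dj_EsK2 {n s : ℕ} (hs : 3 ≤ s) (h : TyEs F g) (h' : TyK2 n s F' g') (hd : ∀ c ∈ F, c ∉ F') :
    ∀ w ∈ g.B, w ∉ g'.B := by
  refine dj_EsO (A := .nil △ .nil) (x := [app (H1.ch s) (lp n)]) h h' ?_ rfl lf_ne hd
  rw [ht_app, H1.ch_ht]
  omega

theorem dj_EsK' {S : BinaryTree Unit} (hS : 3 ≤ OddHC.ht S) (h : TyEs F g) (h' : TyK' S F' g')
    (hd : ∀ c ∈ F, c ∉ F') : ∀ w ∈ g.B, w ∉ g'.B := by
  exact dj_EsO (A := S) (x := []) h h' hS rfl (ht2_ne (by omega)) hd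

/-! ### L against the links -/

theorem c_L1 (R : BinaryTree Unit) : comps (w1 R (lp 1) (lp 1)) = comps R ++ [.nil △ .nil, .nil] := by
  rw [comps_w1]; rfl

theorem c_L2 (R : BinaryTree Unit) : comps (w1 (lp 1) (lp 1) R) = .nil :: (.nil △ .nil) :: comps R := by
  rw [comps_w1]; rfl

theorem c_L0 (R : BinaryTree Unit) : comps (w1 (lp 1) R (lp 1)) = [.nil, R, .nil] := by
  rw [comps_w1]; rfl

/-- L against a plain triple: first and last components -/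
theorem dj_L_core {R0 P Q R : BinaryTree Unit} (ht : IsTri (lp 1) R0 (lp 1) F g) (ht' : IsTri P Q R F' g')
    (hd : ∀ c ∈ F, c ∉ F') (h0 : w1 (lp 1) R0 (lp 1) ≠ w1 P Q R) (h1 : w1 (lp 1) R0 (lp 1) ≠ w1 Q R P)
    (h2 : w1 (lp 1) R0 (lp 1) ≠ w1 R P Q) (h3 : ∀ R', w1 P Q R ≠ w1 R' (lp 1) (lp 1))
    (h4 : ∀ R', w1 P Q R ≠ w1 (lp 1) (lp 1) R') : ∀ w ∈ g.B, w ∉ g'.B :=
  tri_dis ht ht' hd (fun e => absurd e h0) h1 h2 (h3 R0) (h4 R0)

theorem dj_LLo {n s : ℕ} (hn : 2 ≤ n) (hs : 3 ≤ s) (h : TyL F g) (h' : TyLo n s F' g') (hd : ∀ c ∈ F, c ∉ F') :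
    ∀ w ∈ g.B, w ∉ g'.B := by
  obtain ⟨R', e, p1, p2, p3, p4, ht⟩ := h
  obtain ⟨s, rfl⟩ : ∃ s', s = s' + 1 := ⟨s - 1, by omega⟩
  refine dj_L_core ht h' hd ?_ ?_ ?_ ?_ ?_
  · exact ne_last (x := [.nil, ins R' e]) (c_L0 _) c_lo0 (ch_nn' (by omega))
  · exact ne_first (c_L0 _) c_lo1 (ch_nn' (by omega))
  · exact ne_first (c_L0 _) c_lo2 (lp_ne_nil (by omega)).symm
  · intro R
    exact ne_last (x' := comps R ++ [.nil △ .nil]) c_lo0 (by rw [c_L1]; simp) (ch_nn (by omega))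
  · intro R
    obtain ⟨n, rfl⟩ : ∃ n', n = n' + 2 := ⟨n - 2, by omega⟩
    intro e0
    have e1 := congrArg comps e0
    rw [c_lo0, c_L2, List.replicate_succ, List.replicate_succ] at e1
    simp only [List.cons_append, List.cons.injEq] at e1
    exact lf_ne e1.2.1.symm

theorem dj_LLm {n s : ℕ} (hn : 2 ≤ n) (hs : 3 ≤ s) (h : TyL F g) (h' : TyLm n s F' g') (hd : ∀ c ∈ F, c ∉ F') :
    ∀ w ∈ g.B, w ∉ g'.B := by
  obtain ⟨R', e, p1, p2, p3, p4, ht⟩ := h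
  obtain ⟨s, rfl⟩ : ∃ s', s = s' + 1 := ⟨s - 1, by omega⟩
  refine dj_L_core ht h' hd ?_ ?_ ?_ ?_ ?_
  · exact ne_first (c_L0 _) c_lm0 (ch_nn' (by omega))
  · exact ne_first (c_L0 _) c_lm1 (ch_nn' (by omega))
  · exact ne_last (x := [.nil, ins R' e]) (c_L0 _) c_lm2 (ch_nn' (by omega))
  · intro R
    obtain ⟨n, rfl⟩ : ∃ n', n = n' + 2 := ⟨n - 2, by omega⟩
    refine ne_last2 (A := .nil) (B := .nil) (x := H1.ch (s + 1) :: List.replicate n .nil) ?_ (c_L1 R) lf_ne.symm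
    rw [c_lm0, List.replicate_succ', List.replicate_succ']
    simp
  · intro R
    exact ne_first c_lm0 (c_L2 R) (ch_nn (by omega))

theorem dj_LKc {s : ℕ} (hs : 4 ≤ s) (h : TyL F g) (h' : TyKc s F' g') (hd : ∀ c ∈ F, c ∉ F') :
    ∀ w ∈ g.B, w ∉ g'.B := by
  obtain ⟨R', e, p1, p2, p3, p4, ht⟩ := h
  obtain ⟨s, rfl⟩ : ∃ s', s = s' + 2 := ⟨s - 2, by omega⟩
  have c0 : comps (w1 (.nil △ .nil) (H1.ch (s + 2)) (H1.ch (s + 2 - 1))) = [.nil, H1.ch (s + 2), H1.ch s] := by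
    rw [comps_w1]; rfl
  have c1 : comps (w1 (H1.ch (s + 2)) (H1.ch (s + 2 - 1)) (.nil △ .nil)) = [H1.ch (s + 1), H1.ch (s + 1), .nil] := by
    rw [comps_w1]; rfl
  have c2 : comps (w1 (H1.ch (s + 2 - 1)) (.nil △ .nil) (H1.ch (s + 2))) = [H1.ch s, .nil △ .nil, H1.ch (s + 1)] := by
    rw [comps_w1]; rfl
  refine dj_L_core ht h' hd ?_ ?_ ?_ ?_ ?_
  · exact ne_last (x := [.nil, ins R' e]) (x' := [.nil, H1.ch (s + 2)]) (c_L0 _) c0 (ch_nn' (by omega))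
  · exact ne_first (c_L0 _) c1 (ch_nn' (by omega))
  · exact ne_first (c_L0 _) c2 (ch_nn' (by omega))
  · intro R
    exact ne_last (x := [.nil, H1.ch (s + 2)]) (x' := comps R ++ [.nil △ .nil]) c0 (by rw [c_L1]; simp)
      (ch_nn (by omega))
  · intro R e0
    have e1 := congrArg comps e0
    rw [c0, c_L2] at e1
    simp only [List.cons.injEq] at e1
    exact ch_inj_ne (m := 1) (by omega) e1.2.1

theorem c_k0 {n s : ℕ} : comps (w1 (.nil △ .nil) (app (H1.ch s) (lp n)) ((.nil △ .nil) △ .nil)) =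
    [.nil, app (H1.ch s) (lp n), .nil △ .nil] := by
  rw [comps_w1]; rfl

theorem c_k1 {n s : ℕ} : comps (w1 (app (H1.ch (s + 1)) (lp n)) ((.nil △ .nil) △ .nil) (.nil △ .nil)) =
    H1.ch s :: (List.replicate n .nil ++ [(.nil △ .nil) △ .nil, .nil]) := by
  rw [comps_w1, comps_app, comps_lp]; rfl

theorem c_k2 {n s : ℕ} : comps (w1 ((.nil △ .nil) △ .nil) (.nil △ .nil) (app (H1.ch (s + 1)) (lp n))) =
    (.nil △ .nil) :: (.nil △ .nil) :: H1.ch s :: List.replicate n .nil := by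
  rw [comps_w1, comps_app, comps_lp]; rfl

theorem S_ne {n s : ℕ} (hs : 2 ≤ s) : app (H1.ch s) (lp n) ≠ .nil △ .nil := by
  intro e
  have e1 := congrArg OddHC.ht e
  rw [ht_app, H1.ch_ht] at e1
  have e2 : OddHC.ht ((.nil : BinaryTree Unit) △ .nil) = 1 := rfl
  rw [e2] at e1
  omega

theorem S_ne0 {n s : ℕ} (hs : 1 ≤ s) : app (H1.ch s) (lp n) ≠ .nil := by
  intro e
  have e1 := congrArg OddHC.ht e
  rw [ht_app, H1.ch_ht] at e1
  have e2 : OddHC.ht (.nil : BinaryTree Unit) = 0 := rfl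
  rw [e2] at e1
  omega

theorem dj_LK2 {n s : ℕ} (hs : 3 ≤ s) (h : TyL F g) (h' : TyK2 n s F' g') (hd : ∀ c ∈ F, c ∉ F') :
    ∀ w ∈ g.B, w ∉ g'.B := by
  obtain ⟨R', e, p1, p2, p3, p4, ht⟩ := h
  obtain ⟨s, rfl⟩ : ∃ s', s = s' + 1 := ⟨s - 1, by omega⟩
  refine dj_L_core ht h' hd ?_ ?_ ?_ ?_ ?_
  · exact ne_last (x := [.nil, ins R' e]) (x' := [.nil, app (H1.ch (s + 1)) (lp n)]) (c_L0 _) c_k0 lf_ne.symm
  · exact ne_first (c_L0 _) c_k1 (ch_nn' (by omega))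
  · exact ne_first (c_L0 _) c_k2 lf_ne.symm
  · intro R
    exact ne_last (x := [.nil, app (H1.ch (s + 1)) (lp n)]) (x' := comps R ++ [.nil △ .nil]) c_k0
      (by rw [c_L1]; simp) lf_ne
  · intro R e0
    have e1 := congrArg comps e0
    rw [c_k0, c_L2] at e1
    simp only [List.cons.injEq] at e1
    exact S_ne (by omega) e1.2.1


/-! ### The components of the words of `K`, `K'`, `Cr`, `Cl` -/

section

variable {S : BinaryTree Unit} {c : ℕ}

theorem c_K0 : comps (w1 .nil S (.nil △ .nil)) = [S, .nil] := by rw [comps_w1]; rfl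

theorem c_K1 : comps (w1 S (.nil △ .nil) .nil) = comps S ++ [.nil △ .nil] := by rw [comps_w1]; rfl

theorem c_K2 : comps (w1 (.nil △ .nil) .nil S) = .nil :: .nil :: comps S := by rw [comps_w1]; rfl

theorem c_m0 : comps (w1 (.nil △ .nil) S .nil) = [.nil, S] := by rw [comps_w1]; rfl

theorem c_m1 : comps (w1 S .nil (.nil △ .nil)) = comps S ++ [.nil, .nil] := by rw [comps_w1]; rfl

theorem c_m2 : comps (w1 .nil (.nil △ .nil) S) = (.nil △ .nil) :: comps S := by rw [comps_w1]; rfl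

theorem c_r0 (hc : 1 ≤ c) : comps (w1 .nil S (H1.ch c)) = [S, H1.ch (c - 1)] := by
  rw [comps_w1, comps_ch' hc]; rfl

theorem c_r1 : comps (w1 S (H1.ch c) .nil) = comps S ++ [H1.ch c] := by rw [comps_w1]; rfl

theorem c_r2 (hc : 1 ≤ c) : comps (w1 (H1.ch c) .nil S) = H1.ch (c - 1) :: .nil :: comps S := by
  rw [comps_w1, comps_ch' hc]; rfl

theorem c_l0 (hc : 1 ≤ c) : comps (w1 (H1.ch c) S .nil) = [H1.ch (c - 1), S] := by
  rw [comps_w1, comps_ch' hc]; rfl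

theorem c_l1 (hc : 1 ≤ c) : comps (w1 S .nil (H1.ch c)) = comps S ++ [.nil, H1.ch (c - 1)] := by
  rw [comps_w1, comps_ch' hc]

theorem c_l2 : comps (w1 .nil (H1.ch c) S) = H1.ch c :: comps S := by rw [comps_w1]; rfl

end

theorem lp_comps {S : BinaryTree Unit} {n : ℕ} (h : comps S = List.replicate n .nil) : S = lp n :=
  comps_inj (h.trans (comps_lp n).symm)

theorem not_lp {S : BinaryTree Unit} {n : ℕ} (h : 2 ≤ OddHC.ht S) : comps S ≠ List.replicate n .nil := by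
  intro e
  have := ht_lp n
  rw [lp_comps e] at h
  omega

theorem ne_len1 {t t' : BinaryTree Unit} {x y : List (BinaryTree Unit)} (h : comps t = x) (h' : comps t' = y)
    (hl : x.length ≠ y.length) : t ≠ t' := by
  rintro rfl
  exact hl (by rw [← h, ← h'])

/-! ### `K` (right) with `S` not starting with `()` -/

theorem cons_nil {S : BinaryTree Unit} {x : List (BinaryTree Unit)} (h : comps S = .nil :: x) : ∃ Y, S = .nil △ Y := by
  cases S with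
  | nil => cases h
  | node _ A Y =>
    have h' : A :: comps Y = .nil :: x := h
    rw [List.cons.injEq] at h'
    rw [h'.1]
    exact ⟨Y, rfl⟩

section

variable {n s : ℕ} {S : BinaryTree Unit}

theorem dj_KLo (hn : 3 ≤ n) (hs : 3 ≤ s) (hS0 : ∀ Y, S ≠ .nil △ Y)
    (h : TyK S F g) (h' : TyLo n s F' g') (hd : ∀ c ∈ F, c ∉ F') : ∀ w ∈ g.B, w ∉ g'.B := by
  obtain ⟨s, rfl⟩ : ∃ s', s = s' + 1 := ⟨s - 1, by omega⟩
  obtain ⟨n, rfl⟩ : ∃ n', n = n' + 3 := ⟨n - 3, by omega⟩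
  refine tri_dis h h' hd ?_ ?_ ?_ ?_ ?_
  · intro e
    exact absurd e (ne_last (x := [S]) c_K0 c_lo0 (ch_nn' (by omega)))
  · exact ne_len1 c_K0 c_lo1 (by simp)
  · exact ne_last (x := [S]) (x' := [lp (n + 3)]) c_K0 c_lo2 (ch_nn' (by omega))
  · exact ne_last c_lo0 c_K1 (ch_inj_ne (m := 1) (by omega))
  · intro e
    have e1 := congrArg comps e
    rw [c_lo0, c_K2, List.replicate_succ, List.replicate_succ, List.replicate_succ] at e1
    simp only [List.cons_append, List.cons.injEq, true_and] at e1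
    obtain ⟨Y, hY⟩ := cons_nil e1.symm
    exact hS0 Y hY

theorem dj_KLm (hn : 3 ≤ n) (hs : 3 ≤ s)
    (h : TyK S F g) (h' : TyLm n s F' g') (hd : ∀ c ∈ F, c ∉ F') : ∀ w ∈ g.B, w ∉ g'.B := by
  obtain ⟨s, rfl⟩ : ∃ s', s = s' + 1 := ⟨s - 1, by omega⟩
  obtain ⟨n, rfl⟩ : ∃ n', n = n' + 3 := ⟨n - 3, by omega⟩
  refine tri_dis h h' hd ?_ ?_ ?_ ?_ ?_
  · intro e
    exact absurd e (ne_len1 c_K0 c_lm0 (by simp))
  · exact ne_last (x := [S]) (x' := [H1.ch s]) c_K0 c_lm1 (lp_ne_nil (by omega)).symm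
  · exact ne_len1 c_K0 c_lm2 (by simp)
  · refine ne_last (x := H1.ch (s + 1) :: List.replicate (n + 2) .nil) ?_ c_K1 lf_ne.symm
    rw [c_lm0, List.replicate_succ']; rfl
  · exact ne_first c_lm0 c_K2 (ch_nn (by omega))

theorem dj_KK2 (hs : 3 ≤ s) (hS : 2 ≤ OddHC.ht S) (hS0 : ∀ Y, S ≠ .nil △ Y)
    (h : TyK S F g) (h' : TyK2 n s F' g') (hd : ∀ c ∈ F, c ∉ F') : ∀ w ∈ g.B, w ∉ g'.B := by
  obtain ⟨s, rfl⟩ : ∃ s', s = s' + 1 := ⟨s - 1, by omega⟩
  refine tri_dis h h' hd ?_ ?_ ?_ ?_ ?_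
  · intro e
    exact absurd e (ne_len1 c_K0 c_k0 (by simp))
  · exact ne_len1 c_K0 c_k1 (by simp)
  · exact ne_len1 c_K0 c_k2 (by simp)
  · intro e
    have e1 := congrArg comps e
    rw [c_k0, c_K1] at e1
    cases S with
    | nil => exact ht2_ne hS rfl
    | node _ A Y =>
      have e2 : (BinaryTree.nil : BinaryTree Unit) :: [app (H1.ch (s + 1)) (lp n), .nil △ .nil] =
        A :: (comps Y ++ [.nil △ .nil]) := e1
      rw [List.cons.injEq] at e2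
      exact hS0 Y (by rw [← e2.1])
  · intro e
    have e1 := congrArg comps e
    rw [c_k0, c_K2] at e1
    simp only [List.cons.injEq] at e1
    exact S_ne0 (by omega) e1.2.1

/-! ### `K'` with `S` not `[c]()^m` -/

theorem dj_KmLo (hn : 2 ≤ n) (hs : 3 ≤ s)
    (h : TyK' S F g) (h' : TyLo n s F' g') (hd : ∀ c ∈ F, c ∉ F') : ∀ w ∈ g.B, w ∉ g'.B := by
  obtain ⟨s, rfl⟩ : ∃ s', s = s' + 1 := ⟨s - 1, by omega⟩
  obtain ⟨n, rfl⟩ : ∃ n', n = n' + 2 := ⟨n - 2, by omega⟩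
  refine tri_dis h h' hd ?_ ?_ ?_ ?_ ?_
  · intro e
    exact absurd e (ne_len1 c_m0 c_lo0 (by simp))
  · exact ne_first c_m0 c_lo1 (ch_nn' (by omega))
  · exact ne_first c_m0 c_lo2 (lp_ne_nil (by omega)).symm
  · exact ne_last (x' := comps S ++ [.nil]) c_lo0 (by rw [c_m1]; simp) (ch_nn (by omega))
  · refine ne_first (x := List.replicate (n + 1) .nil ++ [H1.ch (s + 1)]) ?_ c_m2 lf_ne.symm
    rw [c_lo0, List.replicate_succ]; rfl

theorem dj_KmLm (hn : 3 ≤ n) (hs : 3 ≤ s) (hS0 : S ≠ app (H1.ch (s + 1)) (lp (n - 2)))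
    (h : TyK' S F g) (h' : TyLm n s F' g') (hd : ∀ c ∈ F, c ∉ F') : ∀ w ∈ g.B, w ∉ g'.B := by
  obtain ⟨s, rfl⟩ : ∃ s', s = s' + 1 := ⟨s - 1, by omega⟩
  obtain ⟨n, rfl⟩ : ∃ n', n = n' + 3 := ⟨n - 3, by omega⟩
  refine tri_dis h h' hd ?_ ?_ ?_ ?_ ?_
  · intro e
    exact absurd e (ne_len1 c_m0 c_lm0 (by simp))
  · exact ne_first c_m0 c_lm1 (ch_nn' (by omega))
  · exact ne_len1 c_m0 c_lm2 (by simp)
  · intro e
    apply hS0
    apply comps_inj
    have e1 := congrArg comps e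
    rw [c_lm0, c_m1, show n + 3 = n + 1 + 1 + 1 from rfl, List.replicate_succ', List.replicate_succ',
      List.append_assoc, ← List.cons_append] at e1
    have e2 := List.append_cancel_right e1
    rw [← e2, comps_app, comps_ch, comps_lp]
    rfl
  · exact ne_first c_lm0 c_m2 (ch_inj_ne (m := 1) (by omega))

theorem dj_KmK2 (hs : 3 ≤ s)
    (h : TyK' S F g) (h' : TyK2 n s F' g') (hd : ∀ c ∈ F, c ∉ F') : ∀ w ∈ g.B, w ∉ g'.B := by
  obtain ⟨s, rfl⟩ : ∃ s', s = s' + 1 := ⟨s - 1, by omega⟩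
  refine tri_dis h h' hd ?_ ?_ ?_ ?_ ?_
  · intro e
    exact absurd e (ne_len1 c_m0 c_k0 (by simp))
  · exact ne_first c_m0 c_k1 (ch_nn' (by omega))
  · exact ne_first c_m0 c_k2 lf_ne.symm
  · exact ne_last (x := [.nil, app (H1.ch (s + 1)) (lp n)]) (x' := comps S ++ [.nil]) c_k0
      (by rw [c_m1]; simp) lf_ne
  · exact ne_first c_k0 c_m2 lf_ne.symm

end

/-! ### `Cr` and `Cl` -/

section

variable {n s c : ℕ} {R : BinaryTree Unit}

theorem dj_CrLo (hn : 2 ≤ n) (hs : 3 ≤ s) (hc : 2 ≤ c) (hR : c + 1 ≤ OddHC.ht R)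
    (h : TyC c R F g) (h' : TyLo n s F' g') (hd : ∀ c ∈ F, c ∉ F') : ∀ w ∈ g.B, w ∉ g'.B := by
  obtain ⟨s, rfl⟩ : ∃ s', s = s' + 1 := ⟨s - 1, by omega⟩
  obtain ⟨n, rfl⟩ : ∃ n', n = n' + 2 := ⟨n - 2, by omega⟩
  have hc1 : 1 ≤ c := by omega
  refine tri_dis h h' hd ?_ ?_ ?_ ?_ ?_
  · intro e
    exact absurd e (ne_len1 (c_r0 hc1) c_lo0 (by simp))
  · exact ne_len1 (c_r0 hc1) c_lo1 (by simp)
  · intro e
    have e1 := congrArg comps e
    rw [c_r0 hc1, c_lo2] at e1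
    simp only [List.cons.injEq, and_true] at e1
    have := ht_lp (n + 2)
    rw [e1.1] at hR
    omega
  · intro e
    have e1 := congrArg comps e
    rw [c_lo0, c_r1] at e1
    have e2 := List.append_inj' e1 rfl
    exact not_lp (by omega) e2.1.symm
  · refine ne_first (x := List.replicate (n + 1) .nil ++ [H1.ch (s + 1)]) ?_ (c_r2 hc1) (ch_nn' (by omega))
    rw [c_lo0, List.replicate_succ]; rfl

theorem dj_CrLm (hn : 3 ≤ n) (hs : 3 ≤ s) (hc : 2 ≤ c) (hR : c + 1 ≤ OddHC.ht R)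
    (h : TyC c R F g) (h' : TyLm n s F' g') (hd : ∀ c ∈ F, c ∉ F') : ∀ w ∈ g.B, w ∉ g'.B := by
  obtain ⟨s, rfl⟩ : ∃ s', s = s' + 1 := ⟨s - 1, by omega⟩
  obtain ⟨n, rfl⟩ : ∃ n', n = n' + 3 := ⟨n - 3, by omega⟩
  have hc1 : 1 ≤ c := by omega
  refine tri_dis h h' hd ?_ ?_ ?_ ?_ ?_
  · intro e
    exact absurd e (ne_len1 (c_r0 hc1) c_lm0 (by simp))
  · exact ne_last (x := [R]) (x' := [H1.ch s]) (c_r0 hc1) c_lm1 (lp_ne_ch (by omega)).symm
  · exact ne_len1 (c_r0 hc1) c_lm2 (by simp)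
  · refine ne_last (x := H1.ch (s + 1) :: List.replicate (n + 2) .nil) ?_ c_r1 (ch_nn' (by omega))
    rw [c_lm0, List.replicate_succ']; rfl
  · intro e
    have e1 := congrArg comps e
    rw [c_lm0, c_r2 hc1, List.replicate_succ] at e1
    simp only [List.cons.injEq, true_and] at e1
    exact not_lp (by omega) e1.2.symm

theorem dj_CrK2 (hc : 2 ≤ c) (hs : 3 ≤ s)
    (h : TyC c R F g) (h' : TyK2 n s F' g') (hd : ∀ c ∈ F, c ∉ F') : ∀ w ∈ g.B, w ∉ g'.B := by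
  obtain ⟨s, rfl⟩ : ∃ s', s = s' + 1 := ⟨s - 1, by omega⟩
  have hc1 : 1 ≤ c := by omega
  refine tri_dis h h' hd ?_ ?_ ?_ ?_ ?_
  · intro e
    exact absurd e (ne_len1 (c_r0 hc1) c_k0 (by simp))
  · exact ne_len1 (c_r0 hc1) c_k1 (by simp)
  · exact ne_len1 (c_r0 hc1) c_k2 (by simp)
  · exact ne_last (x := [.nil, app (H1.ch (s + 1)) (lp n)]) c_k0 c_r1 (ch_inj_ne (n := 1) (by omega))
  · exact ne_first c_k0 (c_r2 hc1) (ch_nn' (by omega))

theorem dj_ClLo (hn : 2 ≤ n) (hs : 3 ≤ s) (hc : 2 ≤ c) (hR : c + 1 ≤ OddHC.ht R)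
    (h : TyC' c R F g) (h' : TyLo n s F' g') (hd : ∀ c ∈ F, c ∉ F') : ∀ w ∈ g.B, w ∉ g'.B := by
  obtain ⟨s, rfl⟩ : ∃ s', s = s' + 1 := ⟨s - 1, by omega⟩
  obtain ⟨n, rfl⟩ : ∃ n', n = n' + 2 := ⟨n - 2, by omega⟩
  have hc1 : 1 ≤ c := by omega
  refine tri_dis h h' hd ?_ ?_ ?_ ?_ ?_
  · intro e
    exact absurd e (ne_len1 (c_l0 hc1) c_lo0 (by simp))
  · exact ne_len1 (c_l0 hc1) c_lo1 (by simp)
  · exact ne_first (c_l0 hc1) c_lo2 (lp_ne_ch (by omega)).symm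
  · intro e
    have e1 := congrArg comps e
    rw [c_lo0, c_l1 hc1, List.replicate_succ', show comps R ++ [.nil, H1.ch (c - 1)] =
      (comps R ++ [.nil]) ++ [H1.ch (c - 1)] by simp] at e1
    have e2 := List.append_inj' e1 rfl
    have e3 := List.append_inj' e2.1 rfl
    exact not_lp (by omega) e3.1.symm
  · refine ne_first (x := List.replicate (n + 1) .nil ++ [H1.ch (s + 1)]) ?_ c_l2 (ch_nn' (by omega))
    rw [c_lo0, List.replicate_succ]; rfl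

theorem dj_ClLm (hn : 3 ≤ n) (hs : 3 ≤ s) (hc : 2 ≤ c) (hR : c + 1 ≤ OddHC.ht R)
    (h : TyC' c R F g) (h' : TyLm n s F' g') (hd : ∀ c ∈ F, c ∉ F') : ∀ w ∈ g.B, w ∉ g'.B := by
  obtain ⟨s, rfl⟩ : ∃ s', s = s' + 1 := ⟨s - 1, by omega⟩
  obtain ⟨n, rfl⟩ : ∃ n', n = n' + 3 := ⟨n - 3, by omega⟩
  have hc1 : 1 ≤ c := by omega
  refine tri_dis h h' hd ?_ ?_ ?_ ?_ ?_
  · intro e
    exact absurd e (ne_len1 (c_l0 hc1) c_lm0 (by simp))
  · intro e
    have e1 := congrArg comps e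
    rw [c_l0 hc1, c_lm1] at e1
    simp only [List.cons.injEq, and_true] at e1
    have := ht_lp (n + 3)
    rw [e1.2] at hR
    omega
  · exact ne_len1 (c_l0 hc1) c_lm2 (by simp)
  · refine ne_last (x := H1.ch (s + 1) :: List.replicate (n + 2) .nil) (x' := comps R ++ [.nil])
      (A' := H1.ch (c - 1)) ?_ (by rw [c_l1 hc1]; simp) (ch_nn' (by omega))
    rw [c_lm0, List.replicate_succ']; rfl
  · intro e
    have e1 := congrArg comps e
    rw [c_lm0, c_l2] at e1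
    simp only [List.cons.injEq] at e1
    exact not_lp (by omega) e1.2.symm

theorem dj_ClK2 (hc : 2 ≤ c) (hs : 3 ≤ s)
    (h : TyC' c R F g) (h' : TyK2 n s F' g') (hd : ∀ c ∈ F, c ∉ F') : ∀ w ∈ g.B, w ∉ g'.B := by
  obtain ⟨s, rfl⟩ : ∃ s', s = s' + 1 := ⟨s - 1, by omega⟩
  have hc1 : 1 ≤ c := by omega
  refine tri_dis h h' hd ?_ ?_ ?_ ?_ ?_
  · intro e
    exact absurd e (ne_len1 (c_l0 hc1) c_k0 (by simp))
  · exact ne_len1 (c_l0 hc1) c_k1 (by simp)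
  · exact ne_len1 (c_l0 hc1) c_k2 (by simp)
  · refine ne_last2 (x := [.nil]) (A := app (H1.ch (s + 1)) (lp n)) (B := .nil △ .nil) c_k0 (c_l1 hc1) ?_
    exact S_ne0 (by omega)
  · exact ne_first c_k0 c_l2 (ch_nn' (by omega))

end

/-! ### The special links among themselves -/

section

variable {n s n' s' : ℕ}

theorem app_right {x y : List (BinaryTree Unit)} {A A' : BinaryTree Unit} (h : x ++ [A] = y ++ [A']) :
    x = y ∧ A = A' := by
  have := List.append_inj' h rfl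
  exact ⟨this.1, by simpa using this.2⟩

theorem dj_LoLo (hn : 1 ≤ n) (hs : 2 ≤ s) (hn' : 1 ≤ n') (hs' : 2 ≤ s')
    (h : TyLo n s F g) (h' : TyLo n' s' F' g') (hd : ∀ c ∈ F, c ∉ F') : ∀ w ∈ g.B, w ∉ g'.B := by
  obtain ⟨s, rfl⟩ : ∃ t, s = t + 1 := ⟨s - 1, by omega⟩
  obtain ⟨s', rfl⟩ : ∃ t, s' = t + 1 := ⟨s' - 1, by omega⟩
  have k1 : ∀ n s n' s' : ℕ, 1 ≤ n → w1 (lp n) (H1.ch (s + 1)) .nil ≠ w1 (H1.ch (s' + 1)) .nil (lp n') := by
    intro n s n' s' hn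
    refine ne_last (x' := H1.ch s' :: List.replicate n' .nil) c_lo0 ?_ (ch_nn (by omega))
    rw [c_lo1, List.replicate_succ']; rfl
  have k2 : ∀ n s n' s' : ℕ, 1 ≤ n → 1 ≤ n' → w1 (lp n) (H1.ch (s + 1)) .nil ≠ w1 .nil (lp n') (H1.ch (s' + 1)) := by
    intro n s n' s' hn hn'
    exact ne_first (c_lo0' hn) c_lo2 (lp_ne_nil hn').symm
  refine tri_dis h h' hd ?_ (k1 _ _ _ _ hn) (k2 _ _ _ _ hn hn') (k1 _ _ _ _ hn') (k2 _ _ _ _ hn' hn)
  intro e
  have e1 := congrArg comps e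
  rw [c_lo0, c_lo0] at e1
  obtain ⟨e2, e3⟩ := app_right e1
  have e4 := congrArg List.length e2
  rw [List.length_replicate, List.length_replicate] at e4
  subst e4
  exact ⟨rfl, e3, rfl⟩

theorem dj_LmLm (hn : 2 ≤ n) (hs : 2 ≤ s) (hn' : 2 ≤ n') (hs' : 2 ≤ s')
    (h : TyLm n s F g) (h' : TyLm n' s' F' g') (hd : ∀ c ∈ F, c ∉ F') : ∀ w ∈ g.B, w ∉ g'.B := by
  obtain ⟨s, rfl⟩ : ∃ t, s = t + 1 := ⟨s - 1, by omega⟩
  obtain ⟨s', rfl⟩ : ∃ t, s' = t + 1 := ⟨s' - 1, by omega⟩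
  have k1 : ∀ n s n' s' : ℕ, 2 ≤ n → w1 .nil (H1.ch (s + 1)) (lp n) ≠ w1 (H1.ch (s' + 1)) (lp n') .nil := by
    intro n s n' s' hn
    exact ne_len1 c_lm0 c_lm1 (by simp; omega)
  have k2 : ∀ n s n' s' : ℕ, w1 .nil (H1.ch (s + 1)) (lp n) ≠ w1 (lp n') .nil (H1.ch (s' + 1)) := by
    intro n s n' s'
    refine ne_first (x' := List.replicate n' .nil ++ [H1.ch s']) c_lm0 ?_ (ch_nn (by omega))
    rw [c_lm2, List.replicate_succ]; rfl
  refine tri_dis h h' hd ?_ (k1 _ _ _ _ hn) (k2 _ _ _ _) (k1 _ _ _ _ hn') (k2 _ _ _ _)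
  intro e
  have e1 := congrArg comps e
  rw [c_lm0, c_lm0, List.cons.injEq] at e1
  have e4 := congrArg List.length e1.2
  rw [List.length_replicate, List.length_replicate] at e4
  subst e4
  exact ⟨rfl, e1.1, rfl⟩

/-- LONG against the mirror image: not neighbours -/
theorem dj_LoLm (hn : 2 ≤ n) (hs : 2 ≤ s) (hn' : 2 ≤ n') (hs' : 2 ≤ s') (h1 : ¬ (n = n' + 1 ∧ s' = s + 1))
    (h2 : ¬ (n' = n + 1 ∧ s = s' + 1))
    (h : TyLo n s F g) (h' : TyLm n' s' F' g') (hd : ∀ c ∈ F, c ∉ F') : ∀ w ∈ g.B, w ∉ g'.B := by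
  obtain ⟨s, rfl⟩ : ∃ t, s = t + 1 := ⟨s - 1, by omega⟩
  obtain ⟨s', rfl⟩ : ∃ t, s' = t + 1 := ⟨s' - 1, by omega⟩
  refine tri_dis h h' hd ?_ ?_ ?_ ?_ ?_
  · intro e
    exact absurd e (ne_first (c_lo0' (by omega)) c_lm0 (ch_nn' (by omega)))
  · exact ne_first (c_lo0' (by omega)) c_lm1 (ch_nn' (by omega))
  · intro e
    have e1 := congrArg comps e
    rw [c_lo0, c_lm2] at e1
    obtain ⟨e2, e3⟩ := app_right e1
    have e4 := congrArg List.length e2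
    rw [List.length_replicate, List.length_replicate] at e4
    have e5 := H1.ch_inj e3
    exact h1 ⟨e4, by omega⟩
  · intro e
    have e1 := congrArg comps e
    rw [c_lm0, c_lo1, List.cons.injEq] at e1
    have e4 := congrArg List.length e1.2
    rw [List.length_replicate, List.length_replicate] at e4
    have e5 := H1.ch_inj e1.1
    exact h2 ⟨e4, by omega⟩
  · exact ne_len1 c_lm0 c_lo2 (by simp; omega)

theorem dj_LoK2 (hn : 2 ≤ n) (hs : 3 ≤ s) (hs' : 3 ≤ s')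
    (h : TyLo n s F g) (h' : TyK2 n' s' F' g') (hd : ∀ c ∈ F, c ∉ F') : ∀ w ∈ g.B, w ∉ g'.B := by
  obtain ⟨s, rfl⟩ : ∃ t, s = t + 1 := ⟨s - 1, by omega⟩
  obtain ⟨s', rfl⟩ : ∃ t, s' = t + 1 := ⟨s' - 1, by omega⟩
  refine tri_dis h h' hd ?_ ?_ ?_ ?_ ?_
  · intro e
    exact absurd e (ne_last (x' := [.nil, app (H1.ch (s' + 1)) (lp n')]) c_lo0 c_k0
      (ch_inj_ne (m := 1) (by omega)))
  · exact ne_first (c_lo0' (by omega)) c_k1 (ch_nn' (by omega))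
  · exact ne_first (c_lo0' (by omega)) c_k2 lf_ne.symm
  · exact ne_first c_k0 c_lo1 (ch_nn' (by omega))
  · exact ne_first c_k0 c_lo2 (lp_ne_nil (by omega)).symm

theorem dj_LmK2 (hn : 2 ≤ n) (hs : 3 ≤ s) (hs' : 3 ≤ s')
    (h : TyLm n s F g) (h' : TyK2 n' s' F' g') (hd : ∀ c ∈ F, c ∉ F') : ∀ w ∈ g.B, w ∉ g'.B := by
  obtain ⟨s, rfl⟩ : ∃ t, s = t + 1 := ⟨s - 1, by omega⟩
  obtain ⟨s', rfl⟩ : ∃ t, s' = t + 1 := ⟨s' - 1, by omega⟩
  obtain ⟨n, rfl⟩ : ∃ t, n = t + 2 := ⟨n - 2, by omega⟩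
  refine tri_dis h h' hd ?_ ?_ ?_ ?_ ?_
  · intro e
    exact absurd e (ne_first c_lm0 c_k0 (ch_nn (by omega)))
  · intro e
    have e1 := congrArg comps e
    rw [c_lm0, c_k1, List.cons.injEq] at e1
    have e2 : (BinaryTree.nil △ .nil) △ .nil ∈ (List.replicate (n + 2) .nil : List (BinaryTree Unit)) := by
      rw [e1.2]; simp
    have := List.eq_of_mem_replicate e2
    cases this
  · exact ne_first c_lm0 c_k2 (ch_inj_ne (m := 1) (by omega))
  · exact ne_first c_k0 c_lm1 (ch_nn' (by omega))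
  · exact ne_last (x := [.nil, app (H1.ch (s' + 1)) (lp n')]) (x' := List.replicate (n + 3) .nil) c_k0 c_lm2
      (ch_inj_ne (n := 1) (by omega))

theorem dj_K2K2 (hs : 3 ≤ s) (hs' : 3 ≤ s')
    (h : TyK2 n s F g) (h' : TyK2 n' s' F' g') (hd : ∀ c ∈ F, c ∉ F') : ∀ w ∈ g.B, w ∉ g'.B := by
  obtain ⟨s, rfl⟩ : ∃ t, s = t + 1 := ⟨s - 1, by omega⟩
  obtain ⟨s', rfl⟩ : ∃ t, s' = t + 1 := ⟨s' - 1, by omega⟩
  refine tri_dis h h' hd ?_ ?_ ?_ ?_ ?_
  · intro e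
    have e1 := congrArg comps e
    rw [c_k0, c_k0] at e1
    simp only [List.cons.injEq, true_and, and_true] at e1
    exact ⟨rfl, e1, rfl⟩
  · exact ne_first c_k0 c_k1 (ch_nn' (by omega))
  · exact ne_first c_k0 c_k2 lf_ne.symm
  · exact ne_first c_k0 c_k1 (ch_nn' (by omega))
  · exact ne_first c_k0 c_k2 lf_ne.symm

end

/-! ### The rows `.. - S5` -/

/-- `K` with `S` not light and not starting with `()` -/
def TyKs (F : Set (Cyc k)) (g : DG k) : Prop :=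
  ∃ S : BinaryTree Unit, 2 ≤ OddHC.ht S ∧ (∀ Y, S ≠ .nil △ Y) ∧ TyK S F g

/-- `K'` with `S` not light and not `[c]()^m` -/
def TyKms (F : Set (Cyc k)) (g : DG k) : Prop :=
  ∃ S : BinaryTree Unit, 2 ≤ OddHC.ht S ∧ (∀ c m, S ≠ app (H1.ch c) (lp m)) ∧ TyK' S F g

theorem TyS5.cases' (h : TyS5 F g) : ∃ s n, 3 ≤ s ∧ 2 ≤ n ∧ (TyLo (n + 2) s F g ∨ TyLm (n + 2) s F g ∨ TyK2 n s F g) := h

theorem dj_KsS5 : Dj (k := k) TyKs TyS5 := by
  intro F g F' g' h h' hd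
  obtain ⟨S, hS, hS0, ht⟩ := h
  obtain ⟨s, n, hs, hn, h' | h' | h'⟩ := h'.cases'
  · exact dj_KLo (by omega) (by omega) hS0 ht h' hd
  · exact dj_KLm (by omega) (by omega) ht h' hd
  · exact dj_KK2 (by omega) hS hS0 ht h' hd

theorem dj_KmS5 : Dj (k := k) TyKms TyS5 := by
  intro F g F' g' h h' hd
  obtain ⟨S, hS, hS0, ht⟩ := h
  obtain ⟨s, n, hs, hn, h' | h' | h'⟩ := h'.cases'
  · exact dj_KmLo (by omega) (by omega) ht h' hd
  · exact dj_KmLm (by omega) (by omega) (hS0 _ _) ht h' hd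
  · exact dj_KmK2 (by omega) ht h' hd

theorem dj_CrS5 : Dj (k := k) TyCr TyS5 := by
  intro F g F' g' h h' hd
  obtain ⟨c, R, hc, hR, ho, ht⟩ := h
  obtain ⟨s, n, hs, hn, h' | h' | h'⟩ := h'.cases'
  · exact dj_CrLo (by omega) (by omega) hc hR ht h' hd
  · exact dj_CrLm (by omega) (by omega) hc hR ht h' hd
  · exact dj_CrK2 hc (by omega) ht h' hd

theorem dj_ClS5 : Dj (k := k) TyCl TyS5 := by
  intro F g F' g' h h' hd
  obtain ⟨c, R, hc, hR, ho, ht⟩ := h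
  obtain ⟨s, n, hs, hn, h' | h' | h'⟩ := h'.cases'
  · exact dj_ClLo (by omega) (by omega) hc hR ht h' hd
  · exact dj_ClLm (by omega) (by omega) hc hR ht h' hd
  · exact dj_ClK2 hc (by omega) ht h' hd

theorem dj_LS5 : Dj (k := k) TyL TyS5 := by
  intro F g F' g' h h' hd
  obtain ⟨s, n, hs, hn, h' | h' | h'⟩ := h'.cases'
  · exact dj_LLo (by omega) (by omega) h h' hd
  · exact dj_LLm (by omega) (by omega) h h' hd
  · exact dj_LK2 (by omega) h h' hd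

/-- **S5 - S5**: LONG and the mirror image are never used at neighbouring places -/
theorem dj_S5S5 (h : TyS5 F g) (h' : TyS5 F' g') (hd : ∀ c ∈ F, c ∉ F')
    (h1 : ∀ n s, ¬ (TyLo (n + 1) s F g ∧ TyLm n (s + 1) F' g'))
    (h2 : ∀ n s, ¬ (TyLo n (s + 1) F g ∧ TyLm (n + 1) s F' g'))
    (h1' : ∀ n s, ¬ (TyLo (n + 1) s F' g' ∧ TyLm n (s + 1) F g))
    (h2' : ∀ n s, ¬ (TyLo n (s + 1) F' g' ∧ TyLm (n + 1) s F g)) : ∀ w ∈ g.B, w ∉ g'.B := by
  have sy : ∀ {F F' : Set (Cyc k)}, (∀ c ∈ F, c ∉ F') → ∀ c ∈ F', c ∉ F := fun h c hc hc' => h c hc' hc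
  have sw : ∀ {g g' : DG k}, (∀ w ∈ g.B, w ∉ g'.B) → ∀ w ∈ g'.B, w ∉ g.B := fun h w hw hw' => h w hw' hw
  obtain ⟨s, n, hs, hn, h | h | h⟩ := h.cases'
  · obtain ⟨s', n', hs', hn', h' | h' | h'⟩ := h'.cases'
    · exact dj_LoLo (by omega) (by omega) (by omega) (by omega) h h' hd
    · refine dj_LoLm (by omega) (by omega) (by omega) (by omega) ?_ ?_ h h' hd
      · rintro ⟨e1, e2⟩
        subst e2
        rw [e1] at h
        exact h1 _ _ ⟨h, h'⟩
      · rintro ⟨e1, e2⟩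
        subst e2
        rw [e1] at h'
        exact h2 _ _ ⟨h, h'⟩
    · exact dj_LoK2 (by omega) (by omega) (by omega) h h' hd
  · obtain ⟨s', n', hs', hn', h' | h' | h'⟩ := h'.cases'
    · refine sw (dj_LoLm (by omega) (by omega) (by omega) (by omega) ?_ ?_ h' h (sy hd))
      · rintro ⟨e1, e2⟩
        subst e2
        rw [e1] at h'
        exact h1' _ _ ⟨h', h⟩
      · rintro ⟨e1, e2⟩
        subst e2
        rw [e1] at h
        exact h2' _ _ ⟨h', h⟩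
    · exact dj_LmLm (by omega) (by omega) (by omega) (by omega) h h' hd
    · exact dj_LmK2 (by omega) (by omega) (by omega) h h' hd
  · obtain ⟨s', n', hs', hn', h' | h' | h'⟩ := h'.cases'
    · exact sw (dj_LoK2 (by omega) (by omega) (by omega) h' h (sy hd))
    · exact sw (dj_LmK2 (by omega) (by omega) (by omega) h' h (sy hd))
    · exact dj_K2K2 (by omega) (by omega) h h' hd

/-! ### E -/

theorem E_Lo {X : BinaryTree Unit} {n s : ℕ} (hn : 1 ≤ n) (hs : 1 ≤ s) (ht : IsTri .nil X .nil F g)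
    (h' : TyLo n s F' g') (hX : X ≠ w1 (lp (n - 1)) (H1.ch s) .nil) (hd : ∀ c ∈ F, c ∉ F') :
    ∀ w ∈ g.B, w ∉ g'.B := by
  refine tri_dis ht h' hd ?_ ?_ ?_ ?_ ?_
  · intro e; exact absurd e (one_ne_two (Or.inl (lp_ne_nil hn)))
  · exact one_ne_two (Or.inl (ch_nn hs))
  · exact one_ne_two (Or.inr (ch_nn hs))
  · exact ne_last c_lo0 (comps_snoc X) (ch_nn hs)
  · intro e
    obtain ⟨n, rfl⟩ : ∃ n', n = n' + 1 := ⟨n - 1, by omega⟩
    have e1 : app (lp n) (H1.ch s △ .nil) = X := by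
      have e2 : (BinaryTree.nil : BinaryTree Unit) △ app (lp n) (H1.ch s △ .nil) = .nil △ X := e
      injection e2
    exact hX e1.symm

theorem E_Lm {X : BinaryTree Unit} {n s : ℕ} (hn : 1 ≤ n) (hs : 1 ≤ s) (ht : IsTri .nil X .nil F g)
    (h' : TyLm n s F' g') (hX : X ≠ w1 .nil (H1.ch s) (lp (n - 1))) (hd : ∀ c ∈ F, c ∉ F') :
    ∀ w ∈ g.B, w ∉ g'.B := by
  refine tri_dis ht h' hd ?_ ?_ ?_ ?_ ?_
  · intro e; exact absurd e (one_ne_two (Or.inr (lp_ne_nil hn)))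
  · exact one_ne_two (Or.inl (ch_nn hs))
  · exact one_ne_two (Or.inr (ch_nn hs))
  · intro e
    apply hX
    apply comps_inj
    have e1 := congrArg comps e
    rw [c_lm0, comps_snoc] at e1
    obtain ⟨n, rfl⟩ : ∃ n', n = n' + 1 := ⟨n - 1, by omega⟩
    rw [List.replicate_succ', ← List.cons_append] at e1
    have e2 := List.append_cancel_right e1
    rw [← e2, c_lm0]
    rfl
  · exact ne_first c_lm0 (comps_w1 _ _ _) (ch_nn hs)

theorem E_K2 {X : BinaryTree Unit} {n s : ℕ} (hs : 1 ≤ s) (ht : IsTri .nil X .nil F g)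
    (h' : TyK2 n s F' g') (hX : X ≠ app (H1.ch s) (lp n) △ H1.ch 2) (hd : ∀ c ∈ F, c ∉ F') :
    ∀ w ∈ g.B, w ∉ g'.B := by
  refine tri_dis ht h' hd ?_ ?_ ?_ ?_ ?_
  · intro e; exact absurd e (one_ne_two (Or.inl lf_ne))
  · exact one_ne_two (Or.inl (S_ne0 hs))
  · exact one_ne_two (Or.inr (S_ne0 hs))
  · exact ne_last (x := [.nil, app (H1.ch s) (lp n)]) c_k0 (comps_snoc X) lf_ne
  · intro e
    have e2 : (BinaryTree.nil : BinaryTree Unit) △ (app (H1.ch s) (lp n) △ H1.ch 2) = .nil △ X := e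
    injection e2 with _ _ e3
    exact hX e3.symm

/-- the reduced word of `()^a ([s]) ()^b` is prime -/
theorem red_pr {s a b : ℕ} (hs : 2 ≤ s) {r : BinaryTree Unit} {f : List ℕ} (hf : f.length = 2 * r.numNodes + 1)
    (h : w1 (lp a) (H1.ch s) (lp b) = ins r f) : ∃ A, r = A △ .nil := by
  have h2 : (red (H1.ch s)).1 ≠ .nil := by
    intro h2
    have h1 : H1.ch s = ins (red (H1.ch s)).1 (red (H1.ch s)).2 := (ins_red _).symm
    rw [h2] at h1
    have h3 : OddHC.ht (H1.ch s) ≤ 1 := by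
      rw [h1, ins]
      exact ht_lp _
    rw [H1.ch_ht] at h3
    omega
  exact ⟨_, red_prime h2 (red_len (H1.ch s)) a b hf (by rw [ins_red]; exact h)⟩

theorem dj_EnS5 : Dj (k := k) TyEn TyS5 := by
  intro F g F' g' h h' hd
  obtain ⟨j, r, f, hj, hl, hn0, ht⟩ := h
  have hlen : (lf f).length = 2 * r.1.numNodes + 1 := by rw [lf_length, X_num]
  obtain ⟨s, n, hs, hn, h' | h' | h'⟩ := h'.cases'
  · refine E_Lo (by omega) (by omega) ht h' ?_ hd
    intro e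
    obtain ⟨A, hA⟩ := red_pr (s := s) (a := n + 2 - 1) (b := 0) (by omega) hlen e.symm
    exact hn0 A hA
  · refine E_Lm (by omega) (by omega) ht h' ?_ hd
    intro e
    obtain ⟨A, hA⟩ := red_pr (s := s) (a := 0) (b := n + 2 - 1) (by omega) hlen e.symm
    exact hn0 A hA
  · refine E_K2 (by omega) ht h' ?_ hd
    intro e
    obtain ⟨l1, -⟩ := H1.low_fh hlen hl
    have c2 : 1 ≤ (cont (ins r.1 (lf f))).count 2 := by
      rw [e, cont_node, Multiset.count_add]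
      have : (cont (H1.ch 2)).count 2 = 1 := by decide
      omega
    have l2 := l1 c2
    rw [e, H1.fh_node (S_ne0 (by omega)), ht_app, H1.ch_ht] at l2
    omega

/-! ### A -/

theorem bl_lp (n : ℕ) : H1.bl (lp n) = true := by
  induction n with
  | zero => rfl
  | succ n ih => exact ih

theorem um_chlp {s : ℕ} (n : ℕ) (hs : 3 ≤ s) : H1.UM (app (H1.ch s) (lp n)) := H1.um_S1 hs (bl_lp n)

theorem lastB_lp (n : ℕ) : H1.lastB (lp (n + 1)) = true := by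
  induction n with
  | zero => rfl
  | succ n ih => exact ih

theorem um_lp (n : ℕ) : H1.UM (lp n) := by
  change (H1.PB (lp n) || H1.am (lp n)) = false
  rw [H1.am_bl (bl_lp n), Bool.or_false]
  rcases n with _ | _ | n
  · rfl
  · rfl
  · change (H1.light .nil && (!H1.isNil (lp (n + 1)) && !H1.lastB (lp (n + 1)))) = false
    rw [lastB_lp]
    simp

theorem dj_AS5 : Dj (k := k) TyA TyS5 := by
  intro F g F' g' h h' hd
  obtain ⟨s, n, hs, hn, h' | h' | h'⟩ := h'.cases'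
  · exact h.disj_tri h' (um_lp _) (H1.um_ch s) H1.um_nil
  · exact h.disj_tri h' H1.um_nil (H1.um_ch s) (um_lp _)
  · exact h.disj_tri h' (H1.um_ch 1) (um_chlp n (by omega)) (H1.um_ch 2)

theorem TyA.inner_S5 (h : TyA F g) (h' : TyS5 F' g') (hd : ∀ c ∈ F, c ∉ F')
    (hh : ∀ c ∈ F, ∀ d ∈ F', htc c ≤ htc d) {a : X k × X k} (ha : a ∈ g.arcs) : ∀ w ∈ innA a, w ∉ g'.B := by
  obtain ⟨s, n, hs, hn, h' | h' | h'⟩ := h'.cases'
  · exact h.inner_safe3 h' (safe3_long _ _) hd hh ha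
  · exact h.inner_safe3 h' (safe3_long' _ _) hd hh ha
  · exact h.inner_safe3 h' (safe3_K22 _) hd hh ha

end Pool.OddHC
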