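import Pool.Agent.Work.MP_8f87b2_h27.Inn4

/-!
MP_8f87b2_co: inner words of the windows whose T-cycle has a part 1 (`m ≥ 1`) against the links `K` (and `Km`) with a bare `S`.
-/

set_option autoImplicit false

namespace Pool.OddHC

open BinaryTree Equiv

theorem one_raise {M : Multiset ℕ} (h : 1 ∈ M) (h2 : 2 ≤ M.sup) : 1 ∈ raise M := by
  unfold raise
  rw [Multiset.mem_cons]
  right
  exact (Multiset.mem_erase_of_ne (by omega)).2 h

namespace H1

variable {k q : ℕ} {B1 H s B : BinaryTree Unit}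

/-- a part 1 of `R` is in the content of every word -/
theorem NodeG.one (h : NodeG k q B1 H s B) (w0 : X k) (h1 : 1 ∈ cont (gR B1 H s B)) {i : ℕ}
    (hi : i ∈ [0, 1, 3, 6, 8, 9]) : 1 ∈ cont (gX q B1 H s B w0 i).1 := by
  have hi' : i < 20 := by
    simp only [List.mem_cons, List.not_mem_nil, or_false] at hi
    omega
  rw [h.word w0 hi']
  have a1 := h.ht
  have a2 := h.hs3
  have hR : 2 ≤ (cont (gR B1 H s B)).sup := by
    rw [← OddHC.ht_eq]
    omega
  have r1 := one_raise h1 hR
  have r0 : (1 : ℕ) ∈ raise (cont .nil) := by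
    rw [cont_nil, raise_zero]; simp
  simp only [List.mem_cons, List.not_mem_nil, or_false] at hi
  rcases hi with rfl | rfl | rfl | rfl | rfl | rfl
  · simp only [W, cont_app, Multiset.mem_add]
    exact Or.inl h1
  · simp only [W, cont_app, Multiset.mem_add]
    exact Or.inl h1
  · simp only [W, cont_node, Multiset.mem_add]
    left
    refine one_raise ?_ ?_
    · simp only [cont_app, Multiset.mem_add]
      exact Or.inl h1
    · rw [cont_app, Multiset.sup_add]
      exact le_trans hR le_sup_left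
  · simp only [W, cont_node, Multiset.mem_add]
    exact Or.inl r1
  · simp only [W, cont_app, cont_node, Multiset.mem_add]
    exact Or.inr (Or.inl r0)
  · simp only [W, cont_node, Multiset.mem_add, cont_nil, add_zero]
    left
    refine one_raise r1 ?_
    have e := sup_raise (cont (gR B1 H s B))
    omega

theorem NodeG.one_T (h : NodeG k q B1 H s B) (w0 : X k) (h1 : 1 ∈ cont (gR B1 H s B)) {i : ℕ}
    (hi : i ∈ [0, 1, 3, 6, 8, 9]) : 1 ∈ cont (TT (gX q B1 H s B w0 i)).1 := by
  have e6 : cyc (TT (gX q B1 H s B w0 i)) = cyc (gX q B1 H s B w0 i) := cyc_eq.2 ⟨-1, by simp⟩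
  have e7 := congrArg contc e6
  change cont (TT (gX q B1 H s B w0 i)).1 = cont (gX q B1 H s B w0 i).1 at e7
  rw [e7]
  exact h.one w0 h1 hi

end H1

variable {k : ℕ} {P Q R : BinaryTree Unit} {F F' : Set (Cyc k)} {g g' : DG k}

open H1

theorem TyA.one (h : TyA F g) (hb : ∀ c ∈ F, 1 ∈ contc c) {a : X k × X k} (ha : a ∈ g.arcs) :
    ∀ w ∈ innA a, 1 ∈ cont w.1 := by
  obtain ⟨q, B1, H, s, B, w0, hG, rfl, rfl⟩ := h
  obtain ⟨i, hi, e⟩ := arcs_cases ha
  rw [e]
  intro w h1
  have e1 : w = TT (gX q B1 H s B w0 i) := h1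
  subst e1
  refine hG.one_T w0 ?_ hi
  have h2 : 1 ∈ cont (gX q B1 H s B w0 0).1 := hb _ rfl
  rw [hG.cont0, Multiset.mem_add, Multiset.mem_singleton] at h2
  rcases h2 with h2 | h2
  · exact h2
  · omega

/-- **K (right), no part 1 in `S`**: windows with a part 1 -/
theorem TyA.inner_K0 {S : BinaryTree Unit} (h : TyA F g) (h' : TyK S F' g') (hb : ∀ c ∈ F, 1 ∈ contc c)
    (hS : 1 ∉ cont S) {a : X k × X k} (ha : a ∈ g.arcs) : ∀ w ∈ innA a, w ∉ g'.B := by
  intro w hw hw'
  have h1 := h.one hb ha w hw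
  rcases IsTri.words h' w hw' with e | ⟨_, e | e⟩
  · refine h.inner_of ha ?_ hw
    right; right; left
    exact ⟨true :: (wd S ++ [false]), by
      rw [e]; change wd (S △ (.nil △ .nil)) = _; rw [wd_node]; simp [wd]⟩
  · rw [e] at h1
    change 1 ∈ cont (app S ((.nil △ .nil) △ .nil)) at h1
    rw [cont_app, Multiset.mem_add] at h1
    rcases h1 with h1 | h1
    · exact hS h1
    · revert h1
      decide
  · refine h.inner_of ha (Or.inl ?_) hw
    exact ⟨true :: false :: wd S, by
      rw [e]; change wd (.nil △ (.nil △ S)) = _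
      rw [wd_node, wd_node]; simp [wd]⟩

end Pool.OddHC
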