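import Pool.Agent.Work.MP_8f87b2_h27.Inn5

/-!
MP_8f87b2_co: the shapes of `S` in helper30's list of `K` links (right, host `(S)()`), against the windows `TyA`.
`K0`, `K4`: no part 1 in `S`: `TyA.inner_K0`. `K2` (`S = S0 ()^(m+1)`), `K3` (`S = S1 (A ()) ()^(m+1)`), `S1 () [q] ()`:
`TyA.inner_Kb`. `K1` (`S = S1 () [q]`): `TyA.inner_Kc`.
-/

set_option autoImplicit false

namespace Pool.OddHC

open BinaryTree Equiv

namespace H1

/-- `A ()` may be closed -/
theorem ns_Ao {A : BinaryTree Unit} (h : A = ch 2 ∨ (hv A ∧ A ≠ .nil)) : ns (app A (lp 1)) := by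
  rcases h with rfl | ⟨h, h0⟩
  · intro σ hσ
    cases σ <;> first | exact absurd rfl hσ | (intro h2; cases h2)
  · exact ns_back h h0 1

/-- `S1 (A ())` -/
theorem nd_K3 {S1 A : BinaryTree Unit} (h1 : hv S1) (h : A = ch 2 ∨ (hv A ∧ A ≠ .nil)) :
    nd (app S1 (app A (lp 1) △ .nil)) :=
  nd_app (nd_hv h1) (nd_node (Or.inr (ns_Ao h)) nd_nil)

/-- `S1 () [q]` -/
theorem nd_K1 {S1 : BinaryTree Unit} (q : ℕ) (h1 : hv S1) : nd (app S1 (.nil △ ch q)) :=
  nd_app (nd_hv h1) (nd_node (Or.inl rfl) (nd_ch q))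

theorem mk_Ao {A : BinaryTree Unit} (h : A = ch 2 ∨ (hv A ∧ A ≠ .nil)) : H1.mk (app A (lp 1)) = false := by
  rcases h with rfl | ⟨h, h0⟩
  · rfl
  · exact um_app h h0 (am_lp 1)

theorem lastB_lp1 (m : ℕ) : lastB (lp (m + 1)) = true := by
  induction m with
  | zero => rfl
  | succ m ih => exact ih

/-- `S1 (A ()) ()^(m+1)` is unmarked -/
theorem um_K3 {S1 A : BinaryTree Unit} (m : ℕ) (h1 : hv S1) (h : A = ch 2 ∨ (hv A ∧ A ≠ .nil)) :
    UM (app S1 (app A (lp 1) △ lp (m + 1))) := by
  have e1 : am (app A (lp 1) △ lp (m + 1)) = false := by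
    rw [am_node, mk_Ao h, am_lp]
    rfl
  by_cases h0 : S1 = .nil
  · subst h0
    change (H1.PB (app A (lp 1) △ lp (m + 1)) || am (app A (lp 1) △ lp (m + 1))) = false
    rw [e1, Bool.or_false]
    change (light (app A (lp 1)) && (!isNil (lp (m + 1)) && !lastB (lp (m + 1)))) = false
    rw [lastB_lp1]
    simp
  · exact um_app h1 h0 e1

/-- `S1 () [q]` -/
theorem um_K1 {S1 : BinaryTree Unit} (q : ℕ) (h1 : hv S1) (h0 : S1 ≠ .nil) : UM (app S1 (.nil △ ch q)) := by
  refine um_app h1 h0 ?_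
  rw [am_node, (um_ch q).am]
  rfl

/-- `S1 () [q] ()^m` -/
theorem um_K1b {S1 : BinaryTree Unit} (q m : ℕ) (h1 : hv S1) (h0 : S1 ≠ .nil) :
    UM (app S1 (.nil △ app (ch q) (lp m))) := by
  refine um_app h1 h0 ?_
  rw [am_node, am_app, (um_ch q).am, am_lp]
  rfl

/-- the numbers of parts 1, 2 of the words 0, 3, 6 -/
theorem NodeG.cnt0 {k q : ℕ} {B1 H s B : BinaryTree Unit} (h : NodeG k q B1 H s B) (w0 : X k) {b : ℕ} (hb : b ≤ 2) :
    (cont (gX q B1 H s B w0 0).1).count b = (cont (gR B1 H s B)).count b := by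
  rw [h.cont0, Multiset.count_add, Multiset.count_singleton, if_neg (by omega)]
  rfl

theorem raise_cnt {M : Multiset ℕ} {b : ℕ} (h : 4 ≤ M.sup) (hb : b ≤ 2) : (raise M).count b = M.count b :=
  count_raise b (by omega) (by omega)

end H1

variable {k : ℕ} {P Q R : BinaryTree Unit} {F F' : Set (Cyc k)} {g g' : DG k}

open H1

/-- **K (right)**, `S = S0 ()^(m+1)`, `S0` without forbidden factor: all windows, no condition -/
theorem TyA.inner_Kb {S0 : BinaryTree Unit} {m : ℕ} (h : TyA F g) (h' : TyK (app S0 (lp (m + 1))) F' g')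
    (h0 : nd S0) {a : X k × X k} (ha : a ∈ g.arcs) : ∀ w ∈ innA a, w ∉ g'.B := by
  intro w hw hw'
  refine h.inner_of ha ?_ hw
  obtain ⟨v, hv⟩ := end_tf S0 m
  rcases IsTri.words h' w hw' with e | ⟨_, e | e⟩
  · right; right; left
    exact ⟨true :: (wd (app S0 (lp (m + 1))) ++ [false]), by
      rw [e]; change wd (app S0 (lp (m + 1)) △ (.nil △ .nil)) = _; rw [wd_node]; simp [wd]⟩
  · right; right; right
    have hn : nd (app (app S0 (lp (m + 1))) ((.nil △ .nil) △ .nil)) := by
      refine nd_app (nd_app h0 ?_) (nd_ch 2)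
      intro σ hσ
      exact run_bl (by
        have key : ∀ n : ℕ, bl (lp n) = true := by
          intro n
          induction n with
          | zero => rfl
          | succ n ih => exact ih
        exact key _) σ hσ
    refine ⟨by rw [e]; exact hn, Or.inr (Or.inl ?_)⟩
    exact ⟨v, by
      rw [e]; change wd (app (app S0 (lp (m + 1))) ((.nil △ .nil) △ .nil)) = _; rw [wd_app, hv]; simp [wd]⟩
  · left
    exact ⟨true :: false :: wd (app S0 (lp (m + 1))), by
      rw [e]; change wd (.nil △ (.nil △ app S0 (lp (m + 1)))) = _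
      rw [wd_node, wd_node]; simp [wd]⟩

/-- **K3**: `S = S1 (A ()) ()^(m+1)` -/
theorem TyA.inner_K3 {S1 A : BinaryTree Unit} {m : ℕ} (h : TyA F g)
    (h' : TyK (app S1 (app A (lp 1) △ lp (m + 1))) F' g') (h1 : hv S1) (hA : A = ch 2 ∨ (hv A ∧ A ≠ .nil))
    {a : X k × X k} (ha : a ∈ g.arcs) : ∀ w ∈ innA a, w ∉ g'.B := by
  have h2 : TyK (app (app S1 (app A (lp 1) △ .nil)) (lp (m + 1))) F' g' := by
    rw [app_assoc]
    exact h'
  exact h.inner_Kb h2 (nd_K3 h1 hA) ha

/-- **K2'**: `S = S1 () [q] ()` -/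
theorem TyA.inner_K2 {S1 : BinaryTree Unit} {q m : ℕ} (h : TyA F g)
    (h' : TyK (app S1 (.nil △ app (ch q) (lp (m + 1)))) F' g') (h1 : hv S1)
    {a : X k × X k} (ha : a ∈ g.arcs) : ∀ w ∈ innA a, w ∉ g'.B := by
  have h2 : TyK (app (app S1 (.nil △ ch q)) (lp (m + 1))) F' g' := by
    rw [app_assoc]
    exact h'
  exact h.inner_Kb h2 (nd_K1 q h1) ha

/-- **K1**: `S` without forbidden factor, with one part 1 and no part 2; the windows have parts 1, 2, not one of each -/
theorem TyA.inner_Kc {S : BinaryTree Unit} (h : TyA F g) (h' : TyK S F' g') (h0 : nd S)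
    (c1 : (cont S).count 1 = 1) (c2 : (cont S).count 2 = 0)
    (hb : ∀ c ∈ F, 1 ≤ (contc c).count 1 ∧ 1 ≤ (contc c).count 2 ∧ ¬ ((contc c).count 1 = 1 ∧ (contc c).count 2 = 1))
    {a : X k × X k} (ha : a ∈ g.arcs) : ∀ w ∈ innA a, w ∉ g'.B := by
  intro w hw hw'
  rcases IsTri.words h' w hw' with e | ⟨_, e | e⟩
  · refine h.inner_of ha ?_ hw
    right; right; left
    exact ⟨true :: (wd S ++ [false]), by
      rw [e]; change wd (S △ (.nil △ .nil)) = _; rw [wd_node]; simp [wd]⟩
  · have e' : w.1 = app S (ch 2) := e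
    have hn : nd w.1 := by
      rw [e']
      exact nd_app h0 (nd_ch 2)
    have k1 : (cont w.1).count 1 = 1 := by
      rw [e', cont_app, Multiset.count_add, c1]
      have : (cont (ch 2)).count 1 = 0 := by decide
      omega
    have k2 : (cont w.1).count 2 = 1 := by
      rw [e', cont_app, Multiset.count_add, c2]
      have : (cont (ch 2)).count 2 = 1 := by decide
      omega
    obtain ⟨q, B1, H, s, B, w0, hG, rfl, rfl⟩ := h
    obtain ⟨i, hi, ei⟩ := arcs_cases ha
    rw [ei] at hw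
    have e1 : w = TT (gX q B1 H s B w0 i) := hw
    have hi10 : i < 10 := by
      simp only [List.mem_cons, List.not_mem_nil, or_false] at hi
      omega
    by_cases h4 : 4 ≤ OddHC.ht s
    · exact hG.inner_ne h4 w0 hi10 (hn St.e (by intro h2; cases h2)) e1.symm
    · have h3 : OddHC.ht s ≤ 3 := by omega
      have hbad : i ∉ [1, 8, 9] := by
        intro hi2
        have := hG.bad4 h3 w0 hi2
        rw [← e1] at this
        exact hn St.e (by intro h2; cases h2) (bad_dead this St.e)
      have ec : cont w.1 = cont (gX q B1 H s B w0 i).1 := by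
        have e6 : cyc (TT (gX q B1 H s B w0 i)) = cyc (gX q B1 H s B w0 i) := cyc_eq.2 ⟨-1, by simp⟩
        have e7 := congrArg contc e6
        rw [← e1] at e7
        exact e7
      obtain ⟨b1, b2, b3⟩ := hb _ rfl
      change 1 ≤ (cont (gX q B1 H s B w0 0).1).count 1 at b1
      change 1 ≤ (cont (gX q B1 H s B w0 0).1).count 2 at b2
      change ¬ ((cont (gX q B1 H s B w0 0).1).count 1 = 1 ∧ (cont (gX q B1 H s B w0 0).1).count 2 = 1) at b3
      rw [hG.cnt0 w0 (by norm_num)] at b1 b2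
      rw [hG.cnt0 w0 (by norm_num), hG.cnt0 w0 (by norm_num)] at b3
      have hR : 4 ≤ (cont (gR B1 H s B)).sup := by
        rw [← OddHC.ht_eq]
        have := hG.ht
        have := hG.hs3
        omega
      simp only [List.mem_cons, List.not_mem_nil, or_false, not_or] at hi hbad
      rcases hi with rfl | rfl | rfl | rfl | rfl | rfl
      · rw [ec, hG.cnt0 w0 (by norm_num)] at k1 k2
        exact b3 ⟨k1, k2⟩
      · exact hbad.1 rfl
      · rw [ec, hG.word w0 (by norm_num)] at k1
        change (cont (app (gR B1 H s B) (.nil △ ch (q + 1)) △ .nil)).count 1 = 1 at k1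
        rw [cont_node, Multiset.count_add, raise_cnt (by rw [cont_app, Multiset.sup_add]; exact le_trans hR le_sup_left)
          (by norm_num), cont_app, Multiset.count_add, cont_node, Multiset.count_add] at k1
        have : (raise (cont .nil)).count 1 = 1 := by decide
        omega
      · rw [ec, hG.word w0 (by norm_num)] at k1 k2
        change (cont (gR B1 H s B △ ch (q + 2))).count 1 = 1 at k1
        change (cont (gR B1 H s B △ ch (q + 2))).count 2 = 1 at k2
        rw [cont_node, Multiset.count_add, raise_cnt hR (by norm_num)] at k1 k2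
        exact b3 ⟨by omega, by omega⟩
      · exact hbad.2.1 rfl
      · exact hbad.2.2 rfl
  · refine h.inner_of ha (Or.inl ?_) hw
    exact ⟨true :: false :: wd S, by
      rw [e]; change wd (.nil △ (.nil △ S)) = _
      rw [wd_node, wd_node]; simp [wd]⟩

end Pool.OddHC
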