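import Pool.Agent.Work.MP_8f87b2_h27.S5D
import Pool.Agent.Work.MP_8f87b2_h27.Inn6
import Pool.Agent.Work.MP_8f87b2_end.Inv1

/-!
MP_8f87b2_co: E triples over DEEP words (no part 1, 2 in the reduced word): `TyEd` (any phase), `TyEp` (the hop pair has only
prime phases). `NPh u`: the star letter of `u` has a phase which is not prime; then the pair `{X(), ()X}`, `X = C(u,f)`, has an
E triple of type `TyEn`, for EVERY distribution `f` of beads.
-/

set_option autoImplicit false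

namespace Pool.OddHC

open Finset Equiv BinaryTree Pool.Agent.Work.MP_8f87b2_co

variable {j k : ℕ} {F F' : Set (Cyc k)} {g g' : DG k}

/-- deep: no part 1, no part 2 -/
def Deep (r : BinaryTree Unit) : Prop := (cont r).count 1 = 0 ∧ (cont r).count 2 = 0

theorem Deep.low {r : BinaryTree Unit} (h : Deep r) : Low r :=
  ⟨fun h1 => by have := h.1; omega, fun _ h2 => by have := h.2; omega⟩

/-- TYPE Ed: an E triple over a deep word, any phase -/
def TyEd (F : Set (Cyc k)) (g : DG k) : Prop :=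
  ∃ (j : ℕ) (r : X j) (f : ZMod (2 * j + 1) → ℕ), 1 ≤ j ∧ Deep r.1 ∧ IsTri .nil (ins r.1 (lf f)) .nil F g

theorem TyEd.toE (h : TyEd F g) : TyE F g := by
  obtain ⟨j, r, f, h1, h2, h3⟩ := h
  exact ⟨j, r, f, h1, h2.low, h3⟩

/-- TYPE Ep: an E triple over a deep word, for a hop pair without a non-prime phase -/
def TyEp (F : Set (Cyc k)) (g : DG k) : Prop := TyEd F g ∧ ¬ ∃ g' : DG k, TyEn F g'

/-- an E triple over a deep word is of type `En` or the pair can be changed to `En`, or it is of type `Ep` -/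
theorem TyEd.cases' (h : TyEd F g) : (∃ g' : DG k, TyEn F g') ∨ TyEp F g := by
  by_cases h1 : ∃ g' : DG k, TyEn F g'
  · exact Or.inl h1
  · exact Or.inr ⟨h, h1⟩

/-- the star letter of `u` has a phase which is not prime -/
def NPh (u : X j) : Prop := ∃ i : ℕ, sp u i = 0 ∧ ∀ A, ((TT ^ i) u).1 ≠ A △ .nil

/-- the same hop pair in another phase -/
theorem same_pair (u : X j) (f : ZMod (2 * j + 1) → ℕ) {i : ℕ} (hi : sp u i = 0) {w w' v v' : X k}
    (hw : w.1 = .nil △ ins u.1 (lf f)) (hw' : w'.1 = app (ins u.1 (lf f)) (.nil △ .nil))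
    (hv : v.1 = .nil △ ins ((TT ^ i) u).1 (lf f)) (hv' : v'.1 = app (ins ((TT ^ i) u).1 (lf f)) (.nil △ .nil)) :
    cyc w = cyc v ∧ cyc w' = cyc v' := by
  have hl : (lf f).length = 2 * u.1.numNodes + 1 := by rw [lf_length, X_num]
  have hs : j + pkn u.1 + (∑ z, f z + 1) = k := by
    have e1 := X_num w
    rw [hw] at e1
    have e2 : ((.nil : BinaryTree Unit) △ ins u.1 (lf f)).numNodes = (ins u.1 (lf f)).numNodes + 1 := by
      change 0 + _ + 1 = _
      omega
    rw [e2, (ins_num u.1 (lf f) hl).1, X_num, lf_sum] at e1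
    omega
  have h1 : ∀ x : ZMod (2 * j + 1), j + pkn u.1 + ∑ z, (f z + if z = x then 1 else 0) = k := by
    intro x
    rw [Finset.sum_add_distrib, Finset.sum_ite_eq' Finset.univ x, if_pos (Finset.mem_univ x)]
    exact hs
  have x0 : (-1 : ZMod (2 * j + 1)) + 1 = 0 := by ring
  obtain ⟨a1, a2⟩ := star_hop_any u f (-1) (h1 _) (h1 _) (i := 0) (by rw [sp_zero, x0]) (w := w) (w' := w')
    (by rw [hw, x0]; simp) (by rw [hw', x0]; simp)
  obtain ⟨b1, b2⟩ := star_hop_any u f (-1) (h1 _) (h1 _) (i := i) (by rw [hi, x0]) (w := v) (w' := v')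
    (by rw [hv, x0]; simp) (by rw [hv', x0]; simp)
  exact ⟨a1.trans b1.symm, a2.trans b2.symm⟩

/-- **a deep hop pair whose star letter has a phase which is not prime** -/
theorem tyEn_pair (hj : 1 ≤ j) {u : X j} (hd : Deep u.1) (h : NPh u) {f : ZMod (2 * j + 1) → ℕ} {w w' : X k}
    (hw : w.1 = .nil △ ins u.1 (lf f)) (hw' : w'.1 = app (ins u.1 (lf f)) (.nil △ .nil)) (hne : cyc w' ≠ cyc w) :
    ∃ g' : DG k, TyEn {cyc w', cyc w} g' := by
  obtain ⟨i, hi, hn⟩ := h
  have hl : (lf f).length = 2 * u.1.numNodes + 1 := by rw [lf_length, X_num]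
  have hl' : (lf f).length = 2 * ((TT ^ i) u).1.numNodes + 1 := by rw [lf_length, X_num]
  have hnum : (ins ((TT ^ i) u).1 (lf f)).numNodes = (ins u.1 (lf f)).numNodes := by
    rw [(ins_num _ _ hl).1, (ins_num _ _ hl').1, X_num, X_num, pkn_pow]
  have e0 : (ins u.1 (lf f)).numNodes + 1 = k := by
    have e1 := X_num w
    rw [hw] at e1
    have e2 : ((.nil : BinaryTree Unit) △ ins u.1 (lf f)).numNodes = (ins u.1 (lf f)).numNodes + 1 := by
      change 0 + _ + 1 = _
      omega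
    omega
  set X' := ins ((TT ^ i) u).1 (lf f) with hX'
  have m1 : (w1 .nil X' .nil).numNodes = k := by
    change X'.numNodes + 0 + 1 = k
    omega
  have m2 : (w1 X' .nil .nil).numNodes = k := by
    rw [w1, num_app]
    change X'.numNodes + 1 = k
    omega
  have m3 : (w1 .nil .nil X').numNodes = k := by
    change 0 + X'.numNodes + 1 = k
    omega
  let a' : X k := ⟨_, mem_treesOfNumNodesEq.2 m1⟩
  let b' : X k := ⟨_, mem_treesOfNumNodesEq.2 m2⟩
  let c' : X k := ⟨_, mem_treesOfNumNodesEq.2 m3⟩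
  obtain ⟨q1, q2⟩ := same_pair u f hi (w := w) (w' := w') (v := c') (v' := b') hw hw' rfl rfl
  have hX0 : X' ≠ .nil := by
    intro e
    have e1 := congrArg BinaryTree.numNodes e
    rw [hX', (ins_num _ _ hl').1, X_num] at e1
    change _ = 0 at e1
    omega
  have hX1 : 1 ≤ OddHC.ht X' := by
    cases hX : X' with
    | nil => exact absurd hX hX0
    | node _ A B =>
      rw [ht_node]
      omega
  refine ⟨pDG {a', b', c'} (cyc b') (cyc c') ∅, j, (TT ^ i) u, f, hj, Deep.low ?_, hn, ?_⟩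
  · unfold Deep
    rw [cont_pow]
    exact hd
  · refine ⟨a', b', c', rfl, rfl, rfl, ?_, ?_, ?_, ?_, rfl⟩
    · rw [← q1, ← q2]; exact hne
    · rw [htc_cyc, htc_cyc]
      change OddHC.ht (app X' (.nil △ .nil)) = OddHC.ht (.nil △ X')
      rw [ht_app, ht_node, ht_node]
      omega
    · rw [htc_cyc, htc_cyc]
      change OddHC.ht (app X' (.nil △ .nil)) < OddHC.ht (X' △ .nil)
      rw [ht_app, ht_node, ht_node]
      have h0 : OddHC.ht (.nil : BinaryTree Unit) = 0 := rfl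
      omega
    · rw [← q1, ← q2]

/-- **a deep E triple whose star letter has a phase which is not prime** -/
theorem tyEn_of_NPh (hj : 1 ≤ j) {u : X j} (hd : Deep u.1) (h : NPh u) {f : ZMod (2 * j + 1) → ℕ}
    (ht : IsTri .nil (ins u.1 (lf f)) .nil F g) : ∃ g' : DG k, TyEn F g' := by
  obtain ⟨a, b, c, ha, hb, hc, h1, h2, h3, rfl, rfl⟩ := ht
  exact tyEn_pair hj hd h hc hb h1

/-- GOOD: the star letter of `(R')` has a phase which is not prime (if `(R')` is deep) -/
def GoodP (R' : BinaryTree Unit) : Prop := ∀ (j : ℕ) (u : X j), u.1 = R' △ .nil → Deep u.1 → NPh u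

/-! ### The rows `Ep - K` and `Ep - L` -/

/-- the only conflict of an E triple with `K` -/
theorem E_K {Y S : BinaryTree Unit} (ht : IsTri .nil Y .nil F g) (h' : TyK S F' g') (hS : 2 ≤ OddHC.ht S)
    (hd : ∀ c ∈ F, c ∉ F')
    (hne : ∀ w w' : X k, w.1 = .nil △ (S △ .nil) → w'.1 = app (S △ .nil) (.nil △ .nil) → F ≠ {cyc w', cyc w}) :
    ∀ w ∈ g.B, w ∉ g'.B := by
  refine conflict_EK ht h' hS hd ?_
  rintro rfl
  obtain ⟨a, b, c, ha, hb, hc, h1, h2, h3, h4, h5⟩ := ht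
  exact hne c b hc hb h4

/-- **Ep - K**, `S = C(R', e)`, `R'` good -/
theorem dj_EpK {S R' : BinaryTree Unit} {e : List ℕ} (h : TyEp F g) (h' : TyK S F' g') (hS : 2 ≤ OddHC.ht S)
    (hR0 : R' ≠ .nil) (hl : e.length = 2 * R'.numNodes + 1) (hSe : S = ins R' e) (hG : GoodP R')
    (hd : ∀ c ∈ F, c ∉ F') : ∀ w ∈ g.B, w ∉ g'.B := by
  obtain ⟨⟨j, r, f, hj, hD, ht⟩, hn⟩ := h
  refine conflict_EK ht h' hS hd ?_
  intro e0
  apply hn
  refine tyEn_of_NPh hj hD (hG j r ?_ hD) ht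
  refine red_prime (f := lf f) hR0 hl 0 0 (by rw [lf_length, X_num]) ?_
  rw [e0, hSe]
  rfl

/-- **Ep - L**, `R'` good -/
theorem dj_EpL {R' : BinaryTree Unit} {e : List ℕ} (h : TyEp F g) (hR0 : R' ≠ .nil)
    (hl : e.length = 2 * R'.numNodes + 1) (hG : GoodP R') (h' : IsTri (lp 1) (ins R' e) (lp 1) F' g')
    (hd : ∀ c ∈ F, c ∉ F') : ∀ w ∈ g.B, w ∉ g'.B := by
  obtain ⟨⟨j, r, f, hj, hD, ht⟩, hn⟩ := h
  refine conflict_EL ?_ ht hR0 hl le_rfl le_rfl h' hd ?_
  · intro e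
    apply ht.new_ne
    rw [e]
  · intro a b e0
    exact hn (tyEn_of_NPh hj hD (hG j r (red_prime hR0 hl a b (by rw [lf_length, X_num]) e0.symm) hD) ht)

/-- TYPE Lg: `L` with a good `R'` -/
def TyLg (F : Set (Cyc k)) (g : DG k) : Prop :=
  ∃ (R' : BinaryTree Unit) (e : List ℕ), R' ≠ .nil ∧ e.length = 2 * R'.numNodes + 1 ∧
    H1.fb (ins R' e) = false ∧ H1.lastB (ins R' e) = false ∧ GoodP R' ∧
    IsTri (lp 1) (ins R' e) (lp 1) F g

theorem TyLg.toL (h : TyLg F g) : TyL F g := by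
  obtain ⟨R', e, h1, h2, h3, h4, _, h5⟩ := h
  exact ⟨R', e, h1, h2, h3, h4, h5⟩

theorem dj_EpLg : Dj (k := k) TyEp TyLg := by
  intro F g F' g' h h' hd
  obtain ⟨R', e, h1, h2, h3, h4, h5, h6⟩ := h'
  exact dj_EpL h h1 h2 h5 h6 hd

/-- TYPE Kg: `K` (right) with a good reduced word -/
def TyKg (F : Set (Cyc k)) (g : DG k) : Prop :=
  ∃ S : BinaryTree Unit, 2 ≤ OddHC.ht S ∧ GoodP (red S).1 ∧ TyK S F g

theorem dj_EpKg : Dj (k := k) TyEp TyKg := by
  intro F g F' g' h h' hd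
  obtain ⟨S, hS, hG, ht⟩ := h'
  refine dj_EpK h ht hS ?_ (red_len S) (ins_red S).symm hG hd
  intro h2
  have h1 : S = ins (red S).1 (red S).2 := (ins_red S).symm
  rw [h2] at h1
  have h3 : OddHC.ht S ≤ 1 := by
    rw [h1, ins]
    exact ht_lp _
  omega

/-- **Ed - K** for a hop pair which is not `{(S)(), ()(S)}` -/
theorem dj_EdK {S : BinaryTree Unit} (h : TyEd F g) (h' : TyK S F' g') (hS : 2 ≤ OddHC.ht S)
    (hd : ∀ c ∈ F, c ∉ F')
    (hne : ∀ w w' : X k, w.1 = .nil △ (S △ .nil) → w'.1 = app (S △ .nil) (.nil △ .nil) → F ≠ {cyc w', cyc w}) :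
    ∀ w ∈ g.B, w ∉ g'.B := by
  obtain ⟨j, r, f, hj, hD, ht⟩ := h
  exact E_K ht h' hS hd hne

/-- if the vertex `(S)()` or `()(S)` is new in another group, the hop pair is different -/
theorem ne_of_new {c : Cyc k} (hc : c ∉ F) (w w' : X k) (h : c = cyc w ∨ c = cyc w') :
    F ≠ {cyc w', cyc w} := by
  rintro rfl
  rcases h with rfl | rfl
  · exact hc (Or.inr rfl)
  · exact hc (Or.inl rfl)

/-! ### The plain rows which hold for all phases -/

theorem dj_EdE : Dj (k := k) TyEd TyE := fun F g F' g' h h' hd => dj_EE F g F' g' h.toE h' hd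

theorem dj_EdEd : Dj (k := k) TyEd TyEd := fun F g F' g' h h' hd => dj_EE F g F' g' h.toE h'.toE hd

theorem dj_EdCr : Dj (k := k) TyEd TyCr := fun F g F' g' h h' hd => dj_ECr F g F' g' h.toE h' hd

theorem dj_EdCl : Dj (k := k) TyEd TyCl := fun F g F' g' h h' hd => dj_ECl F g F' g' h.toE h' hd

/-! ### Contents -/

/-- the words of a deep E triple have no part 2, 3 -/
theorem TyEd.no23 (h : TyEd F g) : ∀ w ∈ g.B, (cont w.1).count 2 = 0 ∧ (cont w.1).count 3 = 0 := by
  obtain ⟨j, r, f, hj, hD, ht⟩ := h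
  have hl : (lf f).length = 2 * r.1.numNodes + 1 := by rw [lf_length, X_num]
  have e2 : (cont (ins r.1 (lf f))).count 2 = 0 := by
    rw [H1.count_ins hl 0]; exact hD.1
  have e3 : (cont (ins r.1 (lf f))).count 3 = 0 := by
    rw [H1.count_ins hl 1]; exact hD.2
  have hr0 : r.1 ≠ .nil := by
    intro e
    have e1 := X_num r
    rw [e] at e1
    change 0 = j at e1
    omega
  have hs : 4 ≤ (cont (ins r.1 (lf f))).sup := by
    have h0 : cont r.1 ≠ 0 := fun e => hr0 (cont_eq_zero.1 e)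
    have h1 := sup_mem h0
    have h2 : (cont r.1).count (cont r.1).sup ≠ 0 := Multiset.count_ne_zero.2 h1
    have h3 : (cont r.1).sup ≠ 1 := by
      intro e; rw [e] at h2; exact h2 hD.1
    have h4 : (cont r.1).sup ≠ 2 := by
      intro e; rw [e] at h2; exact h2 hD.2
    have h5 : 1 ≤ (cont r.1).sup := cont_pos _ _ h1
    obtain ⟨b, hb⟩ : ∃ b, (cont r.1).sup = b + 1 := ⟨_, (Nat.sub_add_cancel h5).symm⟩
    have h6 : (cont (ins r.1 (lf f))).count (b + 2) = (cont r.1).count (b + 1) := H1.count_ins hl b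
    rw [hb] at h2
    rw [← h6] at h2
    have h7 := Multiset.le_sup (Multiset.count_ne_zero.1 h2)
    omega
  intro w hw
  rcases ht.words w hw with e | ⟨_, e | e⟩
  · rw [e]
    change (cont (ins r.1 (lf f) △ .nil)).count 2 = 0 ∧ (cont (ins r.1 (lf f) △ .nil)).count 3 = 0
    rw [cont_node, cont_nil, add_zero, count_raise 2 (by omega) (by omega), count_raise 3 (by omega) (by omega)]
    exact ⟨e2, e3⟩
  · rw [e]
    change (cont (app (ins r.1 (lf f)) (.nil △ .nil))).count 2 = 0 ∧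
      (cont (app (ins r.1 (lf f)) (.nil △ .nil))).count 3 = 0
    rw [cont_app, Multiset.count_add, Multiset.count_add, e2, e3]
    decide
  · rw [e]
    change (cont (.nil △ ins r.1 (lf f))).count 2 = 0 ∧ (cont (.nil △ ins r.1 (lf f))).count 3 = 0
    rw [cont_node, Multiset.count_add, Multiset.count_add, e2, e3]
    decide

/-- **the content argument** for words and inner words -/
theorem TyEd.not_mem (h : TyEd F g) {w : X k} (hw : 1 ≤ (cont w.1).count 2 ∨ 1 ≤ (cont w.1).count 3) : w ∉ g.B := by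
  intro h1
  have := h.no23 w h1
  omega

theorem two_raise {M : Multiset ℕ} (h : 2 ∈ M) (h2 : 3 ≤ M.sup) : 2 ∈ raise M := by
  unfold raise
  rw [Multiset.mem_cons]
  right
  exact (Multiset.mem_erase_of_ne (by omega)).2 h

/-- a part 2 and height at least 3 -/
def T2 (P : BinaryTree Unit) : Prop := 2 ∈ cont P ∧ 3 ≤ (cont P).sup

theorem T2.nl {A : BinaryTree Unit} (h : T2 A) (Y : BinaryTree Unit) : T2 (A △ Y) := by
  refine ⟨?_, ?_⟩
  · rw [cont_node, Multiset.mem_add]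
    exact Or.inl (two_raise h.1 h.2)
  · rw [cont_node, Multiset.sup_add]
    exact le_trans (by rw [sup_raise]; have := h.2; omega) le_sup_left

theorem T2.nr {Y : BinaryTree Unit} (h : T2 Y) (A : BinaryTree Unit) : T2 (A △ Y) := by
  refine ⟨?_, ?_⟩
  · rw [cont_node, Multiset.mem_add]
    exact Or.inr h.1
  · rw [cont_node, Multiset.sup_add]
    exact le_trans h.2 le_sup_right

theorem T2.al {P : BinaryTree Unit} (h : T2 P) (Q : BinaryTree Unit) : T2 (app P Q) := by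
  refine ⟨?_, ?_⟩
  · rw [cont_app, Multiset.mem_add]
    exact Or.inl h.1
  · rw [cont_app, Multiset.sup_add]
    exact le_trans h.2 le_sup_left

theorem T2.ar {Q : BinaryTree Unit} (h : T2 Q) (P : BinaryTree Unit) : T2 (app P Q) := by
  refine ⟨?_, ?_⟩
  · rw [cont_app, Multiset.mem_add]
    exact Or.inr h.1
  · rw [cont_app, Multiset.sup_add]
    exact le_trans h.2 le_sup_right

/-- all twenty words -/
theorem T2.words {R Q B S : BinaryTree Unit} (hR : T2 R) (hS : T2 S) {i : ℕ} (hi : i < 20) : T2 (H1.W R Q B S i) := by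
  interval_cases i
  · exact hR.al _
  · exact hR.al _
  · exact (hR.al _).nr _
  · exact (hR.al _).nl _
  · exact hR.nr _
  · exact (hR.nr _).nr _
  · exact hR.nl _
  · exact ((hR.nr _).nl _).ar _
  · exact ((hR.nl _).nr _).ar _
  · exact (hR.nl _).nl _
  · exact (hS.nr _).ar _
  · exact (((hS.nr _).ar _).nr _).ar _
  · exact hS.nl _
  · exact hS.al _
  · exact ((hS.nr _).ar _).nl _
  · exact (hS.nl _).nr _
  · exact hS.al _
  · exact ((hS.nl _).nl _).ar _
  · exact ((hS.al _).nr _).ar _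
  · exact (hS.al _).nl _

/-- a part 2 of `R` is in the content of all twenty words of a window -/
theorem NodeG_two {q : ℕ} {B1 H s B : BinaryTree Unit} (h : H1.NodeG k q B1 H s B) (w0 : X k)
    (h1 : 2 ∈ cont (H1.gR B1 H s B)) {i : ℕ} (hi : i < 20) : 2 ∈ cont (H1.gX q B1 H s B w0 i).1 := by
  rw [h.word w0 hi]
  have a1 := h.ht
  have a2 := h.hs3
  have hD := h.dat
  have hR : 3 ≤ (cont (H1.gR B1 H s B)).sup := by
    rw [← OddHC.ht_eq]
    omega
  have hS : 3 ≤ (cont (Tsq.sq (H1.gR B1 H s B)).1).sup := by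
    rw [← OddHC.ht_eq, hD.htS]
    omega
  have h2 : 2 ∈ cont (Tsq.sq (H1.gR B1 H s B)).1 := by
    have h1' := h1
    rw [← hD.cont, Multiset.mem_add] at h1'
    rcases h1' with h1' | h1'
    · have := h.bare _ h1'
      omega
    · exact h1'
  exact (T2.words ⟨h1, hR⟩ ⟨h2, hS⟩ hi).1

/-- **Ed - A**, windows with a part 2 (`a ≥ 1`) -/
theorem dj_EdA (h : TyEd F g) (h' : TyA F' g') (h2 : ∀ c ∈ F', 2 ∈ contc c) : ∀ w ∈ g.B, w ∉ g'.B := by
  intro w hw hw'
  obtain ⟨q, B1, H, s, B, w0, hG, rfl, rfl⟩ := h'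
  obtain ⟨i, hi, rfl⟩ := mem_gad20.1 hw'
  have h3 : 2 ∈ cont (H1.gX q B1 H s B w0 0).1 := h2 _ rfl
  rw [hG.cont0, Multiset.mem_add, Multiset.mem_singleton] at h3
  have h4 : 2 ∈ cont (H1.gR B1 H s B) := by
    rcases h3 with h3 | h3
    · exact h3
    · omega
  exact h.not_mem (Or.inl (Multiset.count_pos.2 (NodeG_two hG w0 h4 hi))) hw

/-- inner words of windows with a part 2 -/
theorem TyA.inner_Ed (h : TyA F g) (h' : TyEd F' g') (h2 : ∀ c ∈ F, 2 ∈ contc c) {a : X k × X k} (ha : a ∈ g.arcs) :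
    ∀ w ∈ innA a, w ∉ g'.B := by
  intro w hw
  obtain ⟨q, B1, H, s, B, w0, hG, rfl, rfl⟩ := h
  have h3 : 2 ∈ cont (H1.gX q B1 H s B w0 0).1 := h2 _ rfl
  rw [hG.cont0, Multiset.mem_add, Multiset.mem_singleton] at h3
  have h4 : 2 ∈ cont (H1.gR B1 H s B) := by
    rcases h3 with h3 | h3
    · exact h3
    · omega
  obtain ⟨i, hi, e⟩ := arcs_cases ha
  rw [e] at hw
  have e1 : w = TT (H1.gX q B1 H s B w0 i) := hw
  have hi' : i < 20 := by
    simp only [List.mem_cons, List.not_mem_nil, or_false] at hi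
    omega
  have e6 : cyc (TT (H1.gX q B1 H s B w0 i)) = cyc (H1.gX q B1 H s B w0 i) := cyc_eq.2 ⟨-1, by simp⟩
  have e7 : cont w.1 = cont (H1.gX q B1 H s B w0 i).1 := by
    have := congrArg contc e6
    rw [← e1] at this
    exact this
  refine h'.not_mem (Or.inl (Multiset.count_pos.2 ?_))
  rw [e7]
  exact NodeG_two hG w0 h4 hi'

/-- **Ed - S5**: `K22` never; LONG only for `X = ()^(n-1)([s])` -/
theorem dj_EdS5 (h : TyEd F g) (h' : TyS5 F' g') (hd : ∀ c ∈ F, c ∉ F')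
    (h1 : ∀ n s, TyLo (n + 1) s F' g' → ∀ w w' : X k, w.1 = .nil △ w1 (lp n) (H1.ch s) .nil →
      w'.1 = app (w1 (lp n) (H1.ch s) .nil) (.nil △ .nil) → F ≠ {cyc w', cyc w})
    (h2 : ∀ n s, ¬ TyLm (n + 1) s F' g') : ∀ w ∈ g.B, w ∉ g'.B := by
  obtain ⟨j, r, f, hj, hD, ht⟩ := h
  obtain ⟨s, n, hs, hn, h' | h' | h'⟩ := h'.cases'
  · refine E_Lo (by omega) (by omega) ht h' ?_ hd
    intro e
    rw [e] at ht
    obtain ⟨a, b, c, ha, hb, hc, q1, q2, q3, q4, q5⟩ := ht
    exact h1 (n + 2 - 1) s (by rwa [show n + 2 - 1 + 1 = n + 2 by omega]) c b hc hb q4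
  · exact absurd h' (h2 (n + 1) s)
  · refine E_K2 (by omega) ht h' ?_ hd
    intro e
    have hl : (lf f).length = 2 * r.1.numNodes + 1 := by rw [lf_length, X_num]
    have e2 : (cont (ins r.1 (lf f))).count 2 = 0 := by
      rw [H1.count_ins hl 0]; exact hD.1
    rw [e, cont_node, Multiset.count_add] at e2
    have : (cont (H1.ch 2)).count 2 = 1 := by decide
    omega

end Pool.OddHC
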