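import Pool.Agent.Work.MP_8f87b2_h27.Mark
import Pool.Agent.Work.MP_8f87b2_mid.Types

/-!
MP_8f87b2_co: plain triples `P(Q)R` with unmarked `P`, `Q`, `R` never meet an H1 window: A-K, A-C, A-C' (and A with every
plain triple whose three parts are unmarked as insides of components). `UM P`: `P` has no marked component and is not the
inside of a marked component.
-/

set_option autoImplicit false

namespace Pool.OddHC

open BinaryTree

namespace H1

/-- unmarked: no marked component, and not the inside of a marked component -/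
def UM (P : BinaryTree Unit) : Prop := mk P = false

theorem UM.am {P : BinaryTree Unit} (h : UM P) : am P = false := by
  have h' : (PB P || H1.am P) = false := h
  exact (Bool.or_eq_false_iff.1 h').2

theorem UM.PB {P : BinaryTree Unit} (h : UM P) : PB P = false := by
  have h' : (H1.PB P || H1.am P) = false := h
  exact (Bool.or_eq_false_iff.1 h').1

theorem um_nil : UM .nil := rfl

theorem um_ch (c : ℕ) : UM (ch c) := mk_ch c

/-- heavy words are unmarked -/
theorem um_hv {A : BinaryTree Unit} (h : hv A) : UM A := by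
  change (H1.PB A || H1.am A) = false
  rw [hv_PB h, hv_am h]
  rfl

theorem um_gd {A : BinaryTree Unit} (h : gd A) : UM A := gd_mk h

theorem PB_app_hv {A B : BinaryTree Unit} (h : hv A) (h0 : A ≠ .nil) : H1.PB (app A B) = false := by
  cases A with
  | nil => exact absurd rfl h0
  | node _ A X =>
    change (light A && _) = false
    rw [gd_light h.1]
    rfl

/-- `S0` heavy, then beads and pairs `(())`: unmarked -/
theorem um_app {A B : BinaryTree Unit} (h : hv A) (h0 : A ≠ .nil) (hB : am B = false) : UM (app A B) := by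
  change (H1.PB (app A B) || H1.am (app A B)) = false
  rw [PB_app_hv h h0, am_app, hv_am h, hB]
  rfl

theorem am_lp (m : ℕ) : am (lp m) = false := by
  induction m with
  | zero => rfl
  | succ m ih =>
    change am (.nil △ lp m) = false
    rw [am_node, ih]
    rfl

/-- `S0 ()^m`, `S0` heavy -/
theorem um_back {A : BinaryTree Unit} (m : ℕ) (h : hv A) (h0 : A ≠ .nil) : UM (app A (lp m)) :=
  um_app h h0 (am_lp m)

theorem um_w1 {P Q R : BinaryTree Unit} (hP : am P = false) (hQ : UM Q) (hR : am R = false) :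
    am (w1 P Q R) = false := am_w1_iff.2 ⟨hP, hQ, hR⟩

end H1

variable {k : ℕ} {P Q R : BinaryTree Unit} {F F' : Set (Cyc k)} {g g' : DG k}

open H1

/-- the words of a plain triple with unmarked parts are unmarked -/
theorem IsTri.unmarked (h : IsTri P Q R F g) (hP : UM P) (hQ : UM Q) (hR : UM R) :
    ∀ w ∈ g.B, am w.1 = false := by
  intro w hw
  rcases h.words w hw with e | ⟨_, e | e⟩
  · rw [e]; exact um_w1 hP.am hQ hR.am
  · rw [e]; exact um_w1 hQ.am hR hP.am
  · rw [e]; exact um_w1 hR.am hP hQ.am

theorem TyA.marked (h : TyA F g) : ∀ w ∈ g.B, am w.1 = true := by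
  obtain ⟨q, B1, H, s, B, w0, h1, rfl, rfl⟩ := h
  intro w hw
  obtain ⟨i, hi, rfl⟩ := mem_gad20.1 hw
  exact h1.am_word w0 hi

/-- **A against every unmarked plain triple** -/
theorem TyA.disj_tri (h : TyA F g) (h' : IsTri P Q R F' g') (hP : UM P) (hQ : UM Q) (hR : UM R) :
    ∀ w ∈ g.B, w ∉ g'.B := by
  intro w hw hw'
  have h1 := h.marked w hw
  rw [h'.unmarked hP hQ hR w hw'] at h1
  exact absurd h1 (by simp)

/-- **A - K** -/
theorem TyA.disj_K {S : BinaryTree Unit} (h : TyA F g) (h' : TyK S F' g') (hS : UM S) : ∀ w ∈ g.B, w ∉ g'.B :=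
  h.disj_tri h' um_nil hS rfl

/-- **A - C** -/
theorem TyA.disj_C {c : ℕ} {S : BinaryTree Unit} (h : TyA F g) (h' : TyC c S F' g') (hS : UM S) :
    ∀ w ∈ g.B, w ∉ g'.B := h.disj_tri h' um_nil hS (um_ch c)

/-- **A - C'** -/
theorem TyA.disj_C' {c : ℕ} {S : BinaryTree Unit} (h : TyA F g) (h' : TyC' c S F' g') (hS : UM S) :
    ∀ w ∈ g.B, w ∉ g'.B := h.disj_tri h' (um_ch c) hS um_nil

end Pool.OddHC
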