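import Pool.Agent.Work.MP_8f87b2_h20.S5Cls

/-!
# Section 5, part P: two big solitons `(s, t)`

`Uq_pair`: one T-cycle of the content `{a, b}`; `P_link`: the content link `(s, t) - (s, t - 1, 1)`; `cls_P`, `cls_P1`:
the classes `(s, t)` and `(s, c, 1)`; `cl_P`: equal contents give equal classes.
-/

set_option autoImplicit false

namespace Pool.OddHC

open Finset Equiv BinaryTree Multiset Ring1 Pool.OddHop Pool.Agent.Work.MP_8f87b2_co

namespace S5

variable {k j : ℕ} {τp τw : Type}

/-- only ones in the content -/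
theorem eq_lp_of_cont {r : BinaryTree Unit} {n : ℕ} (h : cont r = replicate n 1) : r = lp n := by
  induction r generalizing n with
  | nil =>
    rw [cont_nil] at h
    have h1 := congrArg Multiset.card h
    rw [Multiset.card_zero, Multiset.card_replicate] at h1
    subst h1
    rfl
  | node _ A B _ ih =>
    rw [cont_node] at h
    have h1 : (cont A).sup + 1 ∈ raise (cont A) + cont B :=
      Multiset.mem_add.2 (Or.inl (Multiset.mem_cons_self _ _))
    rw [h] at h1
    have h2 := Multiset.eq_of_mem_replicate h1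
    have h3 : ht A = 0 := by
      rw [ht_eq]
      omega
    have hA : A = .nil := by
      cases A with
      | nil => rfl
      | node _ C D =>
        rw [ht] at h3
        omega
    subst hA
    rw [cont_nil, raise_nil] at h
    obtain ⟨m, rfl⟩ : ∃ m, n = m + 1 := by
      rcases Nat.eq_zero_or_pos n with h4 | h4
      · subst h4
        have h5 := congrArg Multiset.card h
        rw [Multiset.card_add, Multiset.card_singleton, Multiset.card_replicate] at h5
        omega
      · exact ⟨n - 1, by omega⟩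
    rw [Multiset.replicate_succ, ← Multiset.singleton_add] at h
    have h5 := ih (add_left_cancel h)
    rw [h5]
    rfl

theorem Uq_ones (n : ℕ) : Uq k (replicate n 1) := by
  intro p q hp hq
  obtain ⟨w, rfl⟩ := Quotient.exists_rep p
  obtain ⟨v, rfl⟩ := Quotient.exists_rep q
  have h1 : w.1 = lp n := eq_lp_of_cont hp
  have h2 : v.1 = lp n := eq_lp_of_cont hq
  have : w = v := Subtype.ext (h1.trans h2.symm)
  rw [this]

/-- **one T-cycle of the content `{a, b}`** -/
theorem Uq_pair {a b : ℕ} (hb : 1 ≤ b) (hab : b ≤ a) : Uq k ({a} + {b}) := by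
  induction b generalizing a k with
  | zero => omega
  | succ b ih =>
    rcases Nat.eq_zero_or_pos b with h | h
    · subst h
      rcases Nat.lt_or_ge 1 a with h1 | h1
      · obtain ⟨n, rfl⟩ : ∃ n, a = n + 1 := ⟨a - 1, by omega⟩
        exact Uq_one n (by omega)
      · obtain rfl : a = 1 := by omega
        exact Uq_ones 2
    · obtain ⟨a', rfl⟩ : ∃ a', a = a' + 1 := ⟨a - 1, by omega⟩
      have h1 : ({a' + 1} + {b + 1} : Multiset ℕ) = ({a'} + {b} : Multiset ℕ).map (· + 1) := by
        rw [Multiset.map_add, Multiset.map_singleton, Multiset.map_singleton]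
      rw [h1]
      refine Uq_inf ?_ ?_ (ih h (by omega))
      · intro hx
        rcases Multiset.mem_add.1 hx with hx | hx
        · have := Multiset.mem_singleton.1 hx
          omega
        · have := Multiset.mem_singleton.1 hx
          omega
      · intro h2
        have := congrArg Multiset.card h2
        simp at this

theorem oddF_oneP (j : ℕ) : oddF j 1 := by
  have h1 : Nat.card (Ms (2 * j + 1) 1) = 2 * j + 1 := by
    have e1 : Nat.card (Ms (2 * j + 1) 1) = Nat.card (Sym (ZMod (2 * j + 1)) 1) :=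
      (Nat.card_congr (Sym.equivNatSumOfFintype (ZMod (2 * j + 1)) 1)).symm
    rw [e1, Nat.card_eq_fintype_card, Sym.card_sym_eq_choose, ZMod.card]
    simp
  unfold oddF
  rw [h1]
  exact ⟨j, rfl⟩

theorem pair_pos {a b : ℕ} (hb : 1 ≤ b) (hab : b ≤ a) : (0 : ℕ) ∉ ({a} + {b} : Multiset ℕ) := by
  intro hx
  rcases Multiset.mem_add.1 hx with hx | hx
  · have := Multiset.mem_singleton.1 hx
    omega
  · have := Multiset.mem_singleton.1 hx
    omega

/-- the reduced T-cycle of a T-cycle of the content `(a + 1, b + 1, 1^m)` -/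
theorem Rd_pair {a b m : ℕ} (hb : 1 ≤ b) (hab : b ≤ a) {p : Cyc k}
    (h : contc p = {a + 1} + {b + 1} + replicate m 1) :
    contc (Rd p).2 = {a} + {b} ∧ (Rd p).1 = a + b ∧ (contc p).count 1 = m := by
  have h1 : contc p = ({a} + {b} : Multiset ℕ).map (· + 1) + replicate m 1 := by
    rw [h, Multiset.map_add, Multiset.map_singleton, Multiset.map_singleton]
  obtain ⟨g1, g2, g3⟩ := Rd_cont (pair_pos hb hab) h1
  refine ⟨g1, ?_, g3⟩
  rw [g2, Multiset.sum_add, Multiset.sum_singleton, Multiset.sum_singleton]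

variable {Pp : τp → Set (Cyc k) → DG k → Prop} {Pw : τw → Set (Cyc k) → DG k → Prop}

/-- **the class `(a + 1, b + 1)`**: its only T-cycle is used by a link -/
theorem cls_P (hE : ∀ F g, TyE F g → ∃ t, Pp t F g) {a b : ℕ} (hb : 1 ≤ b) (hab : b ≤ a) {p0 : Cyc k}
    (h0 : contc p0 = {a + 1} + {b + 1}) (X : Set (Cyc k))
    (hX : ∀ p : Cyc k, contc p = {a + 1} + {b + 1} → p ∈ X) :
    ∃ Gp Gw, ClsOK (AEp Pp) (cl p0) X Gp Gw Pp Pw := by
  have h1 : contc p0 = {a + 1} + {b + 1} + replicate 0 1 := by rw [h0, Multiset.replicate_zero, add_zero]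
  obtain ⟨g1, g2, g3⟩ := Rd_pair hb hab h1
  refine cls_fam0 hE p0 X ?_ (D := Set.univ) (remOK_all _ _ fun _ _ => Set.mem_univ _) ?_
  · rw [g1]
    exact Uq_pair hb hab
  · intro p hp
    refine ⟨fun _ => Set.mem_univ _, fun _ => hX p ?_⟩
    rw [← h0]
    exact contc_of_Rd (by rw [hp]) (by rw [hp])

/-- **the class `(a + 1, b + 1, 1)`**: one T-cycle is used by a link, pairs on the rest -/
theorem cls_P1 (hE : ∀ F g, TyE F g → ∃ t, Pp t F g) {a b : ℕ} (hb : 1 ≤ b) (hab : b ≤ a) {p0 q : Cyc k}
    (h0 : contc p0 = {a + 1} + {b + 1} + {1}) (hq : contc q = {a + 1} + {b + 1} + {1}) (X : Set (Cyc k))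
    (hX : ∀ p : Cyc k, contc p = {a + 1} + {b + 1} + {1} → (p ∈ X ↔ p = q)) :
    ∃ Gp Gw, ClsOK (AEp Pp) (cl p0) X Gp Gw Pp Pw := by
  have h1 : contc p0 = ({a} + {b} : Multiset ℕ).map (· + 1) + replicate 1 1 := by
    rw [h0, Multiset.map_add, Multiset.map_singleton, Multiset.map_singleton]
    rfl
  have h2 : contc q = ({a} + {b} : Multiset ℕ).map (· + 1) + replicate 1 1 := by
    rw [hq, Multiset.map_add, Multiset.map_singleton, Multiset.map_singleton]
    rfl
  obtain ⟨g1, g2, g3⟩ := Rd_cont (pair_pos hb hab) h1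
  have hR := Rd_of_Uq (pair_pos hb hab) (Uq_pair hb hab) h2 h1
  refine cls_fam_one hE p0 X ?_ ?_ hR ?_ ?_
  · rw [g1]
    exact Uq_pair hb hab
  · rw [g3]
    exact oddF_oneP _
  · intro h
    rw [g3] at h
    omega
  · intro p hp
    refine hX p ?_
    rw [← h0]
    exact contc_of_Rd (by rw [hp]) (by rw [hp])

/-- equal contents `(a, b, 1^m)`, equal classes -/
theorem cl_P {a b m : ℕ} (hb : 1 ≤ b) (hab : b ≤ a) {p q : Cyc k}
    (h : contc p = {a + 2} + {b + 2} + replicate m 1) (h' : contc q = {a + 2} + {b + 2} + replicate m 1) :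
    cl p = cl q := by
  have e : ({a + 2} + {b + 2} + replicate m 1 : Multiset ℕ) =
      ({a} + {b} : Multiset ℕ).map (· + 2) + replicate 0 2 + replicate m 1 := by
    rw [Multiset.map_add, Multiset.map_singleton, Multiset.map_singleton, Multiset.replicate_zero, add_zero]
  rw [e] at h h'
  exact cl_of_cont (pair_pos hb hab) (Uq_pair hb hab) h h'

/-- **THE LINK** `(s, t) - (s, t - 1, 1)`, `t = c + 1` -/
theorem P_link {s c : ℕ} (hc : 2 ≤ c) (hcs : c + 1 ≤ s) (hk : s + (c + 1) = k) :
    ∃ (p q : Cyc k) (g : DG k), contc p = {s} + {c + 1} ∧ contc q = {s} + {c} + {1} ∧ p ≠ q ∧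
      htc p = s ∧ htc q = s ∧ (Odd c → TyCr {p, q} g) ∧ (Even c → TyCl {p, q} g) := by
  have cs : cont (H1.ch s) = {s} := c_ch (by omega)
  have cc : cont (H1.ch c) = {c} := c_ch (by omega)
  have r1 : raise ({s} : Multiset ℕ) = {s + 1} := by
    have := raise_top (s := s) (M := 0) (fun x hx => absurd hx (Multiset.notMem_zero x))
    rwa [add_zero, add_zero] at this
  have r2 : raise ({c} : Multiset ℕ) = {c + 1} := by
    have := raise_top (s := c) (M := 0) (fun x hx => absurd hx (Multiset.notMem_zero x))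
    rwa [add_zero, add_zero] at this
  have n1 : (H1.ch s).numNodes = s := by
    rw [← cont_sum, cs, Multiset.sum_singleton]
  have n2 : (H1.ch c).numNodes = c := by
    rw [← cont_sum, cc, Multiset.sum_singleton]
  -- the contents of the three words
  have k1 : cont (w1 .nil (H1.ch s) (H1.ch c)) = {s + 1} + {c} := by
    rw [cont_w1, cont_nil, cs, cc, r1, zero_add]
  have k2 : cont (w1 (H1.ch s) (H1.ch c) .nil) = {s} + {c + 1} := by
    rw [cont_w1, cont_nil, cs, cc, r2, add_zero]
  have k3 : cont (w1 (H1.ch c) .nil (H1.ch s)) = {s} + {c} + {1} := by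
    rw [cont_w1, cont_nil, cs, cc, raise_nil]
    rw [add_comm ({1} : Multiset ℕ), ← add_assoc, add_comm ({c} : Multiset ℕ)]
  have k1' : cont (w1 (H1.ch c) (H1.ch s) .nil) = {s + 1} + {c} := by
    rw [cont_w1, cont_nil, cs, cc, r1, add_zero, add_comm]
  have k2' : cont (w1 .nil (H1.ch c) (H1.ch s)) = {s} + {c + 1} := by
    rw [cont_w1, cont_nil, cs, cc, r2, zero_add, add_comm]
  have k3' : cont (w1 (H1.ch s) .nil (H1.ch c)) = {s} + {c} + {1} := by
    rw [cont_w1, cont_nil, cs, cc, raise_nil]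
    rw [add_comm ({1} : Multiset ℕ), ← add_assoc]
  have hne : ({s} + {c + 1} : Multiset ℕ) ≠ {s} + {c} + {1} := by
    intro h
    have := congrArg Multiset.card h
    simp at this
  have t1 : (({s + 1} + {c} : Multiset ℕ)).sup = s + 1 := by
    rw [Multiset.sup_add, Multiset.sup_singleton, Multiset.sup_singleton]
    exact max_eq_left (by omega)
  have t2 : (({s} + {c + 1} : Multiset ℕ)).sup = s := by
    rw [Multiset.sup_add, Multiset.sup_singleton, Multiset.sup_singleton]
    exact max_eq_left (by omega)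
  have t3 : (({s} + {c} + {1} : Multiset ℕ)).sup = s := by
    rw [Multiset.sup_add, Multiset.sup_add, Multiset.sup_singleton, Multiset.sup_singleton,
      Multiset.sup_singleton]
    have e1 : s ⊔ c = s := max_eq_left (by omega)
    rw [e1]
    exact max_eq_left (by omega)
  have hts : ht (H1.ch s) = s := by rw [ht_eq, cs, Multiset.sup_singleton]
  rcases Nat.even_or_odd c with hev | hod
  · obtain ⟨b, c', g, hb, hc', ht'⟩ := mk_tri (k := k) (H1.ch c) (H1.ch s) .nil (by
        rw [n1, n2]
        change c + s + 0 + 1 = k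
        omega) (by rw [k3', k2']; exact hne.symm) (by rw [ht_eq, ht_eq, k3', k2', t3, t2])
        (by rw [ht_eq, ht_eq, k3', k1', t3, t1]; omega)
    refine ⟨cyc c', cyc b, g, ?_, ?_, ?_, ?_, ?_, fun h => ?_, fun _ => ?_⟩
    · rw [contc_cyc, hc', k2']
    · rw [contc_cyc, hb, k3']
    · intro h
      have := congrArg contc h
      rw [contc_cyc, contc_cyc, hb, hc', k2', k3'] at this
      exact hne this
    · rw [htc_cyc, hc', ht_eq, k2', t2]
    · rw [htc_cyc, hb, ht_eq, k3', t3]
    · exfalso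
      exact (Nat.not_even_iff_odd.2 h) hev
    · rw [Set.pair_comm]
      exact ⟨c, H1.ch s, hc, by rw [hts]; exact hcs, hev, ht'⟩
  · obtain ⟨b, c', g, hb, hc', ht'⟩ := mk_tri (k := k) .nil (H1.ch s) (H1.ch c) (by
        rw [n1, n2]
        change 0 + s + c + 1 = k
        omega) (by rw [k3, k2]; exact hne) (by rw [ht_eq, ht_eq, k3, k2, t3, t2])
        (by rw [ht_eq, ht_eq, k2, k1, t2, t1]; omega)
    refine ⟨cyc b, cyc c', g, ?_, ?_, ?_, ?_, ?_, fun _ => ?_, fun h => ?_⟩
    · rw [contc_cyc, hb, k2]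
    · rw [contc_cyc, hc', k3]
    · intro h
      have := congrArg contc h
      rw [contc_cyc, contc_cyc, hb, hc', k2, k3] at this
      exact hne this
    · rw [htc_cyc, hb, ht_eq, k2, t2]
    · rw [htc_cyc, hc', ht_eq, k3, t3]
    · exact ⟨c, H1.ch s, hc, by rw [hts]; exact hcs, hod, ht'⟩
    · exfalso
      exact (Nat.not_even_iff_odd.2 hod) h

end S5

end Pool.OddHC
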