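import Pool.Agent.Work.MP_8f87b2_h27.P5Glue
import Pool.Agent.Work.MP_8f87b2_fin.PV
import Pool.Agent.Work.MP_8f87b2_h27.S5P
import Pool.Agent.Work.MP_8f87b2_h14.P5S
import Pool.Agent.Work.MP_8f87b2_h86.LEx

/-!
# The provider of L pairs with the strong predicates

`LWord R`: `R = C(R0, e)`, at least two parts, no bead at the ends. `tyLG_of_hop`: pairs of type `TyLG`. `LWord.pd`: if an E triple
of type `TyEd` has the word `()(R)()` then `R` is deep. `lp_provD`: the provider of `P5Glue` from `TyLG`, `TyEd`, `TyP5D`, `TyP5MD`.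
-/

set_option autoImplicit false

namespace Pool.OddHC

open Finset Equiv BinaryTree Multiset Pool.OddHop Pool.Agent.Work.MP_8f87b2_co

variable {i j k : ℕ} {τ : Type}

open P5

/-- the word of an L pair -/
def LWord (R : BinaryTree Unit) : Prop :=
  ∃ (R0 : BinaryTree Unit) (e : List ℕ), R = ins R0 e ∧ e.length = 2 * R0.numNodes + 1 ∧
    2 ≤ Multiset.card (cont R0) ∧ H1.fb R = false ∧ H1.lastB R = false

/-- the word of an L pair over a hop has two parts -/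
theorem EData.two_parts {U U₂ : Cyc j} (hne : U ≠ U₂) {r : X i} {f : ZMod (2 * i + 1) → ℕ}
    (hE : EData U U₂ i r f) : 2 ≤ Multiset.card (cont (ins r.1 (lf f))) := by
  obtain ⟨R, hR⟩ : ∃ R, R = ins r.1 (lf f) := ⟨_, rfl⟩
  have hw := hE.words
  rw [← hR] at hw ⊢
  have hnum : R.numNodes + 1 = j := by
    have h1 := (ins_num r.1 (lf f) (by rw [lf_length, X_num])).1
    rw [← hR, lf_sum, X_num] at h1
    have := hE.size
    omega
  have hRn : R ≠ .nil := by
    rintro h0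
    rw [h0] at hnum
    have h1 := hE.size
    have h2 := hE.hj
    change 0 + 1 = j at hnum
    omega
  obtain ⟨v, hv⟩ : ∃ v : X j, v.1 = .nil △ R := ⟨⟨_, mem_treesOfNumNodesEq.2 (by
    change 0 + R.numNodes + 1 = j
    omega)⟩, rfl⟩
  obtain ⟨v', hv'⟩ : ∃ v' : X j, v'.1 = app R (.nil △ .nil) := ⟨⟨_, mem_treesOfNumNodesEq.2 (by
    rw [num_app]
    change R.numNodes + 1 = j
    omega)⟩, rfl⟩
  have hcvv : (cyc v = U ∧ cyc v' = U₂) ∨ (cyc v = U₂ ∧ cyc v' = U) := by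
    rcases hw with hw | hw
    · exact Or.inl (hw v v' hv hv')
    · exact Or.inr (hw v v' hv hv')
  by_contra hcon
  have h0 : cont R ≠ 0 := fun h => hRn (cont_eq_zero.1 h)
  have h1 : Multiset.card (cont R) = 1 := by
    have := Multiset.card_pos.2 h0
    omega
  obtain ⟨n, hn⟩ := Multiset.card_eq_one.1 h1
  have hn1 : 1 ≤ n := cont_pos R n (by rw [hn]; exact Multiset.mem_singleton_self n)
  have e1 : contc (cyc v) = {n} + {1} := by
    rw [contc_cyc, hv, cont_node, cont_nil, hn, raise_zero, add_comm]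
  have e2 : contc (cyc v') = {n} + {1} := by
    rw [contc_cyc, hv', cont_app, cont_node, cont_nil, hn, raise_zero, add_zero]
  have e3 : cyc v = cyc v' := S5.Uq_pair le_rfl hn1 _ _ e1 e2
  rcases hcvv with ⟨a, b⟩ | ⟨a, b⟩
  · exact hne (by rw [← a, ← b, e3])
  · exact hne (by rw [← a, ← b, e3])

/-- **THE PROVIDER**, pairs of type `TyLG` -/
theorem tyLG_of_hop (Ty : Set (Cyc k) → Prop) {U U₂ : Cyc j} (hne : U ≠ U₂) (h : HopC U U₂) {m : ℕ}
    (hm : 1 ≤ m) (hk : j + pkc U + m = k) (h4 : m = 2 → 4 ≤ j)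
    (hTy : ∀ (R : BinaryTree Unit) (b c b' c' : X k) (g : DG k), LWord R → LOpt R b c b' c' →
      TyLG {cyc b, cyc c} g → IsTri (lp 1) R (lp 1) {cyc b, cyc c} g →
      ((Rd (cyc b) = ⟨j, U⟩ ∧ Rd (cyc c) = ⟨j, U₂⟩) ∨ (Rd (cyc b) = ⟨j, U₂⟩ ∧ Rd (cyc c) = ⟨j, U⟩)) →
      Ty {cyc b, cyc c} ∨ Ty {cyc b, cyc c'} ∨ Ty {cyc b', cyc c}) :
    ∃ p q : Cyc k, Rd p = ⟨j, U⟩ ∧ Rd q = ⟨j, U₂⟩ ∧ (m = 2 → j % 2 = 0 → TopTwo p ∧ TopTwo q) ∧
      Ty {p, q} := by
  obtain ⟨i, r, f, hE, -⟩ := h.edata'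
  have h2p := hE.two_parts hne
  obtain ⟨b, c, b', c', g, h1, h2, h3, h5⟩ := hE.l_opt hne hk
    (e := midL (ins r.1 (lf f)).numNodes (m - 1)) (midL_length _ _) (by rw [midL_sum]; omega)
    (by rintro rfl; rfl)
  have hnum : (ins r.1 (lf f)).numNodes + 1 = j := by
    have h1 := (ins_num r.1 (lf f) (by rw [lf_length, X_num])).1
    rw [lf_sum, X_num] at h1
    have := hE.size
    omega
  have hRn : ins r.1 (lf f) ≠ .nil := by
    rintro h0
    rw [h0] at hnum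
    have h1 := hE.size
    have h2 := hE.hj
    change 0 + 1 = j at hnum
    omega
  obtain ⟨n, hn⟩ : ∃ n, (ins r.1 (lf f)).numNodes = n + 1 := by
    have h1 := hE.size
    have h2 := hE.hj
    exact ⟨(ins r.1 (lf f)).numNodes - 1, by omega⟩
  have hfb : H1.fb (ins (ins r.1 (lf f)) (midL (ins r.1 (lf f)).numNodes (m - 1))) = false := by
    apply H1.fb_lv0 hRn (midL_length _ _)
    rw [hn]
    rfl
  have hlb : H1.lastB (ins (ins r.1 (lf f)) (midL (ins r.1 (lf f)).numNodes (m - 1))) = false := by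
    apply H1.lastB_ins hRn (midL_length _ _)
    rw [hn]
    unfold midL
    rw [List.replicate_succ' (n := n)]
    rw [← List.cons_append, ← List.append_assoc, List.getLastD_concat]
  have hL : TyLG {cyc b, cyc c} g := by
    refine ⟨⟨_, _, hRn, midL_length _ _, hfb, hlb, h5⟩, ?_⟩
    intro Z hZ
    rw [hZ.Z_inj h5]
    exact L1.mid_not_bad fun hm => by have := h4 hm; omega
  have hW : LWord (ins (ins r.1 (lf f)) (midL (ins r.1 (lf f)).numNodes (m - 1))) :=
    ⟨_, _, rfl, midL_length _ _, h2p, hfb, hlb⟩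
  have key : ∀ p q : Cyc k, Rd p = Rd (cyc b) → Rd q = Rd (cyc c) →
      (m = 2 → j % 2 = 0 → TopTwo p ∧ TopTwo q) → Ty {p, q} →
      ∃ p q : Cyc k, Rd p = ⟨j, U⟩ ∧ Rd q = ⟨j, U₂⟩ ∧ (m = 2 → j % 2 = 0 → TopTwo p ∧ TopTwo q) ∧
        Ty {p, q} := by
    intro p q hp hq ht hT
    rcases h2 with ⟨e1, e2⟩ | ⟨e1, e2⟩
    · exact ⟨p, q, by rw [hp, e1], by rw [hq, e2], ht, hT⟩
    · refine ⟨q, p, by rw [hq, e2], by rw [hp, e1], fun a1 a2 => (ht a1 a2).symm, ?_⟩
      rw [Set.pair_comm]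
      exact hT
  rcases hTy _ b c b' c' g hW h1 hL h5 h2 with h6 | h6 | h6
  · exact key _ _ rfl rfl (fun a1 a2 => ⟨(h3 a1 a2).1, (h3 a1 a2).2.1⟩) h6
  · exact key _ _ rfl h1.rc (fun a1 a2 => ⟨(h3 a1 a2).1, (h3 a1 a2).2.2.2⟩) h6
  · exact key _ _ h1.rb rfl (fun a1 a2 => ⟨(h3 a1 a2).2.2.1, (h3 a1 a2).2.1⟩) h6

/-- the word of an L pair with a deep E triple over its host is deep -/
theorem LWord.pd {R : BinaryTree Unit} (h : LWord R) {a b : ℕ} {r : X j} {f : ZMod (2 * j + 1) → ℕ}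
    (hD : Deep r.1) (e0 : w1 (lp a) R (lp b) = ins r.1 (lf f)) : PD R := by
  obtain ⟨R0, e, rfl, h2, h3, h4, h5⟩ := h
  have hR0 : R0 ≠ .nil := by
    rintro rfl
    change 2 ≤ 0 at h3
    omega
  have hr := red_prime hR0 h2 a b (by rw [lf_length, X_num]) e0
  have hc : ∀ x ∈ cont (R0 △ .nil), 3 ≤ x := by
    intro x hx
    have h1 := cont_pos _ x hx
    obtain ⟨d1, d2⟩ := hD
    rw [hr] at d1 d2
    rw [Multiset.count_eq_zero] at d1 d2
    by_contra hcon
    have h6 : x = 1 ∨ x = 2 := by omega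
    rcases h6 with rfl | rfl
    · exact d1 hx
    · exact d2 hx
  rw [cont_node, cont_nil, add_zero] at hc
  have hne0 : cont R0 ≠ 0 := fun h => hR0 (cont_eq_zero.1 h)
  have hs : (cont R0).sup ∈ cont R0 := sup_mem hne0
  have hc' : ∀ x ∈ (cont R0).erase (cont R0).sup, 3 ≤ x := by
    intro x hx
    apply hc
    unfold raise
    exact (show x ∈ ({(cont R0).sup + 1} : Multiset ℕ) + (cont R0).erase _ from
      Multiset.mem_add.2 (Or.inr hx))
  have hy : ∃ y, y ∈ (cont R0).erase (cont R0).sup := by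
    apply Multiset.card_pos_iff_exists_mem.1
    rw [Multiset.card_erase_of_mem hs]
    change 0 < Multiset.card (cont R0) - 1
    omega
  obtain ⟨y, hy⟩ := hy
  have hy3 := hc' y hy
  have hys : y ≤ (cont R0).sup := Multiset.le_sup (Multiset.mem_of_mem_erase hy)
  refine ⟨R0, e, rfl, h2, ?_, h3, h4, h5⟩
  intro x hx
  by_cases hxs : x = (cont R0).sup
  · rw [hxs]; omega
  · exact hc' x ((Multiset.mem_erase_of_ne hxs).2 hx)

/-- EXISTENCE of P5: the host pair `y = o(S)o`, `oo(S)` and the family leftovers `S(o)o`, `(oo)S` -/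
theorem pent_ex {S : BinaryTree Unit} (h2 : 2 ≤ ht S) {y l p q : X k}
    (hy : y.1 = .nil △ (S △ o)) (hl : l.1 = .nil △ (.nil △ (S △ .nil)))
    (hp : p.1 = app S (o △ o)) (hq : q.1 = (.nil △ o) △ S)
    (hyl : cyc y ≠ cyc l) (hpq : cyc p ≠ cyc q) :
    ∃ g, TyPent o S .nil .nil .nil {cyc y, cyc l, cyc p, cyc q} g := by
  obtain ⟨t0, t1, t2, t3, t4⟩ := ht_wR h2
  have hk : S.numNodes + 3 = k := by
    have := wR_num S 2
    change (app S (o △ o)).numNodes = _ at this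
    rw [← hp, X_num] at this
    exact this.symm
  obtain ⟨a, ha⟩ : ∃ a : X k, a.1 = wR S 0 :=
    ⟨⟨wR S 0, mem_treesOfNumNodesEq.2 (by rw [wR_num, hk])⟩, rfl⟩
  obtain ⟨w, hw⟩ : ∃ w : ℕ → X k, w = fun i => match i with
    | 0 => a
    | 1 => y
    | 2 => p
    | 3 => q
    | _ => l := ⟨_, rfl⟩
  have hv : ∀ i < 5, (w i).1 = wR S i := by
    intro i hi
    rw [hw]
    interval_cases i
    · exact ha
    · exact hy
    · exact hp
    · exact hq
    · exact hl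
  have hh : ∀ i < 5, htc (cyc (w i)) = ht (wR S i) := by
    intro i hi
    rw [htc_cyc, hv i hi]
  have h0 := hh 0 (by omega)
  have h1 := hh 1 (by omega)
  have h3 := hh 2 (by omega)
  have h4 := hh 3 (by omega)
  have h5 := hh 4 (by omega)
  rw [t0] at h0
  rw [t1] at h1
  rw [t2] at h3
  rw [t3] at h4
  rw [t4] at h5
  have d14 : cyc (w 1) ≠ cyc (w 4) := by rw [hw]; exact hyl
  have d23 : cyc (w 2) ≠ cyc (w 3) := by rw [hw]; exact hpq
  have key : ∀ i < 5, ∀ j < 5, cyc (w i) = cyc (w j) → i = j := by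
    intro i hi j hj e
    have e' := congrArg htc e
    interval_cases i <;> interval_cases j <;> first
      | rfl
      | exact absurd e d14
      | exact absurd e.symm d14
      | exact absurd e d23
      | exact absurd e.symm d23
      | (exfalso; omega)
  refine ⟨cDG ((Finset.range 5).image w) (F4 w), w, ?_, key, ?_, rfl⟩
  · intro i hi
    rw [hv i hi, wR_eq S i hi]
  · rw [hw]
    ext c
    simp only [F4, Set.mem_insert_iff, Set.mem_singleton_iff]
    tauto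

/-- EXISTENCE of P5M: the host pair `y = o(S)o`, `(S)oo` and the family leftovers `S(oo)`, `o(o)S` -/
theorem pentM_ex {S : BinaryTree Unit} (h2 : 2 ≤ ht S) {y l p q : X k}
    (hy : y.1 = .nil △ (S △ o)) (hl : l.1 = S △ (.nil △ o))
    (hp : p.1 = app S ((.nil △ o) △ .nil)) (hq : q.1 = .nil △ (o △ S))
    (hyl : cyc y ≠ cyc l) (hpq : cyc p ≠ cyc q) :
    ∃ g, TyPent .nil S o .nil .nil {cyc y, cyc l, cyc p, cyc q} g := by
  obtain ⟨t0, t1, t2, t3, t4⟩ := ht_wM h2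
  have hk : S.numNodes + 3 = k := by
    have := wM_num S 2
    change (app S ((.nil △ o) △ .nil)).numNodes = _ at this
    rw [← hp, X_num] at this
    exact this.symm
  obtain ⟨a, ha⟩ : ∃ a : X k, a.1 = wM S 0 :=
    ⟨⟨wM S 0, mem_treesOfNumNodesEq.2 (by rw [wM_num, hk])⟩, rfl⟩
  obtain ⟨w, hw⟩ : ∃ w : ℕ → X k, w = fun i => match i with
    | 0 => a
    | 1 => l
    | 2 => p
    | 3 => q
    | _ => y := ⟨_, rfl⟩
  have hv : ∀ i < 5, (w i).1 = wM S i := by
    intro i hi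
    rw [hw]
    interval_cases i
    · exact ha
    · exact hl
    · exact hp
    · exact hq
    · exact hy
  have hh : ∀ i < 5, htc (cyc (w i)) = ht (wM S i) := by
    intro i hi
    rw [htc_cyc, hv i hi]
  have h0 := hh 0 (by omega)
  have h1 := hh 1 (by omega)
  have h3 := hh 2 (by omega)
  have h4 := hh 3 (by omega)
  have h5 := hh 4 (by omega)
  rw [t0] at h0
  rw [t1] at h1
  rw [t2] at h3
  rw [t3] at h4
  rw [t4] at h5
  have d14 : cyc (w 4) ≠ cyc (w 1) := by rw [hw]; exact hyl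
  have d23 : cyc (w 2) ≠ cyc (w 3) := by rw [hw]; exact hpq
  have key : ∀ i < 5, ∀ j < 5, cyc (w i) = cyc (w j) → i = j := by
    intro i hi j hj e
    have e' := congrArg htc e
    interval_cases i <;> interval_cases j <;> first
      | rfl
      | exact absurd e d14
      | exact absurd e.symm d14
      | exact absurd e d23
      | exact absurd e.symm d23
      | (exfalso; omega)
  refine ⟨cDG ((Finset.range 5).image w) (F4 w), w, ?_, key, ?_, rfl⟩
  · intro i hi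
    rw [hv i hi, wM_eq S i hi]
  · rw [hw]
    ext c
    simp only [F4, Set.mem_insert_iff, Set.mem_singleton_iff]
    tauto

/-- **THE L PAIR AT ONE HEIGHT**, strong predicates -/
theorem lp_fieldD (P : τ → Set (Cyc k) → DG k → Prop) (isE isL : τ → Prop)
    (hE : ∀ t F g, isE t → P t F g → TyEd F g)
    (h5 : ∀ S F g, TyP5D S F g → ∃ t, P t F g ∧ ¬ isE t ∧ ¬ isL t)
    (h5m : ∀ S F g, TyP5MD S F g → ∃ t, P t F g ∧ ¬ isE t ∧ ¬ isL t)
    {N : Set (Cyc k)} {G : Set (Set (Cyc k))} {C : τ → Set (Cyc k) → DG k → Prop} (hC : Chosen N G P C)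
    {R : BinaryTree Unit} {b c b' c' : X k} {g : DG k} (r2 : 2 ≤ ht R) (hW : LWord R)
    (hO : LOpt R b c b' c')
    (hI : IsTri (lp 1) R (lp 1) {cyc b, cyc c} g) (hP : ∃ t, P t {cyc b, cyc c} g) :
    (∃ o g, PH P isE isL (hitLE k τ) (mgLE k τ) C o {cyc b, cyc c} g) ∨
      (∃ o g, PH P isE isL (hitLE k τ) (mgLE k τ) C o {cyc b, cyc c'} g) ∨
      (∃ o g, PH P isE isL (hitLE k τ) (mgLE k τ) C o {cyc b', cyc c} g) := by
  obtain ⟨t, hP⟩ := hP
  have hl1 : ht (lp 1) = 1 := rfl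
  have hl2 : ht (lp 2) = 1 := rfl
  have hn : ht (.nil : BinaryTree Unit) = 0 := rfl
  have hRn : R ≠ .nil := by
    rintro rfl
    change 2 ≤ 0 at r2
    omega
  have tb : htc (cyc b) = ht R := by rw [htc_cyc, hO.wb, ht_w1]; omega
  have tc : htc (cyc c) = ht R := by rw [htc_cyc, hO.wc, ht_w1]; omega
  have tb' : htc (cyc b') = ht R := by rw [htc_cyc, hO.wb', ht_w1]; omega
  have tc' : htc (cyc c') = ht R := by rw [htc_cyc, hO.wc', ht_w1]; omega
  have pr : ∀ p q : Cyc k, htc p = ht R → htc q = ht R → ∀ c ∈ ({p, q} : Set (Cyc k)),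
      ∀ d ∈ ({p, q} : Set (Cyc k)), htc c = htc d := by
    rintro p q hp hq c (rfl | rfl) d (rfl | rfl)
    · rfl
    · rw [hp, hq]
    · rw [hp, hq]
    · rfl
  by_cases hx : ∃ t' F' g', C t' F' g' ∧ isE t' ∧ hitLE k τ t {cyc b, cyc c} g t' F' g'
  · right
    obtain ⟨t', F', g', hc, he, hd, x, hx1, hx2⟩ := hx
    obtain ⟨jj, r, f, hj, hD, hY⟩ := hE t' F' g' he (hC.le _ _ _ hc)
    obtain ⟨-, -, hw⟩ := hit_words hRn hI hY hd hx1 hx2
    obtain ⟨aa, bb, cc, ha, hb, hc', n1, n2, n3, hF', hg'⟩ := hY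
    rcases hw with hw | hw
    · left
      have hPD : PD R := hW.pd (a := 1) (b := 0) hD hw.symm
      rw [hw] at hb hc'
      have nbc : cyc b ≠ cyc c' := by
        intro e
        apply hO.rbc
        rw [← hO.rc, e]
      obtain ⟨g5, hg5⟩ := pent_ex (k := k) r2 (y := bb) (l := cc) (p := b) (q := c') hb hc' hO.wb hO.wc'
        n1 nbc
      obtain ⟨t5, p5, q5, s5⟩ := h5 R _ _ ⟨hPD, hg5⟩
      refine ⟨none, g, pr _ _ tb tc', t', F', g', t5, g5, hc, he,
        ⟨R, b, c, b', c', r2, hO, Or.inl ⟨rfl, cc, ?_, hc'⟩⟩, ?_, q5, s5⟩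
      · rw [hg']
        change cc ∈ ({aa, bb, cc} : Finset (X k))
        simp
      · have e : ({cyc b, cyc c'} ∪ F' : Set (Cyc k)) = {cyc bb, cyc cc, cyc b, cyc c'} := by
          rw [hF']
          ext z
          simp only [Set.mem_union, Set.mem_insert_iff, Set.mem_singleton_iff]
          tauto
        rw [e]
        exact p5
    · right
      have hPD : PD R := hW.pd (a := 0) (b := 1) hD hw.symm
      rw [hw] at hb hc'
      have nbc : cyc b' ≠ cyc c := by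
        intro e
        apply hO.rbc
        rw [← hO.rb, e]
      obtain ⟨g5, hg5⟩ := pentM_ex (k := k) r2 (y := cc) (l := bb) (p := b') (q := c) hc' hb hO.wb'
        hO.wc (fun h => n1 h.symm) nbc
      obtain ⟨t5, p5, q5, s5⟩ := h5m R _ _ ⟨hPD, hg5⟩
      refine ⟨none, g, pr _ _ tb' tc, t', F', g', t5, g5, hc, he,
        ⟨R, b, c, b', c', r2, hO, Or.inr ⟨rfl, bb, ?_, hb⟩⟩, ?_, q5, s5⟩
      · rw [hg']
        change bb ∈ ({aa, bb, cc} : Finset (X k))
        simp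
      · have e : ({cyc b', cyc c} ∪ F' : Set (Cyc k)) = {cyc cc, cyc bb, cyc b', cyc c} := by
          rw [hF']
          ext z
          simp only [Set.mem_union, Set.mem_insert_iff, Set.mem_singleton_iff]
          tauto
        rw [e]
        exact p5
  · left
    refine ⟨some t, g, hP, pr _ _ tb tc, ?_⟩
    intro _ t' F' g' hc he hh
    exact hx ⟨t', F', g', hc, he, hh⟩

/-- **THE PROVIDER OF L PAIRS AT HEIGHT `h`**, strong predicates -/
theorem lp_provD (P : τ → Set (Cyc k) → DG k → Prop) (isE isL : τ → Prop)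
    (hE : ∀ t F g, isE t → P t F g → TyEd F g)
    (hT : ∀ F g, TyLG F g → ∃ t, P t F g)
    (h5 : ∀ S F g, TyP5D S F g → ∃ t, P t F g ∧ ¬ isE t ∧ ¬ isL t)
    (h5m : ∀ S F g, TyP5MD S F g → ∃ t, P t F g ∧ ¬ isE t ∧ ¬ isL t)
    {N : Set (Cyc k)} {G : Set (Set (Cyc k))} {C : τ → Set (Cyc k) → DG k → Prop} (hC : Chosen N G P C)
    {h : ℕ} (h3 : 3 ≤ h) {U U₂ : Cyc j} (hne : U ≠ U₂) (hop : HopC U U₂) {m : ℕ}
    (hm : 1 ≤ m) (hk : j + pkc U + m = k) (h4 : m = 2 → 4 ≤ j)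
    (hh : ∀ p : Cyc k, Rd p = ⟨j, U⟩ ∨ Rd p = ⟨j, U₂⟩ → htc p = h) :
    ∃ p q : Cyc k, Rd p = ⟨j, U⟩ ∧ Rd q = ⟨j, U₂⟩ ∧ (m = 2 → j % 2 = 0 → TopTwo p ∧ TopTwo q) ∧
      ∃ o g, PH P isE isL (hitLE k τ) (mgLE k τ) C o {p, q} g := by
  refine tyLG_of_hop (fun F => ∃ o g, PH P isE isL (hitLE k τ) (mgLE k τ) C o F g) hne hop hm hk h4 ?_
  intro R b c b' c' g hW hO hL hI hr
  have hl1 : ht (lp 1) = 1 := rfl
  have tb : htc (cyc b) = h := by
    rcases hr with ⟨e, -⟩ | ⟨e, -⟩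
    · exact hh _ (Or.inl e)
    · exact hh _ (Or.inr e)
  have r2 : 2 ≤ ht R := by
    rw [htc_cyc, hO.wb, ht_w1] at tb
    omega
  exact lp_fieldD P isE isL hE h5 h5m hC r2 hW hO hI (hT _ _ hL)

/-- the number of parts is at most the size -/
theorem pkc_le_size (U : Cyc j) : pkc U ≤ j := by
  obtain ⟨u, rfl⟩ := Quotient.exists_rep U
  have h1 : pkc (cyc u) = Multiset.card (cont u.1) := by rw [pkc_cyc, cont_card]
  have h2 := Multiset.card_nsmul_le_sum (s := cont u.1) (a := 1) (fun x hx => cont_pos _ x hx)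
  have h3 := cont_sum u.1
  rw [X_num] at h3
  have h4 : Multiset.card (cont u.1) ≤ (cont u.1).sum := by simpa using h2
  have h5 : pkc (cyc u) ≤ j := by
    rw [h1]
    exact h4.trans h3.le
  exact h5

/-- **L PAIRS EXIST** in the classes of height `h`, strong predicates -/
theorem lex_PHD (P : τ → Set (Cyc k) → DG k → Prop) (isE isL : τ → Prop)
    (hE : ∀ t F g, isE t → P t F g → TyEd F g)
    (hT : ∀ F g, TyLG F g → ∃ t, P t F g)
    (h5 : ∀ S F g, TyP5D S F g → ∃ t, P t F g ∧ ¬ isE t ∧ ¬ isL t)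
    (h5m : ∀ S F g, TyP5MD S F g → ∃ t, P t F g ∧ ¬ isE t ∧ ¬ isL t)
    {N : Set (Cyc k)} {G : Set (Set (Cyc k))} {C : τ → Set (Cyc k) → DG k → Prop} (hC : Chosen N G P C)
    {h : ℕ} (h3 : 3 ≤ h) (hk0 : 9 ≤ k) {κ : RD × Multiset ℕ} (hκ : ∀ p : Cyc k, cl p = κ → htc p = h) :
    PV.LEx (PH P isE isL (hitLE k τ) (mgLE k τ) C) (PH P isE isL (hitLE k τ) (mgLE k τ) C) κ := by
  intro j m U U₂ hm hk h1 h2 hne hop
  have h6 := pkc_le_size U
  obtain ⟨p, q, a1, a2, a3, a4⟩ := lp_provD (j := j) P isE isL hE hT h5 h5m hC h3 hne hop hm hk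
    (fun h7 => by omega) (by
      rintro p (hp | hp)
      · exact hκ p (h1 p hp)
      · exact hκ p (h2 p hp))
  exact ⟨p, q, a1, a2, a3, Or.inl a4⟩

end Pool.OddHC
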