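import Pool.Agent.Work.MP_8f87b2_h62.MergeU

/-!
# The groups height by height, with merging across two heights

`PH`: the types of the groups of one height, given the chosen gadgets `C` of the groups above: a group of a type `t`, and for
the types `isL` no hit with a group of a type `isE` above; or (`none`) a HALF group, which together with an `isE` group above
has a type. `by_height`: the groups of all heights `lo .. hi` with chosen gadgets, no `isL` group hits an `isE` group.
-/

set_option autoImplicit false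

namespace Pool.OddHC

variable {k : ℕ} {τ : Type}

/-- chosen gadgets -/
structure Chosen (N : Set (Cyc k)) (G : Set (Set (Cyc k))) (P C : τ → Set (Cyc k) → DG k → Prop) : Prop where
  grp : GrpOK N G C
  le : ∀ t F g, C t F g → P t F g
  mem : ∀ t F g, C t F g → F ∈ G
  uniq : ∀ t F g t' g', C t F g → C t' F g' → t = t' ∧ g = g'

theorem GrpOK.chosen {N : Set (Cyc k)} {G : Set (Set (Cyc k))} {P : τ → Set (Cyc k) → DG k → Prop}
    (h : GrpOK N G P) : ∃ C, Chosen N G P C := by
  have h1 : ∀ F : {F : Set (Cyc k) // F ∈ G}, ∃ x : τ × DG k, P x.1 F.1 x.2 := by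
    rintro ⟨F, hF⟩
    obtain ⟨t, g, hg⟩ := h.ex F hF
    exact ⟨(t, g), hg⟩
  choose f hf using h1
  refine ⟨fun t F g => ∃ hF : F ∈ G, f ⟨F, hF⟩ = (t, g), ⟨h.ne, h.sub, h.cov, h.one, ?_⟩, ?_, ?_, ?_⟩
  · intro F hF
    exact ⟨(f ⟨F, hF⟩).1, (f ⟨F, hF⟩).2, hF, rfl⟩
  · rintro t F g ⟨hF, he⟩
    have := hf ⟨F, hF⟩
    rw [he] at this
    exact this
  · rintro t F g ⟨hF, _⟩
    exact hF
  · rintro t F g t' g' ⟨hF, he⟩ ⟨hF', he'⟩
    rw [he] at he'
    exact ⟨congrArg Prod.fst he', congrArg Prod.snd he'⟩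

/-- the relation between two chosen groups -/
abbrev Hit (k : ℕ) (τ : Type) := τ → Set (Cyc k) → DG k → τ → Set (Cyc k) → DG k → Prop

/-- **HALF**: together with an `isE` group `E` above the set `F` is a group of a type which is neither `isE` nor `isL` -/
def Half (P : τ → Set (Cyc k) → DG k → Prop) (isE isL : τ → Prop) (mg : Set (Cyc k) → τ → Set (Cyc k) → DG k → Prop)
    (C : τ → Set (Cyc k) → DG k → Prop) (F : Set (Cyc k)) : Prop :=
  ∃ t E g t'' g'', C t E g ∧ isE t ∧ mg F t E g ∧ P t'' (F ∪ E) g'' ∧ ¬ isE t'' ∧ ¬ isL t''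

/-- the types of the groups of one height -/
def PH (P : τ → Set (Cyc k) → DG k → Prop) (isE isL : τ → Prop) (hit : Hit k τ)
    (mg : Set (Cyc k) → τ → Set (Cyc k) → DG k → Prop) (C : τ → Set (Cyc k) → DG k → Prop) :
    Option τ → Set (Cyc k) → DG k → Prop
  | some t, F, g => P t F g ∧ (∀ c ∈ F, ∀ d ∈ F, htc c = htc d) ∧
      (isL t → ∀ t' F' g', C t' F' g' → isE t' → ¬ hit t F g t' F' g')
  | none, F, _ => (∀ c ∈ F, ∀ d ∈ F, htc c = htc d) ∧ Half P isE isL mg C F

/-- **HEIGHT BY HEIGHT** -/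
theorem by_height (P : τ → Set (Cyc k) → DG k → Prop) (isE isL : τ → Prop) (hit : Hit k τ)
    (mg : Set (Cyc k) → τ → Set (Cyc k) → DG k → Prop)
    -- an `isL` group hits `isE` groups one height above only
    (hh : ∀ t F g t' F' g', P t F g → isL t → P t' F' g' → isE t' → hit t F g t' F' g' →
      ∀ c ∈ F, ∀ d ∈ F', htc c < htc d)
    -- the `isE` group and its gadget determine the half
    (hm : ∀ F F' t E g, P t E g → isE t → mg F t E g → mg F' t E g → F = F')
    (lo hi : ℕ)
    -- one height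
    (reg : ∀ h, lo ≤ h → h ≤ hi → ∀ (N G : _) (C : τ → Set (Cyc k) → DG k → Prop), Chosen N G P C →
      (∀ c, c ∈ N ↔ h < htc c ∧ htc c ≤ hi) →
      ∃ G1, GrpOK {p : Cyc k | htc p = h} G1 (PH P isE isL hit mg C)) :
    ∃ (G : Set (Set (Cyc k))) (C : τ → Set (Cyc k) → DG k → Prop),
      Chosen {p : Cyc k | lo ≤ htc p ∧ htc p ≤ hi} G P C ∧
      ∀ t F g t' F' g', C t F g → isL t → C t' F' g' → isE t' → ¬ hit t F g t' F' g' := by
  classical
  have key : ∀ n : ℕ, (n = 0 ∨ n + lo ≤ hi + 1) → ∃ (N : Set (Cyc k)) (G : Set (Set (Cyc k)))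
      (C : τ → Set (Cyc k) → DG k → Prop), Chosen N G P C ∧
      (∀ c, c ∈ N ↔ hi < htc c + n ∧ htc c ≤ hi) ∧
      ∀ t F g t' F' g', C t F g → isL t → C t' F' g' → isE t' → ¬ hit t F g t' F' g' := by
    intro n
    induction n with
    | zero =>
      intro _
      refine ⟨∅, ∅, fun _ _ _ => False, ⟨⟨?_, ?_, ?_, ?_, ?_⟩, ?_, ?_, ?_⟩, ?_, ?_⟩
      · exact fun F hF => absurd hF (Set.notMem_empty F)
      · exact fun F hF => absurd hF (Set.notMem_empty F)
      · exact fun F hF => absurd hF (Set.notMem_empty F)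
      · exact fun F hF => absurd hF (Set.notMem_empty F)
      · exact fun F hF => absurd hF (Set.notMem_empty F)
      · exact fun t F g hF => absurd hF id
      · exact fun t F g hF => absurd hF id
      · exact fun t F g t' g' hF => absurd hF id
      · intro c
        constructor
        · exact fun h => absurd h (Set.notMem_empty c)
        · rintro ⟨h1, h2⟩
          omega
      · exact fun t F g t' F' g' hF => absurd hF id
    | succ n ih =>
      intro hn
      obtain ⟨N, G, C, hC, hN, hno⟩ := ih (by omega)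
      obtain ⟨h, hh0⟩ : ∃ h, h + n = hi := ⟨hi - n, by omega⟩
      obtain ⟨G1, hG1⟩ := reg h (by omega) (by omega) N G C hC (fun c => by
        rw [hN]
        constructor
        · rintro ⟨a1, a2⟩
          exact ⟨by omega, a2⟩
        · rintro ⟨a1, a2⟩
          exact ⟨by omega, a2⟩)
      have hN1 : ∀ F ∈ G1, ∀ c ∈ F, htc c = h := fun F hF c hc => hG1.sub F hF c hc
      have hN2 : ∀ F ∈ G, ∀ c ∈ F, h < htc c ∧ htc c ≤ hi := by
        intro F hF c hc
        have := (hN c).1 (hC.grp.sub F hF c hc)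
        exact ⟨by omega, this.2⟩
      have hdis : ∀ F ∈ G, F ∉ G1 := by
        intro F hF hF1
        obtain ⟨c, hc⟩ := hC.grp.ne F hF
        have a1 := hN1 F hF1 c hc
        have a2 := (hN2 F hF c hc).1
        omega
      -- both sets of groups
      let Q : Option τ → Set (Cyc k) → DG k → Prop := fun o F g =>
        (∃ t, o = some t ∧ C t F g) ∨ (F ∈ G1 ∧ PH P isE isL hit mg C o F g)
      let N' : Set (Cyc k) := {c | hi < htc c + (n + 1) ∧ htc c ≤ hi}
      have hU : GrpOK N' (G ∪ G1) Q := by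
        refine ⟨?_, ?_, ?_, ?_, ?_⟩
        · rintro F (hF | hF)
          · exact hC.grp.ne F hF
          · exact hG1.ne F hF
        · rintro F (hF | hF) c hc
          · have := (hN c).1 (hC.grp.sub F hF c hc)
            exact ⟨by omega, this.2⟩
          · have := hN1 F hF c hc
            exact ⟨by omega, by omega⟩
        · rintro c ⟨hc1, hc2⟩
          rcases Nat.lt_or_ge hi (htc c + n) with h1 | h1
          · obtain ⟨F, hF, hcF⟩ := hC.grp.cov c ((hN c).2 ⟨h1, hc2⟩)
            exact ⟨F, Or.inl hF, hcF⟩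
          · obtain ⟨F, hF, hcF⟩ := hG1.cov c (by
              change htc c = h
              omega)
            exact ⟨F, Or.inr hF, hcF⟩
        · rintro F (hF | hF) F' (hF' | hF') c hc hc'
          · exact hC.grp.one F hF F' hF' c hc hc'
          · have a1 := (hN2 F hF c hc).1
            have a2 := hN1 F' hF' c hc'
            omega
          · have a1 := (hN2 F' hF' c hc').1
            have a2 := hN1 F hF c hc
            omega
          · exact hG1.one F hF F' hF' c hc hc'
        · rintro F (hF | hF)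
          · obtain ⟨t, g, hg⟩ := hC.grp.ex F hF
            exact ⟨some t, g, Or.inl ⟨t, rfl, hg⟩⟩
          · obtain ⟨t, g, hg⟩ := hG1.ex F hF
            exact ⟨t, g, Or.inr ⟨hF, hg⟩⟩
      -- the halves
      let A : Set (Set (Cyc k)) := {F | F ∈ G1 ∧ ¬ ∃ t g, PH P isE isL hit mg C (some t) F g}
      have hA : ∀ F : Set (Cyc k), ∃ E : Set (Cyc k), F ∈ A → ∃ t g t'' g'', C t E g ∧ isE t ∧
          mg F t E g ∧ P t'' (F ∪ E) g'' ∧ ¬ isE t'' ∧ ¬ isL t'' := by
        intro F
        by_cases hF : F ∈ A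
        · obtain ⟨o, g, hg⟩ := hG1.ex F hF.1
          rcases o with _ | t
          · obtain ⟨_, t, E, g, t'', g'', a⟩ := hg
            exact ⟨E, fun _ => ⟨t, g, t'', g'', a⟩⟩
          · exact absurd ⟨t, g, hg⟩ hF.2
        · exact ⟨∅, fun h' => absurd h' hF⟩
      choose e he using hA
      have heG : ∀ F ∈ A, e F ∈ G := by
        intro F hF
        obtain ⟨t, g, t'', g'', a, _⟩ := he F hF
        exact hC.mem t _ g a
      let D : τ → Set (Cyc k) → DG k → Prop := fun t F g =>
        C t F g ∨ (F ∈ G1 ∧ PH P isE isL hit mg C (some t) F g) ∨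
          ((∃ a ∈ A, F = a ∪ e a) ∧ P t F g ∧ ¬ isE t ∧ ¬ isL t)
      have hun := hU.unions (P' := D) A (fun a ha => Or.inr ha.1) e
        (fun a ha => ⟨Or.inl (heG a ha), fun h1 => hdis _ (heG a ha) h1.1⟩)
        (by
          intro a ha b hb hab
          obtain ⟨t, g, t'', g'', a1, a2, a3, _⟩ := he a ha
          obtain ⟨s, f, s'', f'', b1, b2, b3, _⟩ := he b hb
          rw [hab] at a1 a3
          obtain ⟨rfl, rfl⟩ := hC.uniq _ _ _ _ _ a1 b1
          exact hm a b t (e b) g (hC.le _ _ _ b1) b2 a3 b3)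
        (by
          intro a ha
          obtain ⟨t, g, t'', g'', a1, a2, a3, a4, a5, a6⟩ := he a ha
          exact ⟨t'', g'', Or.inr (Or.inr ⟨⟨a, ha, rfl⟩, a4, a5, a6⟩)⟩)
        (by
          rintro F (hF | hF) hFA
          · obtain ⟨t, g, hg⟩ := hC.grp.ex F hF
            exact ⟨t, g, Or.inl hg⟩
          · by_cases h2 : ∃ t g, PH P isE isL hit mg C (some t) F g
            · obtain ⟨t, g, hg⟩ := h2
              exact ⟨t, g, Or.inr (Or.inl ⟨hF, hg⟩)⟩
            · exact absurd rfl (hFA F ⟨hF, h2⟩).1)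
      obtain ⟨C', hC'⟩ := hun.chosen
      have hDP : ∀ t F g, D t F g → P t F g := by
        rintro t F g (h1 | h1 | h1)
        · exact hC.le t F g h1
        · exact h1.2.1
        · exact h1.2.1
      refine ⟨N', _, C', ⟨hC'.grp, fun t F g h1 => hDP t F g (hC'.le t F g h1), hC'.mem, hC'.uniq⟩,
        fun c => Iff.rfl, ?_⟩
      intro t F g t' F' g' h1 hL h2 hE hhit
      have hd1 := hC'.le _ _ _ h1
      have hd2 := hC'.le _ _ _ h2
      obtain ⟨c, hc⟩ := hC'.grp.ne F (hC'.mem _ _ _ h1)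
      obtain ⟨d, hd⟩ := hC'.grp.ne F' (hC'.mem _ _ _ h2)
      have hlt := hh t F g t' F' g' (hDP _ _ _ hd1) hL (hDP _ _ _ hd2) hE hhit c hc d hd
      rcases hd1 with e1 | e1 | e1
      · rcases hd2 with e2 | e2 | e2
        · exact hno t F g t' F' g' e1 hL e2 hE hhit
        · have a1 := (hN2 F (hC.mem _ _ _ e1) c hc).1
          have a2 := hN1 F' e2.1 d hd
          omega
        · exact e2.2.2.1 hE
      · rcases hd2 with e2 | e2 | e2
        · exact e1.2.2.2 hL t' F' g' e2 hE hhit
        · have a1 := hN1 F e1.1 c hc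
          have a2 := hN1 F' e2.1 d hd
          omega
        · exact e2.2.2.1 hE
      · exact e1.2.2.2 hL
  rcases Nat.lt_or_ge hi lo with hlt | hge
  · -- no height at all
    obtain ⟨N, G, C, hC, hN, hno⟩ := key 0 (by omega)
    have e : N = {p : Cyc k | lo ≤ htc p ∧ htc p ≤ hi} := by
      ext c
      rw [hN]
      constructor
      · rintro ⟨a1, a2⟩
        omega
      · rintro ⟨a1, a2⟩
        omega
    rw [e] at hC
    exact ⟨G, C, hC, hno⟩
  · obtain ⟨N, G, C, hC, hN, hno⟩ := key (hi + 1 - lo) (by omega)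
    have e : N = {p : Cyc k | lo ≤ htc p ∧ htc p ≤ hi} := by
      ext c
      rw [hN]
      constructor
      · rintro ⟨a1, a2⟩
        exact ⟨by omega, a2⟩
      · rintro ⟨a1, a2⟩
        exact ⟨by omega, a2⟩
    rw [e] at hC
    exact ⟨G, C, hC, hno⟩

end Pool.OddHC
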