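import Pool.Agent.Work.MP_8f87b2_h27.Mark

/-!
MP_8f87b2_co: the inner words `T (w i)` of a window contain `0 1 000` or `00 11 000` (`bad`), if the window has height at
least 5 (`4 ≤ ht s`).
-/

set_option autoImplicit false

namespace Pool.OddHC

open BinaryTree Equiv

namespace H1

variable {k q : ℕ}

/-- the two flags -/
def isF (F : List Bool) : Prop := F = [true, false, true, true, true] ∨ F = [true, true, false, false, true, true, true]

/-- `v` goes up: a prefix has more ones than zeros -/
def up (v : List Bool) : Prop := ∃ u, u <+: v ∧ u.count false < u.count true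

theorem up_append {v : List Bool} (h : up v) (w : List Bool) : up (v ++ w) := by
  obtain ⟨u, h1, h2⟩ := h
  exact ⟨u, h1.trans (List.prefix_append _ _), h2⟩

/-- a flag which is not the first maximum -/
def pg (t : BinaryTree Unit) : Prop := ∃ α F v, wd t = α ++ F ++ v ∧ isF F ∧ up v

theorem pg_l {A C : BinaryTree Unit} (h : pg A) : pg (A △ C) := by
  obtain ⟨α, F, v, e, h1, h2⟩ := h
  exact ⟨true :: α, F, v ++ false :: wd C, by rw [wd_node, e]; simp, h1, up_append h2 _⟩

theorem pg_r {A C : BinaryTree Unit} (h : pg C) : pg (A △ C) := by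
  obtain ⟨α, F, v, e, h1, h2⟩ := h
  exact ⟨true :: (wd A ++ false :: α), F, v, by rw [wd_node, e]; simp, h1, h2⟩

theorem pg_al {A C : BinaryTree Unit} (h : pg A) : pg (app A C) := by
  obtain ⟨α, F, v, e, h1, h2⟩ := h
  exact ⟨α, F, v ++ wd C, by rw [wd_app, e]; simp, h1, up_append h2 _⟩

theorem pg_ar {A C : BinaryTree Unit} (h : pg C) : pg (app A C) := by
  obtain ⟨α, F, v, e, h1, h2⟩ := h
  exact ⟨wd A ++ α, F, v, by rw [wd_app, e]; simp, h1, h2⟩

/-- words of height `n` reach the level `n` -/
theorem reach (t : BinaryTree Unit) : ∃ u, u <+: wd t ∧ u.count true = u.count false + OddHC.ht t := by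
  induction t with
  | nil => exact ⟨[], List.prefix_refl _, rfl⟩
  | node _ A C ihA ihC =>
    obtain ⟨u, ⟨u', hu⟩, h1⟩ := ihA
    obtain ⟨v, ⟨v', hv⟩, h2⟩ := ihC
    change ∃ u, u <+: wd (A △ C) ∧ u.count true = u.count false + OddHC.ht (A △ C)
    rw [wd_node, ht_node]
    rcases le_total (OddHC.ht C) (OddHC.ht A + 1) with h | h
    · refine ⟨true :: u, ⟨u' ++ false :: wd C, by rw [← hu]; simp⟩, ?_⟩
      rw [max_eq_left h, List.count_cons_self, List.count_cons_of_ne (by simp)]
      omega
    · refine ⟨true :: (wd A ++ false :: v), ⟨v', by rw [← hv]; simp⟩, ?_⟩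
      have h3 := wd_counts A
      rw [max_eq_right h, List.count_cons_self, List.count_cons_of_ne (by simp), List.count_append,
        List.count_append, List.count_cons_self, List.count_cons_of_ne (by simp), h3.1, h3.2]
      omega

/-- after the first three letters `111` of a heavy word of height at least 4 the word still goes up -/
theorem up_of {s : BinaryTree Unit} (h4 : 4 ≤ OddHC.ht s) {v : List Bool} (hv : wd s = true :: true :: true :: v) :
    up v := by
  obtain ⟨u, hu, hc⟩ := reach s
  rw [hv] at hu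
  have hl := List.count_le_length (l := u) (a := true)
  rcases u with _ | ⟨a, u⟩
  · simp at hc; omega
  rcases u with _ | ⟨b, u⟩
  · simp at hl; omega
  rcases u with _ | ⟨c, u⟩
  · simp at hl; omega
  rw [List.cons_prefix_cons, List.cons_prefix_cons, List.cons_prefix_cons] at hu
  obtain ⟨rfl, rfl, rfl, hu⟩ := hu
  refine ⟨u, hu, ?_⟩
  rw [List.count_cons_self, List.count_cons_self, List.count_cons_self, List.count_cons_of_ne (by simp),
    List.count_cons_of_ne (by simp), List.count_cons_of_ne (by simp)] at hc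
  omega

theorem isF_light {A X : BinaryTree Unit} (h : light A = true) {v : List Bool}
    (hX : wd X = true :: true :: true :: v) (hu : up v) : pg (A △ X) := by
  rcases light_cases h with rfl | rfl
  · exact ⟨[], [true, false, true, true, true], v, by rw [wd_node, hX]; simp [wd], Or.inl rfl, hu⟩
  · exact ⟨[], [true, true, false, false, true, true, true], v, by rw [wd_node, hX]; simp [wd],
      Or.inr rfl, hu⟩

theorem pg_H {H X : BinaryTree Unit} (h : bl H = true) (h0 : H ≠ .nil) {v : List Bool}
    (hX : wd X = true :: true :: true :: v) (hu : up v) : pg (app H X) := by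
  induction H with
  | nil => exact absurd rfl h0
  | node _ A H' _ ih =>
    rw [bl, Bool.and_eq_true] at h
    rw [app]
    by_cases hn : H' = .nil
    · subst hn
      exact isF_light h.1 hX hu
    · exact pg_r (ih h.2 hn)

/-- the words with `R` -/
theorem pg_lo {R B S Q : BinaryTree Unit} (h : pg R) : ∀ i < 10, pg (W R Q B S i) := by
  intro i hi
  interval_cases i
  · exact pg_al h
  · exact pg_al h
  · exact pg_r (pg_al h)
  · exact pg_l (pg_al h)
  · exact pg_r h
  · exact pg_r (pg_r h)
  · exact pg_l h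
  · exact pg_ar (pg_l (pg_r h))
  · exact pg_ar (pg_r (pg_l h))
  · exact pg_l (pg_l h)

theorem not_up {a b : List Bool} {t : BinaryTree Unit} (ht : wd t = b.map not ++ false :: a.map not) : ¬ up b := by
  rintro ⟨u, ⟨u', hu⟩, hc⟩
  have h1 := wd_take t u.length
  rw [ht, ← hu, List.map_append, List.append_assoc, List.take_left' (by simp)] at h1
  have h2 : (u.map not).count true = u.count false := Tsq.count_not_true u
  have h3 : (u.map not).count false = u.count true := Tsq.count_not_false u
  omega

theorem up_cons {l : List Bool} : up (true :: l) := ⟨[true], ⟨l, rfl⟩, by simp⟩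

/-- splitting a list in two ways -/
theorem split2 {a b α v F : List Bool} (h : a ++ true :: b = α ++ F ++ v) (hF : F ≠ []) :
    (∃ c, a = α ++ F ++ c) ∨ (∃ c, b = c ++ F ++ v) ∨ ∃ f1 f2, F = f1 ++ true :: f2 ∧ b = f2 ++ v := by
  rw [List.append_assoc, List.append_eq_append_iff] at h
  rcases h with ⟨c, rfl, h⟩ | ⟨c, rfl, h⟩
  · rcases c with _ | ⟨x, c⟩
    · rw [List.nil_append] at h
      rcases F with _ | ⟨y, F⟩
      · exact absurd rfl hF
      · rw [List.cons_append, List.cons.injEq] at h
        exact Or.inr (Or.inr ⟨[], F, by rw [← h.1]; rfl, h.2⟩)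
    · rw [List.cons_append, List.cons.injEq] at h
      exact Or.inr (Or.inl ⟨c, by rw [h.2, List.append_assoc]⟩)
  · rw [List.append_eq_append_iff] at h
    rcases h with ⟨d, rfl, h⟩ | ⟨d, rfl, h⟩
    · exact Or.inl ⟨d, by rw [List.append_assoc]⟩
    · rcases d with _ | ⟨x, d⟩
      · exact Or.inl ⟨[], by simp⟩
      · rw [List.cons_append, List.cons.injEq] at h
        exact Or.inr (Or.inr ⟨c, d, by rw [← h.1], h.2⟩)

theorem isF_split {F f1 f2 : List Bool} (hF : isF F) (h : F = f1 ++ true :: f2) : f2 = [] ∨ up f2 := by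
  have u1 : up [true] := ⟨[true], List.prefix_refl _, by simp⟩
  have u2 : up [true, true] := ⟨[true], ⟨[true], rfl⟩, by simp⟩
  have u3 : up [false, true, true, true] := ⟨[false, true, true], ⟨[true], rfl⟩, by simp⟩
  have u4 : up [false, false, true, true, true] := ⟨_, List.prefix_refl _, by simp⟩
  have u5 : up [true, false, false, true, true, true] := ⟨[true], ⟨_, rfl⟩, by simp⟩
  rcases hF with rfl | rfl
  · rcases f1 with _ | ⟨x1, _ | ⟨x2, _ | ⟨x3, _ | ⟨x4, _ | ⟨x5, _ | ⟨x6, f⟩⟩⟩⟩⟩⟩ <;>
      simp only [List.nil_append, List.cons_append, List.cons.injEq, reduceCtorEq, and_false, true_and,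
        false_and, Bool.false_eq_true] at h <;>
      first
        | (exact Or.inr (h ▸ u3))
        | (exact Or.inr (h.2 ▸ u3))
        | (exact Or.inr (h.2.2 ▸ u2))
        | (exact Or.inr (h.2.2.2 ▸ u1))
        | (exact Or.inl h.2.2.2.2.symm)
  · rcases f1 with _ | ⟨x1, _ | ⟨x2, _ | ⟨x3, _ | ⟨x4, _ | ⟨x5, _ | ⟨x6, _ | ⟨x7, _ | ⟨x8, f⟩⟩⟩⟩⟩⟩⟩⟩ <;>
      simp only [List.nil_append, List.cons_append, List.cons.injEq, reduceCtorEq, and_false, true_and,
        false_and, Bool.false_eq_true] at h <;>
      first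
        | (exact Or.inr (h ▸ u5))
        | (exact Or.inr (h.2 ▸ u4))
        | (exact Or.inr (h.2.2.2.2 ▸ u2))
        | (exact Or.inr (h.2.2.2.2.2 ▸ u1))
        | (exact Or.inl h.2.2.2.2.2.2.symm)

/-- **a flag which is not the first maximum gives `0 1 000` or `00 11 000` in `T w`** -/
theorem bad_TT (x : X k) (h : pg x.1) : bad (wd (TT x).1) := by
  obtain ⟨α, F, v, e, hF, hv⟩ := h
  have hF0 : F ≠ [] := by rcases hF with rfl | rfl <;> simp
  have hx : x.1 ≠ .nil := by
    intro h0
    rw [h0] at e
    have := congrArg List.length e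
    simp [wd] at this
    exact hF0 (List.length_eq_zero_iff.1 (by omega))
  obtain ⟨a, b, h1, h2⟩ := Tsq.TT_dec x hx
  have key : F.map not <:+: wd (TT x).1 → bad (wd (TT x).1) := by
    intro hi
    rcases hF with rfl | rfl
    · exact Or.inl hi
    · exact Or.inr hi
  rw [e] at h1
  rcases split2 h1.symm hF0 with ⟨c, rfl⟩ | ⟨c, rfl⟩ | ⟨f1, f2, h3, rfl⟩
  · apply key
    rw [h2]
    exact ⟨b.map not ++ false :: α.map not, c.map not, by simp⟩
  · apply key
    rw [h2]
    exact ⟨c.map not, v.map not ++ false :: a.map not, by simp⟩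
  · exfalso
    apply not_up h2
    rcases isF_split hF h3 with rfl | h4
    · exact hv
    · exact up_append h4 v

/-- **the inner words of a window of height at least 5 are bad** -/
theorem NodeG.inner_bad {B1 H s B : BinaryTree Unit} (h : NodeG k q B1 H s B) (h4 : 4 ≤ OddHC.ht s) (w0 : X k)
    {i : ℕ} (hi : i < 10) : bad (wd (TT (gX q B1 H s B w0 i)).1) := by
  apply bad_TT
  rw [h.word w0 (by omega)]
  apply pg_lo _ i hi
  obtain ⟨v, hv⟩ := hv_ttt h.hs h.s0
  exact pg_ar (pg_l (pg_H h.light h.H0 hv (up_of h4 hv)))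

/-- a word without `0 1 000` and `00 11 000` is not an inner word -/
theorem NodeG.inner_ne {B1 H s B : BinaryTree Unit} (h : NodeG k q B1 H s B) (h4 : 4 ≤ OddHC.ht s) (w0 : X k)
    {i : ℕ} (hi : i < 10) {w : X k} (hw : H1.run St.e (wd w.1) ≠ St.dead) : TT (gX q B1 H s B w0 i) ≠ w := by
  intro e
  have h1 := h.inner_bad h4 w0 hi
  rw [e] at h1
  exact hw (bad_dead h1 St.e)

end H1

end Pool.OddHC
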