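import Pool.Agent.Work.MP_8f87b2_h27.Inn
import Pool.Agent.Work.MP_8f87b2_h27.MarkTri

/-!
MP_8f87b2_co: the links K, C, C' with `S = S0 ()^m` (`S0` heavy) have no factor `0 1 000`, `00 11 000`: their words are not
inner words of windows of height at least 5.
-/

set_option autoImplicit false

namespace Pool.OddHC

open BinaryTree

namespace H1

/-- `nd t`: reading `t` never completes a forbidden factor -/
def nd (t : BinaryTree Unit) : Prop := ∀ σ : St, σ ≠ .dead → run σ (wd t) ≠ .dead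

/-- `ns t`: moreover `t` may be closed -/
def ns (t : BinaryTree Unit) : Prop := ∀ σ : St, σ ≠ .dead → stp (run σ (wd t)) false ≠ .dead

theorem stp_dead (b : Bool) : stp .dead b = .dead := by cases b <;> rfl

theorem ns.nd {t : BinaryTree Unit} (h : ns t) : nd t := by
  intro σ hσ e
  apply h σ hσ
  rw [e]
  rfl

theorem nd_nil : nd .nil := fun _ h => h

theorem ns_nil' {σ : St} (h : σ ≠ .dead) : stp (stp σ true) false ≠ .dead := by
  cases σ <;> first | (exact absurd rfl h) | (intro h2; cases h2)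

theorem nd_app {P Q : BinaryTree Unit} (hP : nd P) (hQ : nd Q) : nd (app P Q) := by
  intro σ hσ
  rw [wd_app, run_append]
  exact hQ _ (hP σ hσ)

/-- closing a nonempty word or the empty one after `true` -/
theorem nd_node {A C : BinaryTree Unit} (hA : A = .nil ∨ ns A) (hC : nd C) : nd (A △ C) := by
  intro σ hσ
  rw [run_node]
  apply hC
  rcases hA with rfl | hA
  · exact ns_nil' hσ
  · exact hA _ (stp_true hσ)

theorem nd_ch (n : ℕ) : nd (ch n) := fun _ h => run_ch_nd n h

theorem nd_hv {A : BinaryTree Unit} (h : hv A) : nd A := fun _ hσ => run_hv_nd h hσ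

/-- after a heavy word and beads -/
theorem run_back {A : BinaryTree Unit} (h : hv A) (h0 : A ≠ .nil) {σ : St} (hσ : σ ≠ .dead) (m : ℕ) :
    run σ (wd (app A (lp m))) = .zz ∨ run σ (wd (app A (lp m))) = .zuz := by
  rw [wd_app, run_append, run_hv h h0 σ hσ]
  have key : ∀ n : ℕ, run .zuz (wd (lp n)) = .zuz := by
    intro n
    induction n with
    | zero => rfl
    | succ n ih =>
      change run .zuz (wd (.nil △ lp n)) = _
      rw [run_node]
      exact ih
  rcases m with _ | m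
  · exact Or.inl rfl
  · right
    change run .zz (wd (.nil △ lp m)) = _
    rw [run_node]
    exact key m

theorem ns_back {A : BinaryTree Unit} (h : hv A) (h0 : A ≠ .nil) (m : ℕ) : ns (app A (lp m)) := by
  intro σ hσ
  rcases run_back h h0 hσ m with e | e
  · rw [e]; intro h2; cases h2
  · rw [e]; intro h2; cases h2

end H1

variable {k : ℕ} {P Q R : BinaryTree Unit} {F F' : Set (Cyc k)} {g g' : DG k}

open H1

/-- the words of `P(Q)R, Q(R)P, R(P)Q` -/
theorem IsTri.nd3 (h : IsTri P Q R F g) (hP : P = .nil ∨ ns P) (hQ : Q = .nil ∨ ns Q) (hR : nd R)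
    (hR' : nd (w1 Q R P)) : ∀ w ∈ g.B, nd w.1 := by
  have g0 : ∀ {T : BinaryTree Unit}, T = .nil ∨ ns T → nd T := by
    rintro T (rfl | h)
    · exact nd_nil
    · exact h.nd
  intro w hw
  rcases h.words w hw with e | ⟨_, e | e⟩
  · rw [e]; exact nd_app (g0 hP) (nd_node hQ hR)
  · rw [e]; exact hR'
  · rw [e]; exact nd_app hR (nd_node hP (g0 hQ))

/-- the inner words of a window `TyA` of height at least 5 are not words without forbidden factor -/
theorem TyA.inner_ne (h : TyA F g) (h5 : ∀ c ∈ F, 5 ≤ htc c) {a : X k × X k} (ha : a ∈ g.arcs) {w : X k}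
    (hw : nd w.1) : w ∉ innA a := by
  obtain ⟨q, B1, H, s, B, w0, hG, rfl, rfl⟩ := h
  have h4 : 4 ≤ OddHC.ht s := by
    have e1 := h5 _ rfl
    rw [htc_cyc, hG.word w0 (by norm_num)] at e1
    change 5 ≤ OddHC.ht (app _ _) at e1
    rw [ht_app, hG.ht] at e1
    have e2 := hG.big
    have e3 : OddHC.ht ((ch (q + 1) △ .nil) △ .nil) = q + 3 := ch_ht (q + 3)
    rw [e3] at e1
    omega
  have key : ∀ i < 10, w ∉ ({TT (gX q B1 H s B w0 i)} : Set (X k)) := by
    intro i hi e
    have e' : w = TT (gX q B1 H s B w0 i) := e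
    exact hG.inner_ne h4 w0 hi (hw St.e (by intro h2; cases h2)) e'.symm
  have hp : a = (gX q B1 H s B w0 0, gX q B1 H s B w0 10) ∨
      a = (gX q B1 H s B w0 1, gX q B1 H s B w0 11) ∨
      a = (gX q B1 H s B w0 3, gX q B1 H s B w0 12) ∨
      a = (gX q B1 H s B w0 6, gX q B1 H s B w0 15) ∨
      a = (gX q B1 H s B w0 8, gX q B1 H s B w0 14) ∨
      a = (gX q B1 H s B w0 9, gX q B1 H s B w0 17) := ha
  rcases hp with rfl | rfl | rfl | rfl | rfl | rfl
  · exact key 0 (by norm_num)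
  · exact key 1 (by norm_num)
  · exact key 3 (by norm_num)
  · exact key 6 (by norm_num)
  · exact key 8 (by norm_num)
  · exact key 9 (by norm_num)

section

variable {S0 : BinaryTree Unit} {c m : ℕ}

/-- **K** with `S = S0 ()^m` -/
theorem TyK.nd (h : TyK (app S0 (lp m)) F g) (h0 : hv S0) (h1 : S0 ≠ .nil) : ∀ w ∈ g.B, nd w.1 := by
  refine IsTri.nd3 h (Or.inl rfl) (Or.inr (ns_back h0 h1 m)) (nd_node (Or.inl rfl) nd_nil) ?_
  exact nd_app (ns_back h0 h1 m).nd (nd_ch 2)

/-- **C** with `S = S0 ()^m` -/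
theorem TyC.nd (h : TyC c (app S0 (lp m)) F g) (h0 : hv S0) (h1 : S0 ≠ .nil) : ∀ w ∈ g.B, nd w.1 := by
  refine IsTri.nd3 h (Or.inl rfl) (Or.inr (ns_back h0 h1 m)) (nd_ch c) ?_
  exact nd_app (ns_back h0 h1 m).nd (nd_ch (c + 1))

/-- **C'** with `S = S0 ()^m` -/
theorem TyC'.nd (h : TyC' c (app S0 (lp m)) F g) (h0 : hv S0) (h1 : S0 ≠ .nil) : ∀ w ∈ g.B, nd w.1 := by
  have g0 := ns_back h0 h1 m
  intro w hw
  rcases IsTri.words h w hw with e | ⟨_, e | e⟩
  · rw [e]; exact nd_app (nd_ch c) (nd_node (Or.inr g0) nd_nil)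
  · rw [e]; exact nd_app g0.nd (nd_node (Or.inl rfl) (nd_ch c))
  · rw [e]; exact nd_app (P := .nil) nd_nil (nd_app (P := ch (c + 1)) (nd_ch (c + 1)) g0.nd)

end

end Pool.OddHC
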