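import Pool.Agent.Work.MP_8f87b2_h71.H1Gen

/-!
MP_8f87b2_co: every word of an H1 window has a marked component (`am`). So a word without a marked component is not a word
of a window: plain triples with unmarked words never meet a window.
-/

set_option autoImplicit false

namespace Pool.OddHC

open BinaryTree

namespace H1

variable {k q : ℕ} {R B S : BinaryTree Unit}

theorem am_node_l {A : BinaryTree Unit} (X : BinaryTree Unit) (h : am A = true) : am (A △ X) = true := by
  rw [am_node, mk_of_am h]; rfl

theorem am_node_r (A : BinaryTree Unit) {X : BinaryTree Unit} (h : am X = true) : am (A △ X) = true := by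
  rw [am_node, h, Bool.or_true]

theorem am_app_l {A : BinaryTree Unit} (X : BinaryTree Unit) (h : am A = true) : am (app A X) = true := by
  rw [am_app, h]; rfl

theorem am_app_r (A : BinaryTree Unit) {X : BinaryTree Unit} (h : am X = true) : am (app A X) = true := by
  rw [am_app, h, Bool.or_true]

theorem Adm.amR (h : Adm q R B S) : am R = true := by
  obtain ⟨B1, P, _, h2, _, rfl⟩ := h.hR
  exact am_mid (mk_of_PB h2)

theorem Adm.amS (h : Adm q R B S) : am S = true := by
  obtain ⟨B1, F, Y, β, _, h2, _, rfl⟩ := h.hS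
  exact am_node_l _ (am_mid (mk_of_PB h2))

/-- **every word of a window is marked** -/
theorem Adm.am_W (h : Adm q R B S) (Q : BinaryTree Unit) (i : ℕ) : am (W R Q B S i) = true := by
  have hR := h.amR
  have hS := h.amS
  match i with
  | 0 => exact am_app_l _ hR
  | 1 => exact am_app_l _ hR
  | 2 => exact am_node_r _ (am_app_l _ hR)
  | 3 => exact am_node_l _ (am_app_l _ hR)
  | 4 => exact am_node_r _ hR
  | 5 => exact am_node_r _ (am_node_r _ hR)
  | 6 => exact am_node_l _ hR
  | 7 => exact am_app_r _ (am_node_l _ (am_node_r _ hR))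
  | 8 => exact am_app_r _ (am_node_r _ (am_node_l _ hR))
  | 9 => exact am_node_l _ (am_node_l _ hR)
  | 10 => exact am_app_r _ (am_node_r _ hS)
  | 11 => exact am_app_r _ (am_node_r _ (am_app_r _ (am_node_r _ hS)))
  | 12 => exact am_node_l _ hS
  | 13 => exact am_app_l _ hS
  | 14 => exact am_node_l _ (am_app_r _ (am_node_r _ hS))
  | 15 => exact am_node_r _ (am_node_l _ hS)
  | 16 => exact am_app_l _ hS
  | 17 => exact am_app_r _ (am_node_l _ (am_node_l _ hS))
  | 18 => exact am_app_r _ (am_node_r _ (am_app_l _ hS))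
  | _ + 19 => exact am_node_l _ (am_app_l _ hS)

theorem NodeG.am_word {B1 H s B : BinaryTree Unit} (h : NodeG k q B1 H s B) (w0 : X k) {i : ℕ} (hi : i < 20) :
    am (gX q B1 H s B w0 i).1 = true := by
  rw [h.word w0 hi]
  exact h.adm.am_W _ i

theorem NodeA.am_word {a m : ℕ} {R0 B1 s B : BinaryTree Unit} (h : NodeA k q a m R0 B1 s B) (w0 : X k) {i : ℕ}
    (hi : i < 20) : am (nX q a m B1 s B w0 i).1 = true := by
  rw [h.word w0 hi]
  exact (node_adm (q := q) h.tall h.part3 h.four h.pos).2.am_W _ i

/-! ### Unmarked words -/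

theorem am_w1 {P Q R : BinaryTree Unit} (h : am (w1 P Q R) = false) : am P = false ∧ mk Q = false ∧ am R = false := by
  have h' : am (app P (Q △ R)) = false := h
  rw [am_app, am_node, Bool.or_eq_false_iff, Bool.or_eq_false_iff] at h'
  exact ⟨h'.1, h'.2.1, h'.2.2⟩

theorem am_w1_iff {P Q R : BinaryTree Unit} : am (w1 P Q R) = false ↔ am P = false ∧ mk Q = false ∧ am R = false := by
  constructor
  · exact am_w1
  · rintro ⟨h1, h2, h3⟩
    change am (app P (Q △ R)) = false
    rw [am_app, am_node, h1, h2, h3]
    rfl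

end H1

end Pool.OddHC
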