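import Pool.Agent.Work.MP_8f87b2_fin.R1Gen

/-!
# The L pairs with both possible leftovers

Over a hop `U, U₂` of the reduced cycles: the words `b = R(())()`, `c = ()(())R` of the L pair, and for the same `R` the words
`b' = R(()())`, `c' = (()())R` in the families of `b`, `c` (the 5-cycle P5 uses `b, c'` or `b', c`). `tyLP_of_hop`: the
provider of pairs `{p, q}` for a class theorem, with any choice `{b, c}`, `{b, c'}`, `{b', c}`.
-/

set_option autoImplicit false

namespace Pool.OddHC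

open Finset BinaryTree Multiset Pool.OddHop

variable {i j k : ℕ}

/-- the four words over `R` -/
structure LOpt (R : BinaryTree Unit) (b c b' c' : X k) : Prop where
  wb : b.1 = w1 R (lp 1) (lp 1)
  wc : c.1 = w1 (lp 1) (lp 1) R
  wb' : b'.1 = w1 R (lp 2) .nil
  wc' : c'.1 = w1 .nil (lp 2) R
  nbc : cyc b ≠ cyc c
  rb : Rd (cyc b') = Rd (cyc b)
  rc : Rd (cyc c') = Rd (cyc c)
  rbc : Rd (cyc b) ≠ Rd (cyc c)

/-- **L-PAIR WITH BOTH LEFTOVERS** -/
theorem EData.l_opt {U U₂ : Cyc j} (hne : U ≠ U₂) {r : X i} {f : ZMod (2 * i + 1) → ℕ}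
    (hE : EData U U₂ i r f) {m : ℕ} (hk : j + pkc U + m = k) {e : List ℕ}
    (he : e.length = 2 * (ins r.1 (lf f)).numNodes + 1) (hs : e.sum + 1 = m)
    (h2 : m = 2 → e = midL (ins r.1 (lf f)).numNodes 1) :
    ∃ (b c b' c' : X k) (g : DG k), LOpt (ins (ins r.1 (lf f)) e) b c b' c' ∧
      ((Rd (cyc b) = ⟨j, U⟩ ∧ Rd (cyc c) = ⟨j, U₂⟩) ∨ (Rd (cyc b) = ⟨j, U₂⟩ ∧ Rd (cyc c) = ⟨j, U⟩)) ∧
      (m = 2 → j % 2 = 0 → TopTwo (cyc b) ∧ TopTwo (cyc c) ∧ TopTwo (cyc b') ∧ TopTwo (cyc c')) ∧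
      IsTri (lp 1) (ins (ins r.1 (lf f)) e) (lp 1) {cyc b, cyc c} g := by
  obtain ⟨R, hR⟩ : ∃ R, R = ins r.1 (lf f) := ⟨_, rfl⟩
  have hw := hE.words
  rw [← hR] at hw he h2 ⊢
  have hnum : R.numNodes + 1 = j := by
    have h1 := (ins_num r.1 (lf f) (by rw [lf_length, X_num])).1
    rw [← hR, lf_sum, X_num] at h1
    have := hE.size
    omega
  have hRn : R ≠ .nil := by
    rintro h0
    rw [h0] at hnum
    have h1 := hE.size
    have h2 := hE.hj
    change 0 + 1 = j at hnum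
    omega
  obtain ⟨v, hv⟩ : ∃ v : X j, v.1 = .nil △ R := ⟨⟨_, mem_treesOfNumNodesEq.2 (by
    change 0 + R.numNodes + 1 = j
    omega)⟩, rfl⟩
  obtain ⟨v', hv'⟩ : ∃ v' : X j, v'.1 = app R (.nil △ .nil) := ⟨⟨_, mem_treesOfNumNodesEq.2 (by
    rw [num_app]
    change R.numNodes + 1 = j
    omega)⟩, rfl⟩
  have hcvv : (cyc v = U ∧ cyc v' = U₂) ∨ (cyc v = U₂ ∧ cyc v' = U) := by
    rcases hw with hw | hw
    · exact Or.inl (hw v v' hv hv')
    · exact Or.inr (hw v v' hv hv')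
  have hpk' : pkn v.1 = pkn v'.1 := by
    rw [← cont_card, ← cont_card, hv, hv', cont_app, cont_node]
    rw [cont_node, cont_nil, add_zero, add_comm]
  have hpk : pkn v.1 = pkc U := by
    rcases hcvv with ⟨h5, _⟩ | ⟨_, h5⟩
    · rw [← pkc_cyc, h5]
    · rw [hpk', ← pkc_cyc, h5]
  obtain ⟨a, b, c, ha, hb, hc, hbe, hce, hb1, hc1, _, _⟩ := lw_words (k := k) hv hv' he
    (p := 1) (q := 1) le_rfl le_rfl (by rw [hpk]; omega)
  -- the other two words
  have lb : (e ++ [1, 0]).length = 2 * v'.1.numNodes + 1 := by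
    rw [List.length_append, he, X_num]
    simp
    omega
  have lc : (0 :: 1 :: e).length = 2 * v.1.numNodes + 1 := by
    rw [List.length_cons, List.length_cons, he, X_num]
    omega
  have sb : (e ++ [1, 0]).sum = m := by
    rw [List.sum_append]
    simp
    omega
  have sc : (0 :: 1 :: e).sum = m := by
    rw [List.sum_cons, List.sum_cons]
    omega
  obtain ⟨b', hb'⟩ : ∃ b' : X k, b'.1 = ins v'.1 (e ++ [1, 0]) := by
    have h1 := (ins_num v'.1 (e ++ [1, 0]) lb).1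
    rw [sb, X_num, ← hpk', hpk] at h1
    exact ⟨⟨_, mem_treesOfNumNodesEq.2 (h1.trans hk)⟩, rfl⟩
  obtain ⟨c', hc'⟩ : ∃ c' : X k, c'.1 = ins v.1 (0 :: 1 :: e) := by
    have h1 := (ins_num v.1 (0 :: 1 :: e) lc).1
    rw [sc, X_num, hpk] at h1
    exact ⟨⟨_, mem_treesOfNumNodesEq.2 (h1.trans hk)⟩, rfl⟩
  have hb'2 : b'.1 = w1 (ins R e) (lp 2) .nil := by
    rw [hb', hv', lw_back _ _ _ _ he]
    rfl
  have hc'2 : c'.1 = w1 .nil (lp 2) (ins R e) := by
    rw [hc', hv, lw_front]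
    rfl
  have rb : Rd (cyc b') = ⟨j, cyc v'⟩ := Rd_ins (by rw [lb, X_num]) hb'
  have rc : Rd (cyc c') = ⟨j, cyc v⟩ := Rd_ins (by rw [lc, X_num]) hc'
  have hrd : Rd (cyc b) ≠ Rd (cyc c) := by
    intro h
    rw [hb1, hc1] at h
    have h5 := eq_of_heq (Sigma.mk.inj_iff.1 h).2
    rcases hcvv with ⟨h6, h7⟩ | ⟨h6, h7⟩
    · rw [h6, h7] at h5
      exact hne h5.symm
    · rw [h6, h7] at h5
      exact hne h5
  have hcb : cyc b ≠ cyc c := fun h => hrd (by rw [h])
  have hhR := ht_ins_ge R e hRn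
  have hlp : ht (lp 1) = 1 := rfl
  have hb2 : htc (cyc b) = ht (ins R e) := by
    rw [htc_cyc, hb, ht_w1, hlp]
    omega
  have hc2 : htc (cyc c) = ht (ins R e) := by
    rw [htc_cyc, hc, ht_w1, hlp]
    omega
  have ha2 : htc (cyc a) = ht (ins R e) + 1 := by
    rw [htc_cyc, ha, ht_w1, hlp]
    omega
  refine ⟨b, c, b', c', pDG {a, b, c} (cyc b) (cyc c) ∅,
    ⟨hb, hc, hb'2, hc'2, hcb, by rw [rb, hb1], by rw [rc, hc1], hrd⟩, ?_, ?_,
    ⟨a, b, c, ha, hb, hc, hcb, by rw [hb2, hc2], by rw [hb2, ha2]; omega, rfl, rfl⟩⟩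
  · rcases hcvv with ⟨h6, h7⟩ | ⟨h6, h7⟩
    · exact Or.inr ⟨by rw [hb1, h7], by rw [hc1, h6]⟩
    · exact Or.inl ⟨by rw [hb1, h7], by rw [hc1, h6]⟩
  · intro hm hj2
    have hem := h2 hm
    rw [hem] at hbe hce hb' hc'
    have hlen := midL_length R.numNodes 1
    refine ⟨?_, ?_, ?_, ?_⟩
    · refine topTwo_of_list (e := midL R.numNodes 1 ++ [1 - 1, 1]) ?_ hbe R.numNodes
        (2 * R.numNodes + 2) (by omega) (by omega) (Or.inr (by omega)) hj2 ?_
      · rw [List.length_append, hlen]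
        simp
        omega
      · intro z hz
        by_cases h1 : z < 2 * R.numNodes + 1
        · rw [List.getD_append _ _ _ _ (by rw [hlen]; exact h1), midL_getD,
            if_neg (show ¬ z = 2 * R.numNodes + 2 by omega), add_zero]
        · rw [List.getD_append_right _ _ _ _ (by rw [hlen]; omega), hlen,
            if_neg (show ¬ z = R.numNodes by omega)]
          have h3 : z = 2 * R.numNodes + 1 ∨ z = 2 * R.numNodes + 2 := by omega
          rcases h3 with rfl | rfl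
          · simp
          · simp
    · refine topTwo_of_list (e := 1 :: (1 - 1) :: midL R.numNodes 1) ?_ hce 0
        (R.numNodes + 2) (by omega) (by omega) (Or.inr (by omega)) hj2 ?_
      · rw [List.length_cons, List.length_cons, hlen]
        omega
      · intro z hz
        rcases z with _ | _ | z
        · simp
        · simp
        · rw [List.getD_cons_succ, List.getD_cons_succ, midL_getD,
            if_neg (show ¬ z + 1 + 1 = 0 by omega), zero_add]
          by_cases h3 : z = R.numNodes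
          · rw [if_pos h3, if_pos (by omega)]
          · rw [if_neg h3, if_neg (by omega)]
    · refine topTwo_of_list (e := midL R.numNodes 1 ++ [1, 0]) ?_ hb' R.numNodes
        (2 * R.numNodes + 1) (by omega) (by omega) (Or.inl (by omega)) hj2 ?_
      · rw [List.length_append, hlen]
        simp
        omega
      · intro z hz
        by_cases h1 : z < 2 * R.numNodes + 1
        · rw [List.getD_append _ _ _ _ (by rw [hlen]; exact h1), midL_getD,
            if_neg (show ¬ z = 2 * R.numNodes + 1 by omega), add_zero]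
        · rw [List.getD_append_right _ _ _ _ (by rw [hlen]; omega), hlen,
            if_neg (show ¬ z = R.numNodes by omega)]
          have h3 : z = 2 * R.numNodes + 1 ∨ z = 2 * R.numNodes + 2 := by omega
          rcases h3 with rfl | rfl
          · simp
          · simp
    · refine topTwo_of_list (e := 0 :: 1 :: midL R.numNodes 1) ?_ hc' 1
        (R.numNodes + 2) (by omega) (by omega) (Or.inl (by omega)) hj2 ?_
      · rw [List.length_cons, List.length_cons, hlen]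
        omega
      · intro z hz
        rcases z with _ | _ | z
        · simp
        · simp
        · rw [List.getD_cons_succ, List.getD_cons_succ, midL_getD,
            if_neg (show ¬ z + 1 + 1 = 1 by omega), zero_add]
          by_cases h3 : z = R.numNodes
          · rw [if_pos h3, if_pos (by omega)]
          · rw [if_neg h3, if_neg (by omega)]

/-- **THE PROVIDER**: a pair over a hop of the reduced cycles, with any of the three choices -/
theorem tyLP_of_hop (Ty : Set (Cyc k) → Prop) {U U₂ : Cyc j} (hne : U ≠ U₂) (h : HopC U U₂) {m : ℕ}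
    (hm : 1 ≤ m) (hk : j + pkc U + m = k)
    (hTy : ∀ (R : BinaryTree Unit) (b c b' c' : X k) (g : DG k), LOpt R b c b' c' →
      TyL {cyc b, cyc c} g → IsTri (lp 1) R (lp 1) {cyc b, cyc c} g →
      ((Rd (cyc b) = ⟨j, U⟩ ∧ Rd (cyc c) = ⟨j, U₂⟩) ∨ (Rd (cyc b) = ⟨j, U₂⟩ ∧ Rd (cyc c) = ⟨j, U⟩)) →
      Ty {cyc b, cyc c} ∨ Ty {cyc b, cyc c'} ∨ Ty {cyc b', cyc c}) :
    ∃ p q : Cyc k, Rd p = ⟨j, U⟩ ∧ Rd q = ⟨j, U₂⟩ ∧ (m = 2 → j % 2 = 0 → TopTwo p ∧ TopTwo q) ∧
      Ty {p, q} := by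
  obtain ⟨i, r, f, hE, -⟩ := h.edata'
  obtain ⟨b, c, b', c', g, h1, h2, h3, h4⟩ := hE.l_opt hne hk
    (e := midL (ins r.1 (lf f)).numNodes (m - 1)) (midL_length _ _) (by rw [midL_sum]; omega)
    (by rintro rfl; rfl)
  have hnum : (ins r.1 (lf f)).numNodes + 1 = j := by
    have h1 := (ins_num r.1 (lf f) (by rw [lf_length, X_num])).1
    rw [lf_sum, X_num] at h1
    have := hE.size
    omega
  have hRn : ins r.1 (lf f) ≠ .nil := by
    rintro h0
    rw [h0] at hnum
    have h1 := hE.size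
    have h2 := hE.hj
    change 0 + 1 = j at hnum
    omega
  obtain ⟨n, hn⟩ : ∃ n, (ins r.1 (lf f)).numNodes = n + 1 := by
    have h1 := hE.size
    have h2 := hE.hj
    exact ⟨(ins r.1 (lf f)).numNodes - 1, by omega⟩
  have hL : TyL {cyc b, cyc c} g := by
    refine ⟨_, _, hRn, midL_length _ _, ?_, ?_, h4⟩
    · apply H1.fb_lv0 hRn (midL_length _ _)
      rw [hn]
      rfl
    · apply H1.lastB_ins hRn (midL_length _ _)
      rw [hn]
      unfold midL
      rw [List.replicate_succ' (n := n)]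
      rw [← List.cons_append, ← List.append_assoc, List.getLastD_concat]
  have key : ∀ p q : Cyc k, Rd p = Rd (cyc b) → Rd q = Rd (cyc c) →
      (m = 2 → j % 2 = 0 → TopTwo p ∧ TopTwo q) → Ty {p, q} →
      ∃ p q : Cyc k, Rd p = ⟨j, U⟩ ∧ Rd q = ⟨j, U₂⟩ ∧ (m = 2 → j % 2 = 0 → TopTwo p ∧ TopTwo q) ∧
        Ty {p, q} := by
    intro p q hp hq ht hT
    rcases h2 with ⟨e1, e2⟩ | ⟨e1, e2⟩
    · exact ⟨p, q, by rw [hp, e1], by rw [hq, e2], ht, hT⟩
    · refine ⟨q, p, by rw [hq, e2], by rw [hp, e1], fun a1 a2 => (ht a1 a2).symm, ?_⟩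
      rw [Set.pair_comm]
      exact hT
  rcases hTy _ b c b' c' g h1 hL h4 h2 with h5 | h5 | h5
  · exact key _ _ rfl rfl (fun a1 a2 => ⟨(h3 a1 a2).1, (h3 a1 a2).2.1⟩) h5
  · exact key _ _ rfl h1.rc (fun a1 a2 => ⟨(h3 a1 a2).1, (h3 a1 a2).2.2.2⟩) h5
  · exact key _ _ h1.rb rfl (fun a1 a2 => ⟨(h3 a1 a2).2.2.1, (h3 a1 a2).2.1⟩) h5

end Pool.OddHC
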