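import Pool.Agent.Work.MP_8f87b2_h97.P5b
import Pool.Agent.Work.MP_8f87b2_h27.P5Prov
import Pool.Agent.Work.MP_8f87b2_h27.ByHeight

/-!
# L pairs against E pairs: the 5-cycles P5, P5M as types of merged groups

`hitLE`, `mgLE`: the relations for `by_height`. `hh_LE`, `hm_LE`: its two hypotheses. `lp_field`: the L pair over a hop at one
height has a type `PH` (itself, or a HALF group which is merged with the E pair of its host); `lp_prov`: the provider of pairs.
-/

set_option autoImplicit false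

namespace Pool.OddHC

open Finset BinaryTree Multiset Pool.OddHop

variable {j k : ℕ} {τ : Type}

namespace P5

theorem o_eq : (lp 1 : BinaryTree Unit) = .nil △ .nil := rfl

theorem app_node_ne {X : BinaryTree Unit} (h : X ≠ .nil) (A B : BinaryTree Unit) :
    ∃ P Q, app X (A △ B) = P △ Q ∧ Q ≠ .nil := by
  rcases X with _ | ⟨u, P, Q⟩
  · exact absurd rfl h
  · refine ⟨P, app Q (A △ B), rfl, ?_⟩
    rcases Q with _ | ⟨u, P, Q⟩
    · exact fun h => by cases h
    · exact fun h => by cases h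

theorem app_inj_right {X Y : BinaryTree Unit} (S : BinaryTree Unit) (h : app X S = app Y S) : X = Y := by
  have h1 := congrArg wd h
  rw [wd_app, wd_app] at h1
  exact wd_ext (List.append_cancel_right h1)

end P5

open P5

/-- a common word of an L group and a disjoint E group -/
def hitLE (k : ℕ) (τ : Type) : Hit k τ := fun _ F g _ F' g' => Disjoint F F' ∧ ∃ x ∈ g.B, x ∈ g'.B

/-- the words of the two gadgets with a common word: the host of the L pair is `Y()`, `Y = ()(R)`, or `()Y`, `Y = (R)()` -/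
theorem hit_words {R Y : BinaryTree Unit} (hR : R ≠ .nil) {F F' : Set (Cyc k)} {g g' : DG k}
    (hL : IsTri (lp 1) R (lp 1) F g) (hE : IsTri .nil Y .nil F' g') (hd : Disjoint F F')
    {x : X k} (hx : x ∈ g.B) (hx' : x ∈ g'.B) :
    x.1 = w1 (lp 1) R (lp 1) ∧ cyc x ∈ F' ∧ (Y = .nil △ (R △ .nil) ∨ Y = R △ (.nil △ .nil)) := by
  obtain ⟨a, b, c, ha, hb, hc, h1, h2, h3, rfl, rfl⟩ := hL
  obtain ⟨a', b', c', ha', hb', hc', h1', h2', h3', rfl, rfl⟩ := hE
  change x ∈ ({a, b, c} : Finset (X k)) at hx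
  change x ∈ ({a', b', c'} : Finset (X k)) at hx'
  simp only [Finset.mem_insert, Finset.mem_singleton] at hx hx'
  rw [Set.disjoint_left] at hd
  have nb : x ≠ b ∨ (x ≠ b' ∧ x ≠ c') := by
    by_cases e : x = b
    · right
      constructor
      · rintro e'
        exact hd (a := cyc x) (Or.inl (by rw [e])) (Or.inl (by rw [e']))
      · rintro e'
        exact hd (a := cyc x) (Or.inl (by rw [e])) (Or.inr (by rw [e']; rfl))
    · exact Or.inl e
  have nc : x ≠ c ∨ (x ≠ b' ∧ x ≠ c') := by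
    by_cases e : x = c
    · right
      constructor
      · rintro e'
        exact hd (a := cyc x) (Or.inr (by rw [e]; rfl)) (Or.inl (by rw [e']))
      · rintro e'
        exact hd (a := cyc x) (Or.inr (by rw [e]; rfl)) (Or.inr (by rw [e']; rfl))
    · exact Or.inl e
  -- the host of the E pair has one component
  have na : x ≠ a' := by
    intro e
    have e1 : x.1 = Y △ .nil := by rw [e, ha']; rfl
    rcases hx with e0 | e0 | e0
    · rw [e0, ha] at e1
      change (.nil : BinaryTree Unit) △ (R △ (.nil △ .nil)) = _ at e1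
      cases e1
    · rw [e0, hb] at e1
      obtain ⟨P, Q, hPQ, hQ⟩ := app_node_ne hR (lp 1) (lp 1)
      change app R (lp 1 △ lp 1) = _ at e1
      rw [hPQ] at e1
      have e2 : Q = .nil := congrArg BinaryTree.right e1
      exact hQ e2
    · rw [e0, hc] at e1
      change (.nil : BinaryTree Unit) △ ((.nil △ .nil) △ R) = _ at e1
      cases e1
  have hxa : x = a := by
    rcases hx with e | e | e
    · exact e
    · rcases nb with h | h
      · exact absurd e h
      · rcases hx' with e' | e' | e'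
        · exact absurd e' na
        · exact absurd e' h.1
        · exact absurd e' h.2
    · rcases nc with h | h
      · exact absurd e h
      · rcases hx' with e' | e' | e'
        · exact absurd e' na
        · exact absurd e' h.1
        · exact absurd e' h.2
  have ha1 : x.1 = w1 (lp 1) R (lp 1) := by rw [hxa, ha]
  refine ⟨ha1, ?_, ?_⟩
  · rcases hx' with e' | e' | e'
    · exact absurd e' na
    · exact Or.inl (by rw [e'])
    · exact Or.inr (by rw [e']; rfl)
  · rcases hx' with e' | e' | e'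
    · exact absurd e' na
    · left
      rw [e', hb'] at ha1
      change app Y (.nil △ .nil) = app (.nil △ (R △ .nil)) (.nil △ .nil) at ha1
      exact app_inj_right _ ha1
    · right
      rw [e', hc'] at ha1
      change (.nil : BinaryTree Unit) △ Y = .nil △ (R △ (.nil △ .nil)) at ha1
      exact congrArg BinaryTree.right ha1

/-- the half given by an E gadget -/
def mgLE (k : ℕ) (τ : Type) : Set (Cyc k) → τ → Set (Cyc k) → DG k → Prop := fun F _ _ g =>
  ∃ (R : BinaryTree Unit) (b c b' c' : X k), 2 ≤ ht R ∧ LOpt R b c b' c' ∧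
    ((F = {cyc b, cyc c'} ∧ ∃ l ∈ g.B, l.1 = .nil △ (.nil △ (R △ .nil))) ∨
      (F = {cyc b', cyc c} ∧ ∃ l ∈ g.B, l.1 = R △ (.nil △ (.nil △ .nil))))

/-- an E gadget with the word `()()(R)` or `(R)()()`: its `Y` -/
theorem half_word {Y R : BinaryTree Unit} (hR : R ≠ .nil) {F : Set (Cyc k)} {g : DG k}
    (hE : IsTri .nil Y .nil F g) {l : X k} (hl : l ∈ g.B) :
    (l.1 = .nil △ (.nil △ (R △ .nil)) → Y = .nil △ (R △ .nil)) ∧
      (l.1 = R △ (.nil △ (.nil △ .nil)) → Y = R △ (.nil △ .nil)) := by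
  obtain ⟨a, b, c, ha, hb, hc, h1, h2, h3, rfl, rfl⟩ := hE
  change l ∈ ({a, b, c} : Finset (X k)) at hl
  simp only [Finset.mem_insert, Finset.mem_singleton] at hl
  constructor
  · intro e
    rcases hl with h | h | h
    · rw [h, ha] at e
      change Y △ .nil = _ at e
      cases e
    · rw [h, hb] at e
      change app Y (.nil △ .nil) = _ at e
      exfalso
      rcases Y with _ | ⟨u, P, Q⟩
      · change (.nil : BinaryTree Unit) △ .nil = _ at e
        cases e
      · have e1 : app Q (.nil △ .nil) = .nil △ (R △ .nil) := congrArg BinaryTree.right e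
        rcases Q with _ | ⟨u, P', Q'⟩
        · change (.nil : BinaryTree Unit) △ .nil = _ at e1
          cases e1
        · have e2 : app Q' (.nil △ .nil) = R △ .nil := congrArg BinaryTree.right e1
          rcases Q' with _ | ⟨u, P'', Q''⟩
          · exact hR (congrArg BinaryTree.left e2).symm
          · have e3 : app Q'' (.nil △ .nil) = .nil := congrArg BinaryTree.right e2
            rcases Q'' with _ | ⟨u, P3, Q3⟩
            · cases e3
            · cases e3
    · rw [h, hc] at e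
      change (.nil : BinaryTree Unit) △ Y = _ at e
      exact congrArg BinaryTree.right e
  · intro e
    rcases hl with h | h | h
    · rw [h, ha] at e
      change Y △ .nil = _ at e
      cases e
    · rw [h, hb] at e
      change app Y (.nil △ .nil) = app (R △ (.nil △ .nil)) (.nil △ .nil) at e
      exact app_inj_right _ e
    · rw [h, hc] at e
      change (.nil : BinaryTree Unit) △ Y = _ at e
      exact absurd (congrArg BinaryTree.left e).symm hR

theorem hm_LE (P : τ → Set (Cyc k) → DG k → Prop) (isE : τ → Prop)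
    (hE : ∀ t F g, isE t → P t F g → ∃ Y, IsTri .nil Y .nil F g) :
    ∀ F F' t E g, P t E g → isE t → mgLE k τ F t E g → mgLE k τ F' t E g → F = F' := by
  intro F F' t E g hP ht h1 h2
  obtain ⟨Y, hY⟩ := hE t E g ht hP
  obtain ⟨R, b, c, b', c', r2, hL, hF⟩ := h1
  obtain ⟨S, d, e, d', e', s2, hM, hF'⟩ := h2
  have hR : R ≠ .nil := by
    rintro rfl
    change 2 ≤ 0 at r2
    omega
  have hS : S ≠ .nil := by
    rintro rfl
    change 2 ≤ 0 at s2
    omega
  have same : R = S → cyc b = cyc d ∧ cyc c = cyc e ∧ cyc b' = cyc d' ∧ cyc c' = cyc e' := by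
    rintro rfl
    refine ⟨?_, ?_, ?_, ?_⟩
    · rw [show b = d from Subtype.ext (hL.wb.trans hM.wb.symm)]
    · rw [show c = e from Subtype.ext (hL.wc.trans hM.wc.symm)]
    · rw [show b' = d' from Subtype.ext (hL.wb'.trans hM.wb'.symm)]
    · rw [show c' = e' from Subtype.ext (hL.wc'.trans hM.wc'.symm)]
  rcases hF with ⟨rfl, l, hl, hw⟩ | ⟨rfl, l, hl, hw⟩
  · have y1 := (half_word hR hY hl).1 hw
    rcases hF' with ⟨rfl, l', hl', hw'⟩ | ⟨rfl, l', hl', hw'⟩
    · have y2 := (half_word hS hY hl').1 hw'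
      rw [y1] at y2
      have e0 : R = S := congrArg (fun x : BinaryTree Unit => x.right.left) y2
      obtain ⟨a1, a2, a3, a4⟩ := same e0
      rw [a1, a4]
    · have y2 := (half_word hS hY hl').2 hw'
      rw [y1] at y2
      exact absurd (congrArg BinaryTree.left y2).symm hS
  · have y1 := (half_word hR hY hl).2 hw
    rcases hF' with ⟨rfl, l', hl', hw'⟩ | ⟨rfl, l', hl', hw'⟩
    · have y2 := (half_word hS hY hl').1 hw'
      rw [y1] at y2
      exact absurd (congrArg BinaryTree.left y2) hR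
    · have y2 := (half_word hS hY hl').2 hw'
      rw [y1] at y2
      have e0 : R = S := congrArg BinaryTree.left y2
      obtain ⟨a1, a2, a3, a4⟩ := same e0
      rw [a3, a2]

theorem hh_LE (P : τ → Set (Cyc k) → DG k → Prop) (isE isL : τ → Prop)
    (hE : ∀ t F g, isE t → P t F g → ∃ Y, IsTri .nil Y .nil F g)
    (hL : ∀ t F g, isL t → P t F g → ∃ R, 2 ≤ ht R ∧ IsTri (lp 1) R (lp 1) F g) :
    ∀ t F g t' F' g', P t F g → isL t → P t' F' g' → isE t' → hitLE k τ t F g t' F' g' →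
      ∀ c ∈ F, ∀ d ∈ F', htc c < htc d := by
  rintro t F g t' F' g' h1 h2 h3 h4 ⟨hd, x, hx, hx'⟩
  obtain ⟨R, r2, hR⟩ := hL t F g h2 h1
  obtain ⟨Y, hY⟩ := hE t' F' g' h4 h3
  have hRn : R ≠ .nil := by
    rintro rfl
    change 2 ≤ 0 at r2
    omega
  obtain ⟨e1, e2, -⟩ := hit_words hRn hR hY hd hx hx'
  have a1 : ∀ c ∈ F, htc c = ht R := by
    obtain ⟨a, b, c, ha, hb, hc, n1, n2, n3, rfl, rfl⟩ := hR
    have hb2 : htc (cyc b) = ht R := by
      rw [htc_cyc, hb, ht_w1]
      have : ht (lp 1) = 1 := rfl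
      omega
    rintro d (rfl | rfl)
    · exact hb2
    · exact n2.symm.trans hb2
  have a2 : ∀ d ∈ F', ∀ d' ∈ F', htc d = htc d' := by
    obtain ⟨a, b, c, ha, hb, hc, n1, n2, n3, rfl, rfl⟩ := hY
    rintro d (rfl | rfl) d' (rfl | rfl)
    · rfl
    · exact n2
    · exact n2.symm
    · rfl
  intro c hc d hd
  rw [a1 c hc, a2 d hd _ e2, htc_cyc, e1, ht_w1]
  have : ht (lp 1) = 1 := rfl
  omega

/-- **THE L PAIR AT ONE HEIGHT**: itself, or a half of P5 (`{b, c'}`) or of P5M (`{b', c}`) -/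
theorem lp_field (P : τ → Set (Cyc k) → DG k → Prop) (isE isL : τ → Prop)
    (hE : ∀ t F g, isE t → P t F g → ∃ Y, IsTri .nil Y .nil F g)
    (h5 : ∀ F g, TyP5 F g → ∃ t, P t F g ∧ ¬ isE t ∧ ¬ isL t)
    (h5m : ∀ F g, TyP5M F g → ∃ t, P t F g ∧ ¬ isE t ∧ ¬ isL t)
    {N : Set (Cyc k)} {G : Set (Set (Cyc k))} {C : τ → Set (Cyc k) → DG k → Prop} (hC : Chosen N G P C)
    {R : BinaryTree Unit} {b c b' c' : X k} {g : DG k} (r2 : 2 ≤ ht R) (hO : LOpt R b c b' c')
    (hI : IsTri (lp 1) R (lp 1) {cyc b, cyc c} g) (hP : ∃ t, P t {cyc b, cyc c} g) :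
    (∃ o g, PH P isE isL (hitLE k τ) (mgLE k τ) C o {cyc b, cyc c} g) ∨
      (∃ o g, PH P isE isL (hitLE k τ) (mgLE k τ) C o {cyc b, cyc c'} g) ∨
      (∃ o g, PH P isE isL (hitLE k τ) (mgLE k τ) C o {cyc b', cyc c} g) := by
  obtain ⟨t, hP⟩ := hP
  have hl1 : ht (lp 1) = 1 := rfl
  have hl2 : ht (lp 2) = 1 := rfl
  have hn : ht (.nil : BinaryTree Unit) = 0 := rfl
  have hRn : R ≠ .nil := by
    rintro rfl
    change 2 ≤ 0 at r2
    omega
  have tb : htc (cyc b) = ht R := by rw [htc_cyc, hO.wb, ht_w1]; omega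
  have tc : htc (cyc c) = ht R := by rw [htc_cyc, hO.wc, ht_w1]; omega
  have tb' : htc (cyc b') = ht R := by rw [htc_cyc, hO.wb', ht_w1]; omega
  have tc' : htc (cyc c') = ht R := by rw [htc_cyc, hO.wc', ht_w1]; omega
  have pr : ∀ p q : Cyc k, htc p = ht R → htc q = ht R → ∀ c ∈ ({p, q} : Set (Cyc k)),
      ∀ d ∈ ({p, q} : Set (Cyc k)), htc c = htc d := by
    rintro p q hp hq c (rfl | rfl) d (rfl | rfl)
    · rfl
    · rw [hp, hq]
    · rw [hp, hq]
    · rfl
  by_cases hx : ∃ t' F' g', C t' F' g' ∧ isE t' ∧ hitLE k τ t {cyc b, cyc c} g t' F' g'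
  · right
    obtain ⟨t', F', g', hc, he, hd, x, hx1, hx2⟩ := hx
    obtain ⟨Y, hY⟩ := hE t' F' g' he (hC.le _ _ _ hc)
    obtain ⟨-, -, hw⟩ := hit_words hRn hI hY hd hx1 hx2
    obtain ⟨aa, bb, cc, ha, hb, hc', n1, n2, n3, hF', hg'⟩ := hY
    rcases hw with rfl | rfl
    · left
      have nbc : cyc b ≠ cyc c' := by
        intro e
        apply hO.rbc
        rw [← hO.rc, e]
      obtain ⟨g5, hg5⟩ := TyP5.ex (k := k) r2 (y := bb) (l := cc) (p := b) (q := c') hb hc' hO.wb hO.wc'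
        n1 nbc
      obtain ⟨t5, p5, q5, s5⟩ := h5 _ _ hg5
      refine ⟨none, g, pr _ _ tb tc', t', F', g', t5, g5, hc, he,
        ⟨R, b, c, b', c', r2, hO, Or.inl ⟨rfl, cc, ?_, hc'⟩⟩, ?_, q5, s5⟩
      · rw [hg']
        change cc ∈ ({aa, bb, cc} : Finset (X k))
        simp
      · have e : ({cyc b, cyc c'} ∪ F' : Set (Cyc k)) = {cyc bb, cyc cc, cyc b, cyc c'} := by
          rw [hF']
          ext z
          simp only [Set.mem_union, Set.mem_insert_iff, Set.mem_singleton_iff]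
          tauto
        rw [e]
        exact p5
    · right
      have nbc : cyc b' ≠ cyc c := by
        intro e
        apply hO.rbc
        rw [← hO.rb, e]
      obtain ⟨g5, hg5⟩ := TyP5M.ex (k := k) r2 (y := cc) (l := bb) (p := b') (q := c) hc' hb hO.wb'
        hO.wc (fun h => n1 h.symm) nbc
      obtain ⟨t5, p5, q5, s5⟩ := h5m _ _ hg5
      refine ⟨none, g, pr _ _ tb' tc, t', F', g', t5, g5, hc, he,
        ⟨R, b, c, b', c', r2, hO, Or.inr ⟨rfl, bb, ?_, hb⟩⟩, ?_, q5, s5⟩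
      · rw [hg']
        change bb ∈ ({aa, bb, cc} : Finset (X k))
        simp
      · have e : ({cyc b', cyc c} ∪ F' : Set (Cyc k)) = {cyc cc, cyc bb, cyc b', cyc c} := by
          rw [hF']
          ext z
          simp only [Set.mem_union, Set.mem_insert_iff, Set.mem_singleton_iff]
          tauto
        rw [e]
        exact p5
  · left
    refine ⟨some t, g, hP, pr _ _ tb tc, ?_⟩
    intro _ t' F' g' hc he hh
    exact hx ⟨t', F', g', hc, he, hh⟩

/-- **THE PROVIDER OF L PAIRS AT HEIGHT `h`** -/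
theorem lp_prov (P : τ → Set (Cyc k) → DG k → Prop) (isE isL : τ → Prop)
    (hE : ∀ t F g, isE t → P t F g → ∃ Y, IsTri .nil Y .nil F g)
    (hT : ∀ F g, TyL F g → ∃ t, P t F g)
    (h5 : ∀ F g, TyP5 F g → ∃ t, P t F g ∧ ¬ isE t ∧ ¬ isL t)
    (h5m : ∀ F g, TyP5M F g → ∃ t, P t F g ∧ ¬ isE t ∧ ¬ isL t)
    {N : Set (Cyc k)} {G : Set (Set (Cyc k))} {C : τ → Set (Cyc k) → DG k → Prop} (hC : Chosen N G P C)
    {h : ℕ} (h3 : 3 ≤ h) {U U₂ : Cyc j} (hne : U ≠ U₂) (hop : HopC U U₂) {m : ℕ}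
    (hm : 1 ≤ m) (hk : j + pkc U + m = k)
    (hh : ∀ p : Cyc k, Rd p = ⟨j, U⟩ ∨ Rd p = ⟨j, U₂⟩ → htc p = h) :
    ∃ p q : Cyc k, Rd p = ⟨j, U⟩ ∧ Rd q = ⟨j, U₂⟩ ∧ (m = 2 → j % 2 = 0 → TopTwo p ∧ TopTwo q) ∧
      ∃ o g, PH P isE isL (hitLE k τ) (mgLE k τ) C o {p, q} g := by
  refine tyLP_of_hop (fun F => ∃ o g, PH P isE isL (hitLE k τ) (mgLE k τ) C o F g) hne hop hm hk ?_
  intro R b c b' c' g hO hL hI hr
  have hl1 : ht (lp 1) = 1 := rfl
  have tb : htc (cyc b) = h := by
    rcases hr with ⟨e, -⟩ | ⟨e, -⟩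
    · exact hh _ (Or.inl e)
    · exact hh _ (Or.inr e)
  have r2 : 2 ≤ ht R := by
    rw [htc_cyc, hO.wb, ht_w1] at tb
    omega
  exact lp_field P isE isL hE h5 h5m hC r2 hO hI (hT _ _ hL)

/-- **THE GROUPS OF ALL HEIGHTS**: no L group meets an E group -/
theorem by_height_LE (P : τ → Set (Cyc k) → DG k → Prop) (isE isL : τ → Prop)
    (hE : ∀ t F g, isE t → P t F g → ∃ Y, IsTri .nil Y .nil F g)
    (hL : ∀ t F g, isL t → P t F g → ∃ R, 2 ≤ ht R ∧ IsTri (lp 1) R (lp 1) F g)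
    (lo hi : ℕ)
    (reg : ∀ h, lo ≤ h → h ≤ hi → ∀ (N G : _) (C : τ → Set (Cyc k) → DG k → Prop), Chosen N G P C →
      (∀ c, c ∈ N ↔ h < htc c ∧ htc c ≤ hi) →
      ∃ G1, GrpOK {p : Cyc k | htc p = h} G1 (PH P isE isL (hitLE k τ) (mgLE k τ) C)) :
    ∃ (G : Set (Set (Cyc k))) (C : τ → Set (Cyc k) → DG k → Prop),
      Chosen {p : Cyc k | lo ≤ htc p ∧ htc p ≤ hi} G P C ∧
      ∀ t F g t' F' g', C t F g → isL t → C t' F' g' → isE t' → F ≠ F' →
        (∀ x ∈ g.B, x ∉ g'.B) ∧ ∀ x ∈ g'.B, x ∉ g.B := by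
  obtain ⟨G, C, hC, h⟩ := by_height P isE isL (hitLE k τ) (mgLE k τ) (hh_LE P isE isL hE hL)
    (hm_LE P isE hE) lo hi reg
  refine ⟨G, C, hC, ?_⟩
  intro t F g t' F' g' h1 h2 h3 h4 hne
  have hd : Disjoint F F' := by
    rw [Set.disjoint_left]
    intro c hc hc'
    exact hne (hC.grp.one F (hC.mem _ _ _ h1) F' (hC.mem _ _ _ h3) c hc hc')
  exact ⟨fun x hx hx' => h t F g t' F' g' h1 h2 h3 h4 ⟨hd, x, hx, hx'⟩,
    fun x hx' hx => h t F g t' F' g' h1 h2 h3 h4 ⟨hd, x, hx, hx'⟩⟩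

end Pool.OddHC
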