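import Pool.Agent.Work.MP_8f87b2_h27.P5D
import Pool.Agent.Work.MP_8f87b2_fin.VInst
import Pool.Agent.Work.MP_8f87b2_fin.MidBlk

/-!
# The regions of one height for the types `PH`

`PH.mk`, `typd_PH`: groups of one height of a type which is not `isL`. `reg_Vs_PH`: a set of regions of height `h`, given the
chosen gadgets above. `all_heights`: the groups of all heights from the regions.
-/

set_option autoImplicit false

namespace Pool.OddHC

open Finset BinaryTree Multiset Pool.OddHop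

variable {j j2 k : ℕ} {τ : Type} {P : τ → Set (Cyc k) → DG k → Prop} {isE isL : τ → Prop}
  {hit : Hit k τ} {mg : Set (Cyc k) → τ → Set (Cyc k) → DG k → Prop} {C : τ → Set (Cyc k) → DG k → Prop}

theorem PH.mk {t : τ} {F : Set (Cyc k)} {g : DG k} (h : P t F g) (hl : ¬ isL t)
    (hh : ∀ c ∈ F, ∀ d ∈ F, htc c = htc d) : PH P isE isL hit mg C (some t) F g :=
  ⟨h, hh, fun h' => absurd h' hl⟩

theorem typd_PH {F : Set (Cyc k)} (h : ∃ t g, ¬ isL t ∧ P t F g)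
    (hh : ∀ c ∈ F, ∀ d ∈ F, htc c = htc d) :
    Typd (PH P isE isL hit mg C) (PH P isE isL hit mg C) F := by
  obtain ⟨t, g, h1, h2⟩ := h
  exact Or.inl ⟨some t, g, PH.mk h2 h1 hh⟩

/-- the doubly reduced T-cycle gives the height -/
theorem htc_of_Rd2 (p : Cyc k) {h : ℕ} (h3 : 3 ≤ h) (hp : htc (Rd (Rd p).2).2 + 2 = h) : htc p = h := by
  have key : ∀ {k : ℕ} (p : Cyc k), htc (Rd p).2 = 0 ∨ htc p = htc (Rd p).2 + 1 := by
    intro k p
    rcases Nat.lt_or_ge (htc p) 2 with h1 | h1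
    · left
      by_contra h0
      have e1 : htc (Rd p).2 = (contc (Rd p).2).sup := rfl
      have h4 : ∃ x ∈ contc (Rd p).2, 1 ≤ x := by
        by_contra hcon
        push Not at hcon
        apply h0
        rw [e1]
        have : (contc (Rd p).2).sup ≤ 0 := by
          apply Multiset.sup_le.2
          intro b hb
          have := hcon b hb
          omega
        omega
      obtain ⟨x, hx, hx1⟩ := h4
      have h5 : x + 1 ∈ contc p := by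
        rw [contc_eq p]
        exact Multiset.mem_add.2 (Or.inl (Multiset.mem_map_of_mem _ hx))
      have h6 : x + 1 ≤ htc p := Multiset.le_sup h5
      omega
    · exact Or.inr (htc_Rd p h1)
  rcases key p with h1 | h1
  · rcases key (Rd p).2 with h2 | h2
    · omega
    · omega
  · rcases key (Rd p).2 with h2 | h2
    · omega
    · omega

/-- **A SET OF REGIONS OF HEIGHT `h`** -/
theorem reg_Vs_PH (hk0 : 9 ≤ k) (hE : ∀ t F g, isE t → P t F g → TyEd F g)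
    (hT : ∀ F g, TyLG F g → ∃ t, P t F g)
    (h5 : ∀ S F g, TyP5D S F g → ∃ t, P t F g ∧ ¬ isE t ∧ ¬ isL t)
    (h5m : ∀ S F g, TyP5MD S F g → ∃ t, P t F g ∧ ¬ isE t ∧ ¬ isL t)
    {N : Set (Cyc k)} {G : Set (Set (Cyc k))} (hC : Chosen N G P C)
    {h : ℕ} (h3 : 3 ≤ h) {S : Set RD} (hS : ∀ d ∈ S, htc d.2 + 2 = h)
    (h2 : ∀ d ∈ S, 2 ≤ pkc d.2) (hq : ∀ d ∈ S, ∃ x ∈ contc d.2, 2 ≤ x)
    (hk : ∀ d ∈ S, d.1 + 2 * pkc d.2 + 2 ≤ k)
    (hEp : ∀ p q : Cyc k, Rd (Rd p).2 ∈ S → cl q = cl p → p ≠ q → HopC p q →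
      ∃ t g, ¬ isL t ∧ P t {p, q} g)
    (hA : ∀ F g, TyAV F g → (∀ c ∈ F, Rd (Rd c).2 ∈ S) → ∃ t g, ¬ isL t ∧ P t F g)
    (hK : ∀ F g, TyKq F g → (∀ c ∈ F, Rd (Rd c).2 ∈ S) → ∃ t g, ¬ isL t ∧ P t F g)
    (jv : ∀ (a j : ℕ) (U U' : Cyc j), 1 ≤ a → Rd U ∈ S → Rd U' = Rd U →
      j + pkc U = k → (contc U).count 1 = a → U ≠ U' → HopC U U' →
      ∃ p q : Cyc k, Rd p = ⟨j, U⟩ ∧ Rd q = ⟨j, U'⟩ ∧ ∃ t g, ¬ isL t ∧ P t {p, q} g) :
    RegOK (PH P isE isL (hitLE k τ) (mgLE k τ) C) S := by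
  have hh : ∀ p : Cyc k, Rd (Rd p).2 ∈ S → htc p = h := fun p hp => htc_of_Rd2 p h3 (hS _ hp)
  have hF : ∀ F : Set (Cyc k), (∀ c ∈ F, Rd (Rd c).2 ∈ S) → ∀ c ∈ F, ∀ d ∈ F, htc c = htc d :=
    fun F hF c hc d hd => by rw [hh c (hF c hc), hh d (hF d hd)]
  have pr : ∀ p q : Cyc k, htc p = htc q → ∀ c ∈ ({p, q} : Set (Cyc k)),
      ∀ d ∈ ({p, q} : Set (Cyc k)), htc c = htc d := by
    rintro p q hp c (rfl | rfl) d (rfl | rfl)
    · rfl
    · exact hp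
    · exact hp.symm
    · rfl
  refine PV.reg_Vs h2 hq hk ?_ ?_ ?_ ?_ ?_
  · intro p q hp hq' hne hop
    obtain ⟨t, g, a1, a2⟩ := hEp p q hp hq' hne hop
    exact ⟨hne, some t, g, PH.mk a2 a1 (pr p q (htc_cl hq').symm)⟩
  · intro p0 hp0
    refine lex_PHD P isE isL hE hT h5 h5m hC h3 hk0 fun p hp => ?_
    rw [← cl_sup, hp, cl_sup]
    exact hh p0 hp0
  · intro F g hg hFS
    exact typd_PH (hA F g hg hFS) (hF F hFS)
  · intro F g hg hFS
    exact typd_PH (hK F g hg hFS) (hF F hFS)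
  · intro a j U U' ha hU hU' hj hc hne hop
    obtain ⟨p, q, a1, a2, a3⟩ := jv a j U U' ha hU hU' hj hc hne hop
    refine ⟨p, q, a1, a2, typd_PH a3 (pr p q ?_)⟩
    rw [hh p (by rw [a1]; exact hU), hh q (by rw [a2]; change Rd U' ∈ S; rw [hU']; exact hU)]

/-- **THE GROUPS OF ALL HEIGHTS** from the regions of every height -/
theorem all_heights (hE : ∀ t F g, isE t → P t F g → ∃ Y, IsTri .nil Y .nil F g)
    (hL : ∀ t F g, isL t → P t F g → ∃ R, 2 ≤ ht R ∧ IsTri (lp 1) R (lp 1) F g)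
    (lo hi : ℕ) {ι : Type} (good : RD → Prop) (K : ℕ → ι → Set (RD × Multiset ℕ))
    (reg : ∀ h, lo ≤ h → h ≤ hi → ∀ (N G : _) (C : τ → Set (Cyc k) → DG k → Prop), Chosen N G P C →
      (∀ c, c ∈ N ↔ h < htc c ∧ htc c ≤ hi) → ∀ d, good d → htc d.2 + 2 = h →
      RegOK (PH P isE isL (hitLE k τ) (mgLE k τ) C) {d})
    (regK : ∀ h, lo ≤ h → h ≤ hi → ∀ (N G : _) (C : τ → Set (Cyc k) → DG k → Prop), Chosen N G P C →
      (∀ c, c ∈ N ↔ h < htc c ∧ htc c ≤ hi) → ∀ i, ClsReg (PH P isE isL (hitLE k τ) (mgLE k τ) C) (K h i))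
    (hK : ∀ h i, ∀ κ ∈ K h i, ¬ good κ.1) (hd : ∀ h i i' κ, κ ∈ K h i → κ ∈ K h i' → i = i')
    (cov : ∀ p : Cyc k, lo ≤ htc p → htc p ≤ hi → good (Rd (Rd p).2) ∧ 3 ≤ htc p ∨
      ∃ i, cl p ∈ K (htc p) i) :
    ∃ (G : Set (Set (Cyc k))) (C : τ → Set (Cyc k) → DG k → Prop),
      Chosen {p : Cyc k | lo ≤ htc p ∧ htc p ≤ hi} G P C ∧
      ∀ t F g t' F' g', C t F g → isL t → C t' F' g' → isE t' → F ≠ F' →
        (∀ x ∈ g.B, x ∉ g'.B) ∧ ∀ x ∈ g'.B, x ∉ g.B := by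
  refine by_height_LE P isE isL hE hL lo hi ?_
  intro h hlo hhi N G C hC hN
  refine cover (H := fun n => n = h) ?_ (fun d => good d ∧ htc d.2 + 2 = h) ?_ (K h) ?_ (hd h) ?_ ?_
  · intro t F g hP
    rcases t with _ | t
    · exact hP.1
    · exact hP.2.1
  · rintro d ⟨h1, h2⟩
    exact reg h hlo hhi N G C hC hN d h1 h2
  · rintro i κ hκ ⟨h1, _⟩
    exact hK h i κ hκ h1
  · exact regK h hlo hhi N G C hC hN
  · intro p hp
    rcases cov p (by omega) (by omega) with ⟨h1, h2⟩ | h1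
    · exact Or.inl ⟨h1, by rw [← htc_Rd2 p h2, hp]⟩
    · rw [hp] at h1
      exact Or.inr h1

end Pool.OddHC
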